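import Pool.Agent.H22.PS.Loc

/-!
# The real roots form continuous branches over an interval without critical abscissas

If `Ioo α β` is empty take `m = 0`. Otherwise `Y x` (`choose`) is the finite set of roots of
`F x`. (a) `x ↦ #(Y x)` is locally constant on `Ioo α β`: by `loc` at `x0` the map sending a root of
`F x` to the root `y` of `F x0` whose interval contains it is a bijection. `Ioo α β` is preconnected
(`isPreconnected_Ioo`), so `#(Y x) = m` is constant (`IsPreconnected.constant_of_...`, or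
`IsPreconnected.eqOn_const_of_mapsTo`). (b) Let `φ i x` be the `i`-th smallest root,
`(Y x).orderEmbOfFin h i` for `x ∈ Ioo α β`. Continuity at `x0`: given `ε`, by `loc` for `x` near `x0`
the map `Y x → Y x0` above is an order isomorphism (the intervals are ordered and disjoint), so it
maps the `i`-th element to the `i`-th element and `|φ i x - φ i x0| < ε1 ≤ ε`.
-/

namespace Pool.Agent.H22.PS

open Classical in
private theorem branch_loc (F F' : ℝ → ℝ → ℝ) (hF : Continuous fun p : ℝ × ℝ => F p.1 p.2)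
    (hF' : Continuous fun p : ℝ × ℝ => F' p.1 p.2) (hd : ∀ x y, HasDerivAt (F x) (F' x y) y)
    (α β : ℝ) (Y : ℝ → Finset ℝ)
    (hY : ∀ x ∈ Set.Ioo α β, ∀ y, y ∈ Y x ↔ F x y = 0)
    (hs : ∀ x ∈ Set.Ioo α β, ∀ y, F x y = 0 → F' x y ≠ 0)
    (hb : ∀ x0 ∈ Set.Ioo α β, ∃ δ > 0, ∃ R : ℝ, ∀ x, |x - x0| < δ → ∀ y, F x y = 0 → |y| ≤ R)
    (x0 : ℝ) (hx0 : x0 ∈ Set.Ioo α β) (ε : ℝ) (hε : 0 < ε) :
    ∃ δ > 0, ∀ x, |x - x0| < δ → x ∈ Set.Ioo α β ∧ ∃ t : ℝ → ℝ,
      (∀ y ∈ Y x0, ∀ y' ∈ Y x0, y < y' → t y < t y') ∧ (∀ y ∈ Y x0, |t y - y| < ε) ∧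
      Y x = (Y x0).image t := by
  obtain ⟨δ0, hδ0, R, hR⟩ := hb x0 hx0
  obtain ⟨δ, hδ, e, he, heε, hsep, hall⟩ := loc F F' hF hF' hd x0 (Y x0) (hY x0 hx0)
    (fun y hy => hs x0 hx0 y ((hY x0 hx0 y).1 hy)) R δ0 hδ0 hR ε hε
  have hpos : 0 < min δ (min (x0 - α) (β - x0)) :=
    lt_min hδ (lt_min (by linarith [hx0.1]) (by linarith [hx0.2]))
  refine ⟨_, hpos, fun x hx => ?_⟩
  have h1 : |x - x0| < δ := lt_of_lt_of_le hx (min_le_left _ _)
  have h2 : |x - x0| < x0 - α :=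
    lt_of_lt_of_le hx ((min_le_right _ _).trans (min_le_left _ _))
  have h3 : |x - x0| < β - x0 :=
    lt_of_lt_of_le hx ((min_le_right _ _).trans (min_le_right _ _))
  have hxm : x ∈ Set.Ioo α β := by
    rw [abs_lt] at h2 h3
    exact ⟨by linarith [h2.1], by linarith [h3.2]⟩
  obtain ⟨hu, hcov⟩ := hall x h1
  have hex : ∀ y, ∃ t, y ∈ Y x0 → t ∈ Set.Ioo (y - e) (y + e) ∧ F x t = 0 := by
    intro y
    by_cases hy : y ∈ Y x0
    · obtain ⟨t, ht, -⟩ := hu y hy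
      exact ⟨t, fun _ => ht⟩
    · exact ⟨0, fun h => absurd h hy⟩
  choose t ht using hex
  refine ⟨hxm, t, ?_, ?_, ?_⟩
  · intro y hy y' hy' hlt
    have h4 := (ht y hy).1
    have h5 := (ht y' hy').1
    have h6 := hsep y hy y' hy' hlt
    linarith [h4.2, h5.1]
  · intro y hy
    have h4 := (ht y hy).1
    rw [abs_lt]
    constructor
    · linarith [h4.1]
    · linarith [h4.2]
  · ext z
    rw [Finset.mem_image, hY x hxm]
    constructor
    · intro hz
      obtain ⟨y, hy, hzy⟩ := hcov z hz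
      refine ⟨y, hy, ?_⟩
      exact (hu y hy).unique (ht y hy) ⟨hzy, hz⟩
    · rintro ⟨y, hy, rfl⟩
      exact (ht y hy).2

theorem branch (F F' : ℝ → ℝ → ℝ) (hF : Continuous fun p : ℝ × ℝ => F p.1 p.2)
    (hF' : Continuous fun p : ℝ × ℝ => F' p.1 p.2) (hd : ∀ x y, HasDerivAt (F x) (F' x y) y)
    (α β : ℝ) (d : ℕ)
    (hfin : ∀ x ∈ Set.Ioo α β, ∃ Y : Finset ℝ, Y.card ≤ d ∧ ∀ y, y ∈ Y ↔ F x y = 0)
    (hs : ∀ x ∈ Set.Ioo α β, ∀ y, F x y = 0 → F' x y ≠ 0)
    (hb : ∀ x0 ∈ Set.Ioo α β, ∃ δ > 0, ∃ R : ℝ, ∀ x, |x - x0| < δ → ∀ y, F x y = 0 → |y| ≤ R) :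
    ∃ m ≤ d, ∃ φ : Fin m → ℝ → ℝ, (∀ i, ContinuousOn (φ i) (Set.Ioo α β)) ∧
      (∀ x ∈ Set.Ioo α β, ∀ y, F x y = 0 ↔ ∃ i, φ i x = y) ∧
      (∀ x ∈ Set.Ioo α β, ∀ i j, i ≠ j → φ i x ≠ φ j x) := by
  classical
  rcases (Set.Ioo α β).eq_empty_or_nonempty with hemp | ⟨x1, hx1⟩
  · refine ⟨0, Nat.zero_le _, fun i => i.elim0, fun i => i.elim0, ?_, ?_⟩
    · intro x hx
      rw [hemp] at hx
      exact absurd hx (Set.notMem_empty x)
    · intro x hx
      rw [hemp] at hx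
      exact absurd hx (Set.notMem_empty x)
  choose! Y hYc hY using hfin
  have hloc := branch_loc F F' hF hF' hd α β Y hY hs hb
  have hcardloc : ∀ x0 ∈ Set.Ioo α β, ∃ δ > 0, ∀ x, |x - x0| < δ → (Y x).card = (Y x0).card := by
    intro x0 hx0
    obtain ⟨δ, hδ, h⟩ := hloc x0 hx0 1 one_pos
    refine ⟨δ, hδ, fun x hx => ?_⟩
    obtain ⟨-, t, ht1, -, ht3⟩ := h x hx
    rw [ht3, Finset.card_image_of_injOn]
    intro y hy y' hy' he
    rcases lt_trichotomy y y' with hlt | rfl | hlt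
    · exact absurd he (ne_of_lt (ht1 y hy y' hy' hlt))
    · rfl
    · exact absurd he.symm (ne_of_lt (ht1 y' hy' y hy hlt))
  have hcont : ContinuousOn (fun x => (Y x).card) (Set.Ioo α β) := by
    intro x0 hx0
    obtain ⟨δ, hδ, h⟩ := hcardloc x0 hx0
    refine ContinuousAt.continuousWithinAt ?_
    have hev : (fun x => (Y x).card) =ᶠ[nhds x0] fun _ => (Y x0).card := by
      have : Metric.ball x0 δ ∈ nhds x0 := Metric.ball_mem_nhds _ hδ
      filter_upwards [this] with x hx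
      rw [Metric.mem_ball, Real.dist_eq] at hx
      exact h x hx
    exact continuousAt_const.congr hev.symm
  have hcard : ∀ x ∈ Set.Ioo α β, (Y x).card = (Y x1).card := fun x hx =>
    (isPreconnected_Ioo).constant hcont hx hx1
  let φ : Fin (Y x1).card → ℝ → ℝ := fun i x =>
    if h : (Y x).card = (Y x1).card then (Y x).orderEmbOfFin h i else 0
  have hφ : ∀ x (hx : x ∈ Set.Ioo α β) i, φ i x = (Y x).orderEmbOfFin (hcard x hx) i := by
    intro x hx i
    simp only [φ]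
    rw [dif_pos (hcard x hx)]
  refine ⟨(Y x1).card, hYc x1 hx1, φ, ?_, ?_, ?_⟩
  · intro i x0 hx0
    rw [Metric.continuousWithinAt_iff]
    intro ε hε
    obtain ⟨δ, hδ, h⟩ := hloc x0 hx0 ε hε
    refine ⟨δ, hδ, fun x hx hdist => ?_⟩
    rw [Real.dist_eq] at hdist
    obtain ⟨-, t, ht1, ht2, ht3⟩ := h x hdist
    have hmem : ∀ j, (Y x0).orderEmbOfFin (hcard x0 hx0) j ∈ Y x0 := fun j =>
      Finset.orderEmbOfFin_mem _ _ _
    have huni : (fun j => t ((Y x0).orderEmbOfFin (hcard x0 hx0) j)) =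
        (Y x).orderEmbOfFin (hcard x hx) := by
      refine Finset.orderEmbOfFin_unique (hcard x hx) ?_ ?_
      · intro j
        rw [ht3]
        exact Finset.mem_image_of_mem _ (hmem j)
      · intro j j' hjj
        exact ht1 _ (hmem j) _ (hmem j') ((Y x0).orderEmbOfFin (hcard x0 hx0) |>.strictMono hjj)
    rw [Real.dist_eq, hφ x hx, hφ x0 hx0, ← huni]
    exact ht2 _ (hmem i)
  · intro x hx y
    rw [← hY x hx y]
    constructor
    · intro hy
      have : y ∈ Set.range ((Y x).orderEmbOfFin (hcard x hx)) := by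
        rw [Finset.range_orderEmbOfFin]
        exact hy
      obtain ⟨i, hi⟩ := this
      exact ⟨i, by rw [hφ x hx, hi]⟩
    · rintro ⟨i, hi⟩
      rw [← hi, hφ x hx]
      exact Finset.orderEmbOfFin_mem _ _ _
  · intro x hx i j hij h
    rw [hφ x hx, hφ x hx] at h
    exact hij (((Y x).orderEmbOfFin (hcard x hx)).injective h)

end Pool.Agent.H22.PS
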