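import Pool.Agent.H22.PS.Bd
import Pool.Agent.H22.PS.Branch

/-!
# Decomposition of an irreducible curve into boundedly many arcs

Let `Z` be the union of the finite sets of `roots_bdd` and `crit` for `f`, so
`#Z ≤ k + k * k`. The points of `Z` in `(-M, M)` together with `-M`, `M` (if `M ≤ 0` there is
nothing to do) cut `(-M, M)` into at most `#Z + 1` open intervals without points of `Z`
(`Finset.orderEmbOfFin` of `Z ∩ (-M, M) ∪ {-M, M}`, or induction). Over every one of them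
`branch` (with `F x y = eval ![x, y] f`, `F' x y = eval ![x, y] (pderiv 1 f)`) gives at most `k`
branches. Arcs of different intervals have disjoint domains. The exceptional points are the points
of the curve over `Z`, at most `k (k + k * k)` of them by `fib`. With
`N = (k + k * k + 1) * k + ...` pad by empty arcs (`a = b = 0`).
-/

namespace Pool.Agent.H22.PS

open Finset MvPolynomial
open scoped Classical

theorem arcDec (k : ℕ) : ∃ N : ℕ, ∀ f : MvPolynomial (Fin 2) ℝ, Irreducible f →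
    f.totalDegree ≤ k → pderiv 1 f ≠ 0 → ∀ M : ℝ,
    ∃ (a b : Fin N → ℝ) (φ : Fin N → ℝ → ℝ) (E : Finset (ℝ × ℝ)), E.card ≤ N ∧
      (∀ j, ContinuousOn (φ j) (Set.Ioo (a j) (b j))) ∧
      (∀ j, ∀ x ∈ Set.Ioo (a j) (b j), (x, φ j x) ∈ Zs f) ∧
      (∀ i j, i ≠ j → ∀ x ∈ Set.Ioo (a i) (b i), x ∈ Set.Ioo (a j) (b j) → φ i x ≠ φ j x) ∧
      (∀ p ∈ Zs f, |p.1| < M → p ∉ E → ∃ j, (a j < p.1 ∧ p.1 < b j) ∧ φ j p.1 = p.2) := by
  refine ⟨(k + k * k + 1) * k, fun f hf hk h1 M => ?_⟩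
  rcases le_or_gt M 0 with hM | hM
  · refine ⟨fun _ => 0, fun _ => 0, fun _ _ => 0, ∅, by simp, by simp, by simp, by simp, ?_⟩
    intro p _ hp
    exact absurd hp (not_lt.mpr (hM.trans (abs_nonneg _)))
  obtain ⟨Z1, hZ1c, hZ1⟩ := roots_bdd k f hf.ne_zero hk
  obtain ⟨Z2, hZ2c, hZ2⟩ := crit k f hf hk h1
  choose Y hYc hY using fib k f hf hk h1
  set Z := Z1 ∪ Z2 with hZ
  have hZc : Z.card ≤ k + k * k := (card_union_le _ _).trans (by omega)
  -- left end points
  set Z' := insert (-M) (Z.filter fun z => -M < z ∧ z < M) with hZ'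
  have hZ'c : Z'.card ≤ k + k * k + 1 :=
    (card_insert_le _ _).trans (by have := card_filter_le Z (fun z => -M < z ∧ z < M); omega)
  have hmem : ∀ z ∈ Z', z = -M ∨ (z ∈ Z ∧ -M < z ∧ z < M) := by
    intro z hz
    rwa [hZ', mem_insert, mem_filter] at hz
  have hZ'M : ∀ z ∈ Z', -M ≤ z ∧ z < M := by
    intro z hz
    rcases hmem z hz with rfl | ⟨_, h2, h3⟩
    · exact ⟨le_rfl, by linarith⟩
    · exact ⟨h2.le, h3⟩
  -- the next point
  have hnxt : ∀ z, z < M → ∃ w, z < w ∧ w ∈ insert M Z ∧ ∀ v ∈ insert M Z, z < v → w ≤ v := by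
    intro z hz
    have hne : ((insert M Z).filter fun w => z < w).Nonempty :=
      ⟨M, mem_filter.mpr ⟨mem_insert_self _ _, hz⟩⟩
    have h2 := mem_filter.mp (min'_mem _ hne)
    exact ⟨_, h2.2, h2.1, fun v hv hzv => min'_le _ _ (mem_filter.mpr ⟨hv, hzv⟩)⟩
  have hnxt' : ∀ z, ∃ w, z < M → z < w ∧ w ∈ insert M Z ∧ ∀ v ∈ insert M Z, z < v → w ≤ v := by
    intro z
    by_cases hz : z < M
    · obtain ⟨w, hw⟩ := hnxt z hz
      exact ⟨w, fun _ => hw⟩
    · exact ⟨z, fun h => absurd h hz⟩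
  choose nxt hnx using hnxt'
  -- no critical abscissa inside
  have hno : ∀ z ∈ Z', ∀ x ∈ Set.Ioo z (nxt z), x ∉ Z := by
    intro z hz x hx hxZ
    exact absurd ((hnx z (hZ'M z hz).2).2.2 x (mem_insert_of_mem hxZ) hx.1) (not_le.mpr hx.2)
  have hbr : ∀ z : Z', ∃ m ≤ k, ∃ φ : Fin m → ℝ → ℝ,
      (∀ i, ContinuousOn (φ i) (Set.Ioo z.1 (nxt z.1))) ∧
      (∀ x ∈ Set.Ioo z.1 (nxt z.1), ∀ y, eval ![x, y] f = 0 ↔ ∃ i, φ i x = y) ∧
      (∀ x ∈ Set.Ioo z.1 (nxt z.1), ∀ i j, i ≠ j → φ i x ≠ φ j x) := by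
    intro z
    refine branch (fun x y => eval ![x, y] f) (fun x y => eval ![x, y] (pderiv 1 f))
      (H19.RD.cont_eval f) (H19.RD.cont_eval _) (fun x y => H19.RD.hasDerivAt_line f x y)
      z.1 (nxt z.1) k (fun x _ => ⟨Y x, hYc x, hY x⟩) ?_ ?_
    · intro x hx y h2 h3
      exact hno z.1 z.2 x hx (mem_union_right _ (hZ2 x y h2 h3))
    · intro x hx
      exact hZ1 x fun h2 => hno z.1 z.2 x hx (mem_union_left _ h2)
  choose m hm φ hφ1 hφ2 hφ3 using hbr
  have hcard : Fintype.card (Σ z : Z', Fin (m z)) ≤ Fintype.card (Fin ((k + k * k + 1) * k)) := by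
    rw [Fintype.card_sigma, Fintype.card_fin]
    calc ∑ z : Z', Fintype.card (Fin (m z)) ≤ ∑ _z : Z', k :=
          sum_le_sum fun z _ => by rw [Fintype.card_fin]; exact hm z
      _ = Z'.card * k := by rw [sum_const, card_univ, Fintype.card_coe, smul_eq_mul]
      _ ≤ _ := Nat.mul_le_mul_right _ hZ'c
  obtain ⟨e⟩ := Function.Embedding.nonempty_of_card_le hcard
  have hg : ∀ t j, Function.partialInv e j = some t ↔ e t = j :=
    e.injective.isPartialInv
  set g := Function.partialInv e with hgdef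
  refine ⟨fun j => (g j).elim 0 fun t => t.1.1, fun j => (g j).elim 0 fun t => nxt t.1.1,
    fun j => (g j).elim (fun _ => 0) fun t => φ t.1 t.2,
    Z.biUnion fun x => (Y x).image fun y => (x, y), ?_, ?_, ?_, ?_, ?_⟩
  · calc (Z.biUnion fun x => (Y x).image fun y => (x, y)).card
        ≤ ∑ x ∈ Z, ((Y x).image fun y => (x, y)).card := card_biUnion_le
      _ ≤ ∑ _x ∈ Z, k := sum_le_sum fun x _ => card_image_le.trans (hYc x)
      _ = Z.card * k := by rw [sum_const, smul_eq_mul]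
      _ ≤ _ := Nat.mul_le_mul_right _ (by omega)
  · intro j
    rcases hj : g j with _ | t
    · simp only [hj, Option.elim]
      exact continuousOn_const
    · simp only [hj, Option.elim]
      exact hφ1 t.1 t.2
  · intro j x hx
    rcases hj : g j with _ | t
    · simp [hj] at hx
    · simp only [hj, Option.elim] at hx ⊢
      exact (hφ2 t.1 x hx _).mpr ⟨t.2, rfl⟩
  · intro i j hij x hxi hxj
    rcases hi : g i with _ | s
    · simp [hi] at hxi
    rcases hj : g j with _ | t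
    · simp [hj] at hxj
    simp only [hi, hj, Option.elim] at hxi hxj ⊢
    obtain ⟨z, s⟩ := s
    obtain ⟨w, t⟩ := t
    by_cases hzw : z = w
    · subst hzw
      refine hφ3 z x hxi s t ?_
      rintro rfl
      exact hij (((hg _ _).mp hi).symm.trans ((hg _ _).mp hj))
    · exfalso
      have key : ∀ z w : Z', z.1 < w.1 → w.1 < x → x < nxt z.1 → False := by
        intro z w h2 h3 h4
        have h5 : w.1 ∈ Z := by
          rcases hmem w.1 w.2 with h6 | h6
          · have := (hZ'M z.1 z.2).1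
            linarith
          · exact h6.1
        have h6 := (hnx z.1 (hZ'M z.1 z.2).2).2.2 w.1 (mem_insert_of_mem h5) h2
        linarith
      rcases lt_trichotomy z.1 w.1 with h2 | h2 | h2
      · exact key z w h2 hxj.1 hxi.2
      · exact hzw (Subtype.ext h2)
      · exact key w z h2 hxi.1 hxj.2
  · intro p hp hpM hpE
    rw [abs_lt] at hpM
    have hpZ : p.1 ∉ Z := by
      intro h2
      apply hpE
      rw [mem_biUnion]
      exact ⟨p.1, h2, mem_image.mpr ⟨p.2, (hY p.1 p.2).mpr hp, rfl⟩⟩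
    have hne : (Z'.filter fun z => z < p.1).Nonempty :=
      ⟨-M, mem_filter.mpr ⟨mem_insert_self _ _, hpM.1⟩⟩
    obtain ⟨z, hz, hmax⟩ : ∃ z ∈ Z'.filter (fun z => z < p.1), ∀ v ∈ Z'.filter (fun z => z < p.1),
        v ≤ z := ⟨_, max'_mem _ hne, fun v hv => le_max' _ _ hv⟩
    rw [mem_filter] at hz
    obtain ⟨h2, h3, h4⟩ := hnx z (hZ'M z hz.1).2
    have h5 : p.1 < nxt z := by
      by_contra h6
      push Not at h6
      have h7 : nxt z ∈ Z := by
        rcases mem_insert.mp h3 with h8 | h8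
        · linarith
        · exact h8
      have h8 : nxt z < p.1 := lt_of_le_of_ne h6 (fun h9 => hpZ (h9 ▸ h7))
      have h9 : nxt z ∈ Z' := by
        rw [hZ', mem_insert, mem_filter]
        right
        exact ⟨h7, by have := (hZ'M z hz.1).1; linarith, by linarith⟩
      have h10 := hmax _ (mem_filter.mpr ⟨h9, h8⟩)
      linarith
    obtain ⟨s, hs⟩ := (hφ2 ⟨z, hz.1⟩ p.1 ⟨hz.2, h5⟩ p.2).mp hp
    have h6 : g (e ⟨⟨z, hz.1⟩, s⟩) = some ⟨⟨z, hz.1⟩, s⟩ := (hg _ _).mpr rfl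
    refine ⟨e ⟨⟨z, hz.1⟩, s⟩, ?_, ?_⟩
    · simp only [h6, Option.elim]
      exact ⟨hz.2, h5⟩
    · simp only [h6, Option.elim]
      exact hs

end Pool.Agent.H22.PS
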