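import Pool.Agent.H22.PS.ArcsPS
import Pool.Agent.H22.PS.ArcDec

/-!
# Pach-Sharir theorem for irreducible algebraic curves

Let `M` be larger than all `|p.1|`, `p ∈ Q`, and take for every curve `i` the arcs
`a i j, b i j, φ i j` (`j : Fin N`) and the exceptional set `E i` of `arcDec k`. Apply `ps_arcs μ`
to the index type `ι × Fin N`.
-/

namespace Pool.Agent.H22.PS

open Finset MvPolynomial
open scoped Classical

theorem ps_alg (k μ : ℕ) : ∃ C : ℝ, 0 ≤ C ∧ ∀ (ι : Type) [Fintype ι]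
    (g : ι → MvPolynomial (Fin 2) ℝ) (Q : Finset (ℝ × ℝ)),
    (∀ i, Irreducible (g i) ∧ (g i).totalDegree ≤ k ∧ pderiv 1 (g i) ≠ 0) →
    (∀ i j, i ≠ j → ∃ T : Finset (ℝ × ℝ), T.card ≤ μ ∧ Zs (g i) ∩ Zs (g j) ⊆ T) →
    (∀ p ∈ Q, ∀ q ∈ Q, p ≠ q →
      (univ.filter fun i => p ∈ Zs (g i) ∧ q ∈ Zs (g i)).card ≤ μ) →
    ((∑ p ∈ Q, (univ.filter fun i => p ∈ Zs (g i)).card : ℕ) : ℝ) ≤
      C * ((Q.card : ℝ) ^ (2 / 3 : ℝ) * (Fintype.card ι : ℝ) ^ (2 / 3 : ℝ) + Q.card +
        Fintype.card ι) := by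
  obtain ⟨N, hN⟩ := arcDec k
  obtain ⟨C, hC0, hC⟩ := ps_arcs μ
  refine ⟨C * (N : ℝ) ^ (2 / 3 : ℝ) + C + C * N + N, by positivity, ?_⟩
  intro ι _ g Q hg hT hQ
  let M : ℝ := (∑ p ∈ Q, |p.1|) + 1
  have hM : ∀ p ∈ Q, |p.1| < M := by
    intro p hp
    have := Finset.single_le_sum (f := fun p : ℝ × ℝ => |p.1|) (fun q _ => abs_nonneg _) hp
    have h2 : |p.1| ≤ ∑ p ∈ Q, |p.1| := this
    have : M = (∑ p ∈ Q, |p.1|) + 1 := rfl
    linarith
  have hdec := fun i => hN (g i) (hg i).1 (hg i).2.1 (hg i).2.2 M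
  choose a b φ E hE1 hE2 hE3 hE4 hE5 using hdec
  let a' : ι × Fin N → ℝ := fun z => a z.1 z.2
  let b' : ι × Fin N → ℝ := fun z => b z.1 z.2
  let f' : ι × Fin N → ℝ → ℝ := fun z => φ z.1 z.2
  -- an arc through `p` lies on a curve through `p`
  have hthr : ∀ (p : ℝ × ℝ) (z : ι × Fin N), z ∈ thrA a' b' f' p →
      (a z.1 z.2 < p.1 ∧ p.1 < b z.1 z.2) ∧ φ z.1 z.2 p.1 = p.2 := by
    intro p z hz
    rw [thrA, Finset.mem_filter] at hz
    exact hz.2
  have hthrZ : ∀ (p : ℝ × ℝ) (z : ι × Fin N), z ∈ thrA a' b' f' p → p ∈ Zs (g z.1) := by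
    intro p z hz
    obtain ⟨h1, h2⟩ := hthr p z hz
    have := hE3 z.1 z.2 p.1 h1
    rw [h2] at this
    exact this
  have hthrI : ∀ (p : ℝ × ℝ) (z w : ι × Fin N), z ∈ thrA a' b' f' p → w ∈ thrA a' b' f' p →
      z.1 = w.1 → z = w := by
    intro p z w hz hw hzw
    obtain ⟨h1, h2⟩ := hthr p z hz
    obtain ⟨h3, h4⟩ := hthr p w hw
    refine Prod.ext hzw ?_
    by_contra hne
    rw [← hzw] at h3 h4
    exact hE4 z.1 z.2 w.2 hne p.1 h1 h3 (by rw [h2, h4])
  have hmain := hC (ι × Fin N) a' b' f' Q (fun z => hE2 z.1 z.2) ?_ ?_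
  · -- the final computation
    have hpt : ∀ p ∈ Q, (univ.filter fun i => p ∈ Zs (g i)).card ≤
        (thrA a' b' f' p).card + (univ.filter fun i => p ∈ E i).card := by
      intro p hp
      have hsub : (univ.filter fun i => p ∈ Zs (g i)) ⊆
          (thrA a' b' f' p).image Prod.fst ∪ (univ.filter fun i => p ∈ E i) := by
        intro i hi
        rw [Finset.mem_filter] at hi
        rw [Finset.mem_union]
        by_cases hpE : p ∈ E i
        · right
          rw [Finset.mem_filter]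
          exact ⟨Finset.mem_univ _, hpE⟩
        · left
          obtain ⟨j, hj1, hj2⟩ := hE5 i p hi.2 (hM p hp) hpE
          rw [Finset.mem_image]
          refine ⟨(i, j), ?_, rfl⟩
          rw [thrA, Finset.mem_filter]
          exact ⟨Finset.mem_univ _, hj1, hj2⟩
      refine le_trans (Finset.card_le_card hsub) (le_trans (Finset.card_union_le _ _) ?_)
      exact Nat.add_le_add_right Finset.card_image_le _
    have hE : ∑ p ∈ Q, (univ.filter fun i => p ∈ E i).card ≤ N * Fintype.card ι := by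
      have h1 : ∑ p ∈ Q, (univ.filter fun i => p ∈ E i).card =
          ∑ i : ι, (Q.filter fun p => p ∈ E i).card :=
        Finset.sum_card_bipartiteAbove_eq_sum_card_bipartiteBelow (fun p i => p ∈ E i)
      rw [h1]
      have h2 : ∀ i ∈ (univ : Finset ι), (Q.filter fun p => p ∈ E i).card ≤ N := by
        intro i _
        refine le_trans (Finset.card_le_card ?_) (hE1 i)
        intro p hp
        exact (Finset.mem_filter.mp hp).2
      refine le_trans (Finset.sum_le_card_nsmul _ _ _ h2) ?_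
      rw [smul_eq_mul, Finset.card_univ, mul_comm]
    have hsum : ∑ p ∈ Q, (univ.filter fun i => p ∈ Zs (g i)).card ≤
        (∑ p ∈ Q, (thrA a' b' f' p).card) + N * Fintype.card ι := by
      refine le_trans (Finset.sum_le_sum hpt) ?_
      rw [Finset.sum_add_distrib]
      exact Nat.add_le_add_left hE _
    have hsum' : ((∑ p ∈ Q, (univ.filter fun i => p ∈ Zs (g i)).card : ℕ) : ℝ) ≤
        ((∑ p ∈ Q, (thrA a' b' f' p).card : ℕ) : ℝ) + N * Fintype.card ι := by
      exact_mod_cast hsum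
    have hcard : (Fintype.card (ι × Fin N) : ℝ) = (Fintype.card ι : ℝ) * N := by
      rw [Fintype.card_prod, Fintype.card_fin]
      push_cast
      ring
    rw [hcard, Real.mul_rpow (Nat.cast_nonneg _) (Nat.cast_nonneg _)] at hmain
    have hA : 0 ≤ (Q.card : ℝ) ^ (2 / 3 : ℝ) * (Fintype.card ι : ℝ) ^ (2 / 3 : ℝ) := by
      positivity
    have hN' : 0 ≤ (N : ℝ) ^ (2 / 3 : ℝ) := by positivity
    have hq : 0 ≤ (Q.card : ℝ) := Nat.cast_nonneg _
    have hm : 0 ≤ (Fintype.card ι : ℝ) := Nat.cast_nonneg _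
    have hNN : 0 ≤ (N : ℝ) := Nat.cast_nonneg _
    refine le_trans hsum' (le_trans (add_le_add_left hmain _) ?_)
    set A : ℝ := (Q.card : ℝ) ^ (2 / 3 : ℝ) with hAdef
    set B : ℝ := (Fintype.card ι : ℝ) ^ (2 / 3 : ℝ) with hBdef
    set K : ℝ := (N : ℝ) ^ (2 / 3 : ℝ) with hKdef
    set q : ℝ := (Q.card : ℝ) with hqdef
    set m : ℝ := (Fintype.card ι : ℝ) with hmdef
    set n : ℝ := (N : ℝ) with hndef
    have e : (C * K + C + C * n + n) * (A * B + q + m) -
        (C * (A * (B * K) + q + m * n) + n * m) =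
        (C + C * n + n) * (A * B) + (C * K + C * n + n) * q + (C * K + C) * m := by
      ring
    have t1 : 0 ≤ (C + C * n + n) * (A * B) := by positivity
    have t2 : 0 ≤ (C * K + C * n + n) * q := by positivity
    have t3 : 0 ≤ (C * K + C) * m := by positivity
    linarith
  · -- intersections of two arcs
    intro z w hzw
    by_cases h : z.1 = w.1
    · refine ⟨∅, by simp, ?_⟩
      intro x hx hx' hxx
      exfalso
      have hne : z.2 ≠ w.2 := fun h' => hzw (Prod.ext h h')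
      have hx2 : x ∈ Set.Ioo (a z.1 w.2) (b z.1 w.2) := by
        rw [h]
        exact hx'
      refine hE4 z.1 z.2 w.2 hne x hx hx2 ?_
      have : φ z.1 z.2 x = φ w.1 w.2 x := hxx
      rw [this, h]
    · obtain ⟨T, hT1, hT2⟩ := hT z.1 w.1 h
      refine ⟨T.image Prod.fst, le_trans Finset.card_image_le hT1, ?_⟩
      intro x hx hx' hxx
      have h1 : (x, φ z.1 z.2 x) ∈ Zs (g z.1) := hE3 z.1 z.2 x hx
      have h2 : (x, φ w.1 w.2 x) ∈ Zs (g w.1) := hE3 w.1 w.2 x hx'
      have h3 : φ z.1 z.2 x = φ w.1 w.2 x := hxx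
      rw [← h3] at h2
      have h4 := hT2 ⟨h1, h2⟩
      exact Finset.mem_image.mpr ⟨_, h4, rfl⟩
  · -- two points
    intro p hp q hq hpq
    refine le_trans (Finset.card_le_card_of_injOn Prod.fst ?_ ?_) (hQ p hp q hq hpq)
    · intro z hz
      rw [Finset.mem_coe] at hz
      replace hz := (@Finset.mem_inter _ (fun a b => Classical.propDecidable (a = b)) _ _ _).mp hz
      rw [Finset.mem_coe, Finset.mem_filter]
      exact ⟨Finset.mem_univ _, hthrZ p z hz.1, hthrZ q z hz.2⟩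
    · intro z hz w hw hzw
      rw [Finset.mem_coe] at hz hw
      replace hz := (@Finset.mem_inter _ (fun a b => Classical.propDecidable (a = b)) _ _ _).mp hz
      replace hw := (@Finset.mem_inter _ (fun a b => Classical.propDecidable (a = b)) _ _ _).mp hw
      exact hthrI p z w hz.1 hw.1 hzw

end Pool.Agent.H22.PS
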