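import Mathlib

/-!
# A sequence of times adapted to a finite set of events

Let `e_0 < ... < e_(N-1)` be the elements of `E` (`Finset.orderEmbOfFin`). There is a strictly
increasing sequence `X` with `X (2r+1) = e_r` for `r < N`. Construction by induction on `N`,
adding the maximal element.
-/

namespace Pool.Agent.H22.PS

open Finset

private theorem times_aux (E : Finset ℝ) : ∀ m : ℝ, (∀ e ∈ E, e < m) → ∃ X : ℕ → ℝ, StrictMono X ∧
    (∀ e ∈ E, ∃ r < E.card, X (2 * r + 1) = e) ∧ ∀ τ, X τ < m := by
  induction E using Finset.induction_on_max with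
  | empty =>
    intro m _
    refine ⟨fun τ => m - 1 / ((τ : ℝ) + 1), ?_, ?_, ?_⟩
    · apply strictMono_nat_of_lt_succ
      intro n
      have h1 : (1 : ℝ) / (((n + 1 : ℕ) : ℝ) + 1) < 1 / ((n : ℝ) + 1) := by
        apply one_div_lt_one_div_of_lt
        · positivity
        · push_cast
          linarith
      change m - 1 / ((n : ℝ) + 1) < m - 1 / (((n + 1 : ℕ) : ℝ) + 1)
      linarith
    · intro e he
      exact absurd he (Finset.notMem_empty e)
    · intro τ
      have h1 : (0 : ℝ) < 1 / ((τ : ℝ) + 1) := by positivity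
      change m - 1 / ((τ : ℝ) + 1) < m
      linarith
  | insert a E ha ih =>
    intro m hm
    obtain ⟨X, hX, hE, hb⟩ := ih a ha
    have haE : a ∉ E := fun h => lt_irrefl _ (ha a h)
    have ham : a < m := hm a (Finset.mem_insert_self _ _)
    have hval : ∀ τ : ℕ, 2 * E.card < τ → (1 : ℝ) ≤ (τ : ℝ) - 2 * E.card := by
      intro τ hτ
      have : ((2 * E.card + 1 : ℕ) : ℝ) ≤ (τ : ℝ) := by exact_mod_cast hτ
      push_cast at this
      linarith
    refine ⟨fun τ => if τ ≤ 2 * E.card then X τ else m - (m - a) / ((τ : ℝ) - 2 * E.card),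
      ?_, ?_, ?_⟩
    · apply strictMono_nat_of_lt_succ
      intro n
      change (if n ≤ 2 * E.card then X n else m - (m - a) / ((n : ℝ) - 2 * E.card)) <
        (if n + 1 ≤ 2 * E.card then X (n + 1) else
          m - (m - a) / (((n + 1 : ℕ) : ℝ) - 2 * E.card))
      by_cases h1 : n + 1 ≤ 2 * E.card
      · rw [if_pos h1, if_pos (by omega)]
        exact hX (Nat.lt_succ_self n)
      · rw [if_neg h1]
        by_cases h2 : n ≤ 2 * E.card
        · rw [if_pos h2]
          have h3 : n = 2 * E.card := by omega
          have h4 : (((n + 1 : ℕ) : ℝ) - 2 * E.card) = 1 := by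
            rw [h3]
            push_cast
            ring
          rw [h4, div_one]
          have := hb n
          linarith
        · rw [if_neg h2]
          have h3 := hval n (by omega)
          have h4 : (m - a) / (((n + 1 : ℕ) : ℝ) - 2 * E.card) < (m - a) / ((n : ℝ) - 2 * E.card) := by
            apply div_lt_div_of_pos_left (by linarith) (by linarith)
            push_cast
            linarith
          linarith
    · intro e he
      rcases Finset.mem_insert.1 he with rfl | he
      · refine ⟨E.card, ?_, ?_⟩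
        · rw [Finset.card_insert_of_notMem haE]
          exact Nat.lt_succ_self _
        · change (if 2 * E.card + 1 ≤ 2 * E.card then X (2 * E.card + 1) else
            m - (m - e) / (((2 * E.card + 1 : ℕ) : ℝ) - 2 * E.card)) = e
          rw [if_neg (by omega)]
          have h4 : (((2 * E.card + 1 : ℕ) : ℝ) - 2 * E.card) = 1 := by
            push_cast
            ring
          rw [h4, div_one]
          ring
      · obtain ⟨r, hr, h⟩ := hE e he
        refine ⟨r, ?_, ?_⟩
        · rw [Finset.card_insert_of_notMem haE]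
          omega
        · change (if 2 * r + 1 ≤ 2 * E.card then X (2 * r + 1) else _) = e
          rw [if_pos (by omega), h]
    · intro τ
      change (if τ ≤ 2 * E.card then X τ else m - (m - a) / ((τ : ℝ) - 2 * E.card)) < m
      by_cases h1 : τ ≤ 2 * E.card
      · rw [if_pos h1]
        exact (hb τ).trans ham
      · rw [if_neg h1]
        have h3 := hval τ (by omega)
        have h4 : 0 < (m - a) / ((τ : ℝ) - 2 * E.card) := div_pos (by linarith) (by linarith)
        linarith

theorem times (E : Finset ℝ) : ∃ X : ℕ → ℝ, StrictMono X ∧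
    (∀ e ∈ E, ∃ r < E.card, X (2 * r + 1) = e) ∧ (∀ τ, X τ ∈ E → Odd τ) ∧
    (∀ τ x, X τ < x → x < X (τ + 1) → x ∉ E) := by
  obtain ⟨b, hb⟩ := E.bddAbove
  obtain ⟨X, hX, hE, -⟩ := times_aux E (b + 1) fun e he => by
    have := hb (Finset.mem_coe.2 he)
    linarith
  refine ⟨X, hX, hE, ?_, ?_⟩
  · intro τ hτ
    obtain ⟨r, -, h⟩ := hE _ hτ
    exact ⟨r, (hX.injective h).symm⟩
  · intro τ x h1 h2 hx
    obtain ⟨r, -, h⟩ := hE x hx
    rw [← h] at h1 h2
    have h3 := hX.lt_iff_lt.1 h1
    have h4 := hX.lt_iff_lt.1 h2
    omega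

end Pool.Agent.H22.PS
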