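import Pool.Agent.H22.PS.Comb
import Pool.Agent.H22.PS.Times

/-!
# Pach-Sharir theorem for arcs

Let `E` be the finite set of all `a i`, `b i`, all `x` in the finite sets of the hypothesis, and
all `p.1`, `p ∈ Q`. Take the sequence `X` of `times E`: `a i = X (A i)`, `b i = X (B i)` with
`A i`, `B i` odd, `v τ i = f i (X τ)`. Crossings without a tie are excluded by the intermediate
value theorem.
-/

namespace Pool.Agent.H22.PS

open Finset
open scoped Classical

/-- arcs through the point `p` -/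
noncomputable def thrA {ι : Type} [Fintype ι] (a b : ι → ℝ) (f : ι → ℝ → ℝ) (p : ℝ × ℝ) :
    Finset ι := univ.filter fun i => (a i < p.1 ∧ p.1 < b i) ∧ f i p.1 = p.2

theorem ps_arcs (μ : ℕ) : ∃ C : ℝ, 0 ≤ C ∧ ∀ (ι : Type) [Fintype ι] (a b : ι → ℝ)
    (f : ι → ℝ → ℝ) (Q : Finset (ℝ × ℝ)),
    (∀ i, ContinuousOn (f i) (Set.Ioo (a i) (b i))) →
    (∀ i j, i ≠ j → ∃ X : Finset ℝ, X.card ≤ μ ∧ ∀ x ∈ Set.Ioo (a i) (b i),
      x ∈ Set.Ioo (a j) (b j) → f i x = f j x → x ∈ X) →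
    (∀ p ∈ Q, ∀ q ∈ Q, p ≠ q → (thrA a b f p ∩ thrA a b f q).card ≤ μ) →
    ((∑ p ∈ Q, (thrA a b f p).card : ℕ) : ℝ) ≤
      C * ((Q.card : ℝ) ^ (2 / 3 : ℝ) * (Fintype.card ι : ℝ) ^ (2 / 3 : ℝ) + Q.card +
        Fintype.card ι) := by
  obtain ⟨C, hC0, hC⟩ := comb μ
  refine ⟨C, hC0, ?_⟩
  intro ι _ a b f Q hcont htie hdeg
  -- the finite sets of ties
  have htie' : ∀ i j, ∃ X : Finset ℝ, i ≠ j → (X.card ≤ μ ∧ ∀ x ∈ Set.Ioo (a i) (b i),
      x ∈ Set.Ioo (a j) (b j) → f i x = f j x → x ∈ X) := by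
    intro i j
    by_cases h : i = j
    · exact ⟨∅, fun h' => absurd h h'⟩
    · obtain ⟨X, hX⟩ := htie i j h
      exact ⟨X, fun _ => hX⟩
  choose T hT using htie'
  let E : Finset ℝ := (univ.image a) ∪ (univ.image b) ∪
    (univ.biUnion fun i => univ.biUnion fun j => T i j) ∪ Q.image Prod.fst
  have hEa : ∀ i, a i ∈ E := fun i => by
    simp only [E, mem_union, mem_image, mem_univ, true_and]
    exact Or.inl (Or.inl (Or.inl ⟨i, rfl⟩))
  have hEb : ∀ i, b i ∈ E := fun i => by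
    simp only [E, mem_union, mem_image, mem_univ, true_and]
    exact Or.inl (Or.inl (Or.inr ⟨i, rfl⟩))
  have hET : ∀ i j x, x ∈ T i j → x ∈ E := fun i j x hx => by
    simp only [E, mem_union, mem_image, mem_univ, true_and, mem_biUnion]
    exact Or.inl (Or.inr ⟨i, j, hx⟩)
  have hEQ : ∀ p ∈ Q, p.1 ∈ E := fun p hp => by
    simp only [E, mem_union, mem_image, mem_univ, true_and]
    exact Or.inr ⟨p, hp, rfl⟩
  obtain ⟨X, hmono, hXE, hodd, hgap⟩ := times E
  have hA : ∀ i, ∃ r < E.card, X (2 * r + 1) = a i := fun i => hXE _ (hEa i)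
  have hB : ∀ i, ∃ r < E.card, X (2 * r + 1) = b i := fun i => hXE _ (hEb i)
  choose α hα1 hα2 using hA
  choose β hβ1 hβ2 using hB
  have hactA : ∀ i τ, 2 * α i + 1 < τ ↔ a i < X τ := fun i τ => by
    rw [← hα2 i, hmono.lt_iff_lt]
  have hactB : ∀ i τ, τ < 2 * β i + 1 ↔ X τ < b i := fun i τ => by
    rw [← hβ2 i, hmono.lt_iff_lt]
  let D : Arr ι μ :=
    { A := fun i => 2 * α i + 1
      B := fun i => 2 * β i + 1
      M := 2 * E.card + 1
      hB := fun i => by have := hβ1 i; omega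
      v := fun τ i => f i (X τ)
      cross := by
        intro τ i j hi hj hlt
        by_contra hgt
        rw [not_le] at hgt
        have hij : i ≠ j := by
          rintro rfl
          exact lt_irrefl _ hlt
        have hi1 := (hactA i τ).mp hi.1
        have hi2 := (hactB i (τ + 1)).mp hi.2
        have hj1 := (hactA j τ).mp hj.1
        have hj2 := (hactB j (τ + 1)).mp hj.2
        have hX : X τ ≤ X (τ + 1) := (hmono (Nat.lt_succ_self τ)).le
        have hsi : Set.Icc (X τ) (X (τ + 1)) ⊆ Set.Ioo (a i) (b i) := fun x hx =>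
          ⟨lt_of_lt_of_le hi1 hx.1, lt_of_le_of_lt hx.2 hi2⟩
        have hsj : Set.Icc (X τ) (X (τ + 1)) ⊆ Set.Ioo (a j) (b j) := fun x hx =>
          ⟨lt_of_lt_of_le hj1 hx.1, lt_of_le_of_lt hx.2 hj2⟩
        have hc : ContinuousOn (fun x => f j x - f i x) (Set.Icc (X τ) (X (τ + 1))) :=
          ((hcont j).mono hsj).sub ((hcont i).mono hsi)
        have hiv := intermediate_value_Ioo' hX hc
        have h0 : (0 : ℝ) ∈ Set.Ioo (f j (X (τ + 1)) - f i (X (τ + 1)))
            (f j (X τ) - f i (X τ)) := by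
          constructor
          · exact sub_neg.mpr hgt
          · exact sub_pos.mpr hlt
        obtain ⟨x, hx, hx0⟩ := hiv h0
        have hx' : x ∈ Set.Icc (X τ) (X (τ + 1)) := ⟨hx.1.le, hx.2.le⟩
        have hfx : f i x = f j x := by
          have : f j x - f i x = 0 := hx0
          linarith
        have hxT := (hT i j hij).2 x (hsi hx') (hsj hx') hfx
        exact hgap τ x hx.1 hx.2 (hET i j x hxT)
      tie := by
        intro i j hij
        refine le_trans (Finset.card_le_card_of_injOn (t := T i j) X ?_ ?_) (hT i j hij).1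
        · intro τ hτ
          rw [Finset.mem_coe, Finset.mem_filter] at hτ
          obtain ⟨-, h1, h2, h3⟩ := hτ
          exact (hT i j hij).2 _ ⟨(hactA i τ).mp h1.1, (hactB i τ).mp h1.2⟩
            ⟨(hactA j τ).mp h2.1, (hactB j τ).mp h2.2⟩ h3
        · intro τ _ τ' _ h
          exact hmono.injective h
      gen := by
        intro τ hτ i j hij h1 h2 h3
        have := (hT i j hij).2 _ ⟨(hactA i τ).mp h1.1, (hactB i τ).mp h1.2⟩
            ⟨(hactA j τ).mp h2.1, (hactB j τ).mp h2.2⟩ h3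
        have hτ' := hodd τ (hET i j _ this)
        exact (Nat.not_even_iff_odd.mpr hτ') hτ }
  have hQ : ∀ p ∈ Q, ∃ r, X (2 * r + 1) = p.1 := by
    intro p hp
    obtain ⟨r, -, hr⟩ := hXE _ (hEQ p hp)
    exact ⟨r, hr⟩
  choose! ρ hρ using hQ
  let φ : ℝ × ℝ → ℕ × ℝ := fun p => (2 * ρ p + 1, p.2)
  have hφ : ∀ p ∈ Q, D.thr (φ p) = thrA a b f p := by
    intro p hp
    ext i
    rw [Arr.thr, thrA, Finset.mem_filter, Finset.mem_filter]
    refine and_congr_right fun _ => ?_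
    have e1 := hactA i (2 * ρ p + 1)
    have e2 := hactB i (2 * ρ p + 1)
    rw [hρ p hp] at e1 e2
    constructor
    · rintro ⟨⟨h1, h2⟩, h3⟩
      refine ⟨⟨e1.mp h1, e2.mp h2⟩, ?_⟩
      have : f i (X (2 * ρ p + 1)) = p.2 := h3
      rwa [hρ p hp] at this
    · rintro ⟨⟨h1, h2⟩, h3⟩
      refine ⟨⟨e1.mpr h1, e2.mpr h2⟩, ?_⟩
      change f i (X (2 * ρ p + 1)) = p.2
      rw [hρ p hp, h3]
  have hinj : Set.InjOn φ Q := by
    intro p hp q hq h
    have h1 : 2 * ρ p + 1 = 2 * ρ q + 1 := congrArg (fun z : ℕ × ℝ => z.1) h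
    have h2 : p.2 = q.2 := congrArg (fun z : ℕ × ℝ => z.2) h
    refine Prod.ext ?_ h2
    rw [← hρ p hp, ← hρ q hq, h1]
  have hmain := hC ι D (Q.image φ) ?_ ?_
  · rw [Finset.sum_image hinj, Finset.card_image_of_injOn hinj] at hmain
    rw [Finset.sum_congr rfl (fun p hp => by rw [hφ p hp])] at hmain
    exact hmain
  · intro q hq
    obtain ⟨p, -, rfl⟩ := Finset.mem_image.mp hq
    exact ⟨ρ p, rfl⟩
  · intro p' hp' q' hq' hne
    obtain ⟨p, hp, rfl⟩ := Finset.mem_image.mp hp'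
    obtain ⟨q, hq, rfl⟩ := Finset.mem_image.mp hq'
    rw [hφ p hp, hφ q hq]
    exact hdeg p hp q hq (fun h => hne (by rw [h]))

end Pool.Agent.H22.PS
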