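import Pool.Agent.H22.PS.Var

/-!
# Choice of the offset of the bands

(1) For `r ≤ r'` the bands `(r + c) / L` and `(r' + c) / L` differ iff there is an integer
`m` with `r < m ≤ r'` and `L ∣ m + c`; for every `m` there is exactly one such `c < L`. So the
number of `c < L` for which the bands differ is at most `r' - r`. (Symmetric in `r`, `r'`.)
An alternative: `∑_{c<L} (r'+c)/L = r'` (Hermite type identity, or induction on `r'`), so
`∑_{c<L} ((r'+c)/L - (r+c)/L) = r' - r` and each non-zero term is at least `1`.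
(2) Sum over `i`, `τ` and use `var`: `∑_{c < L} ∑_i ∑_τ [chg] ≤ (2 μ + 2) n ^ 2`, so for some
`c < L` the inner sum times `L` is at most `(2 μ + 2) n ^ 2`.
-/

namespace Pool.Agent.H22.PS

open Finset
open scoped Classical

variable {ι : Type} [Fintype ι] {μ : ℕ}

private theorem avg_sum (L : ℕ) (hL : 0 < L) (r : ℕ) : ∑ c ∈ range L, (r + c) / L = r := by
  induction r with
  | zero =>
    refine Finset.sum_eq_zero fun c hc => ?_
    rw [Nat.zero_add]
    exact Nat.div_eq_of_lt (Finset.mem_range.1 hc)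
  | succ r ih =>
    have h1 := Finset.sum_range_succ (fun c => (r + c) / L) L
    have h2 := Finset.sum_range_succ' (fun c => (r + c) / L) L
    have h3 : ∑ c ∈ range L, (r + 1 + c) / L = ∑ c ∈ range L, (r + (c + 1)) / L :=
      Finset.sum_congr rfl fun c _ => by
        congr 1
        ring
    have h4 : (r + L) / L = r / L + 1 := Nat.add_div_right r hL
    simp only [Nat.add_zero] at h2
    rw [h3]
    omega

private theorem avg_le (L : ℕ) (hL : 0 < L) {r r' : ℕ} (h : r ≤ r') :
    ∑ c ∈ range L, (if bd L c r ≠ bd L c r' then 1 else 0) ≤ r' - r := by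
  have h1 := avg_sum L hL r
  have h2 := avg_sum L hL r'
  have h3 : ∑ c ∈ range L, (if bd L c r ≠ bd L c r' then 1 else 0) + ∑ c ∈ range L, (r + c) / L
      ≤ ∑ c ∈ range L, (r' + c) / L := by
    rw [← Finset.sum_add_distrib]
    refine Finset.sum_le_sum fun c _ => ?_
    have h4 : (r + c) / L ≤ (r' + c) / L := Nat.div_le_div_right (by omega)
    unfold bd
    split_ifs with h5
    · omega
    · omega
  omega

theorem dist_avg (L : ℕ) (hL : 0 < L) (r r' : ℕ) :
    ∑ c ∈ range L, (if bd L c r ≠ bd L c r' then 1 else 0) ≤ Nat.dist r r' := by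
  rcases le_total r r' with h | h
  · rw [Nat.dist_eq_sub_of_le h]
    exact avg_le L hL h
  · rw [Nat.dist_comm, Nat.dist_eq_sub_of_le h]
    refine le_trans (le_of_eq ?_) (avg_le L hL h)
    refine Finset.sum_congr rfl fun c _ => ?_
    simp only [ne_comm]

theorem exists_offset (D : Arr ι μ) (L : ℕ) (hL : 0 < L) :
    ∃ c < L, L * ∑ i, ∑ τ ∈ range D.M, (if D.chg L c τ i then 1 else 0) ≤
      (2 * μ + 2) * Fintype.card ι ^ 2 := by
  by_contra hcon
  push Not at hcon
  have h1 : ∑ c ∈ range L, ∑ i, ∑ τ ∈ range D.M, (if D.chg L c τ i then 1 else 0) ≤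
      (2 * μ + 2) * Fintype.card ι ^ 2 := by
    rw [Finset.sum_comm]
    have h2 : ∀ i : ι, ∑ c ∈ range L, ∑ τ ∈ range D.M, (if D.chg L c τ i then 1 else 0) ≤
        (2 * μ + 2) * Fintype.card ι := by
      intro i
      rw [Finset.sum_comm]
      refine le_trans (Finset.sum_le_sum fun τ _ => ?_) (var D i)
      by_cases h : D.act τ i ∧ D.act (τ + 1) i
      · rw [if_pos h]
        refine le_trans (Finset.sum_le_sum fun c _ => ?_) (dist_avg L hL (D.rk τ i) (D.rk (τ + 1) i))
        unfold Arr.chg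
        by_cases h3 : bd L c (D.rk τ i) ≠ bd L c (D.rk (τ + 1) i)
        · rw [if_pos h3]
          split_ifs <;> simp
        · rw [if_neg h3, if_neg (fun h4 => h3 h4.2.2)]
      · rw [if_neg h]
        refine le_of_eq (Finset.sum_eq_zero fun c _ => ?_)
        unfold Arr.chg
        rw [if_neg (fun h4 => h ⟨h4.1, h4.2.1⟩)]
    refine le_trans (Finset.sum_le_sum fun i _ => h2 i) ?_
    rw [Finset.sum_const, Finset.card_univ, smul_eq_mul]
    refine le_of_eq ?_
    ring
  have h5 : ∑ c ∈ range L, ((2 * μ + 2) * Fintype.card ι ^ 2) <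
      ∑ c ∈ range L, L * ∑ i, ∑ τ ∈ range D.M, (if D.chg L c τ i then 1 else 0) :=
    Finset.sum_lt_sum_of_nonempty (Finset.nonempty_range_iff.2 hL.ne')
      fun c hc => hcon c (Finset.mem_range.1 hc)
  rw [Finset.sum_const, Finset.card_range, smul_eq_mul, ← Finset.mul_sum] at h5
  exact absurd h5 (not_lt.2 (Nat.mul_le_mul_left L h1))

end Pool.Agent.H22.PS
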