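import Pool.Agent.H22.PS.Defs
import Pool.Agent.H19.RD.Grid

/-!
# Critical abscissas of a plane curve

Available: `H19.RD.bez_pts` (Bezout), `H19.RD.pderiv_deg`, `H19.RD.hasDerivAt_line`,
`H19.RD.cont_eval`, `H19.RD.eval_line` (the polynomial `aeval ![C x, X] f` in `y`),
`H19.RD.deg_le_of_dvd`, `H19.RD.const_of_pderiv`.

(1) `roots_bdd`: the coefficients `c_j` of `y ^ j` of `f` are polynomials in `x` of degree `≤ k`
(e.g. through `MvPolynomial.finSuccEquiv` after swapping the variables, or directly: the `j`-th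
coefficient of `aeval ![C x, X] f` is `∑ d with d 1 = j, coeff d f * x ^ (d 0)`). Let `J` be the
largest `j` with `c_j ≠ 0` (exists since `f ≠ 0`), and `Z` the set of real roots of `c_J`, at most
`k` of them. If `x0 ∉ Z`, then near `x0` `|c_J| ≥ ε > 0` and `|c_j| ≤ R0` for `j < J`, so every
root `y` of `f (x, .)` has `|y| ≤ 1 + (J R0) / ε` or similar.
(2) `crit`: common zeros of `f` and `pderiv 1 f`: `f` irreducible, `pderiv 1 f ≠ 0` of smaller
degree, so `f` does not divide it and they are relatively prime: at most `k * k` common zeros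
(`bez_pts`). Take the abscissas.
(3) `fib`: `f` does not divide a multiple of `X 0 - C x` ... : `IsRelPrime f (X 0 - C x)`, since
otherwise `f` is associated to `X 0 - C x` and `pderiv 1 f = 0`; so there are at most `k * 1`
common zeros.
-/

namespace Pool.Agent.H22.PS

open Finset MvPolynomial
open scoped Classical

/-- the coefficient of `y ^ j` of `f`, a polynomial in `x` -/
private noncomputable def Bd_c (f : MvPolynomial (Fin 2) ℝ) (j : ℕ) : Polynomial ℝ :=
  ∑ d ∈ f.support.filter (fun d => d 1 = j), Polynomial.C (coeff d f) * Polynomial.X ^ (d 0)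

private lemma Bd_le (k : ℕ) (f : MvPolynomial (Fin 2) ℝ) (hk : f.totalDegree ≤ k)
    (d : Fin 2 →₀ ℕ) (hd : d ∈ f.support) : d 0 ≤ k ∧ d 1 ≤ k := by
  have h1 : (d.sum fun _ e => e) ≤ f.totalDegree := le_totalDegree hd
  rw [Finsupp.sum_fintype _ _ (fun _ => rfl), Fin.sum_univ_two] at h1
  omega

private lemma Bd_eval (k : ℕ) (f : MvPolynomial (Fin 2) ℝ) (hk : f.totalDegree ≤ k) (x y : ℝ) :
    eval ![x, y] f = ∑ j ∈ range (k + 1), (Bd_c f j).eval x * y ^ j := by
  have h1 : eval ![x, y] f = ∑ d ∈ f.support, coeff d f * x ^ (d 0) * y ^ (d 1) := by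
    rw [eval_eq']
    refine Finset.sum_congr rfl fun d _ => ?_
    rw [Fin.prod_univ_two]
    simp [mul_assoc]
  rw [h1, ← Finset.sum_fiberwise_of_maps_to (s := f.support) (t := range (k + 1))
    (g := fun d => d 1) (fun d hd => by
      have := (Bd_le k f hk d hd).2
      simp only [Finset.mem_range]
      omega)]
  refine Finset.sum_congr rfl fun j _ => ?_
  rw [Bd_c, Polynomial.eval_finsetSum, Finset.sum_mul]
  refine Finset.sum_congr rfl fun d hd => ?_
  rw [Finset.mem_filter] at hd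
  rw [hd.2]
  simp

private lemma Bd_coeff (f : MvPolynomial (Fin 2) ℝ) (d : Fin 2 →₀ ℕ) (hd : d ∈ f.support) :
    (Bd_c f (d 1)).coeff (d 0) = coeff d f := by
  rw [Bd_c, Polynomial.finsetSum_coeff, Finset.sum_eq_single d]
  · simp
  · intro e he hed
    rw [Finset.mem_filter] at he
    rw [Polynomial.coeff_C_mul, Polynomial.coeff_X_pow, if_neg, mul_zero]
    intro h0
    apply hed
    ext i
    fin_cases i
    · exact h0.symm
    · exact he.2
  · intro h
    exact absurd (Finset.mem_filter.2 ⟨hd, rfl⟩ : d ∈ f.support.filter (fun e => e 1 = d 1)) h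

private lemma Bd_deg (k : ℕ) (f : MvPolynomial (Fin 2) ℝ) (hk : f.totalDegree ≤ k) (j : ℕ) :
    (Bd_c f j).natDegree ≤ k := by
  rw [Bd_c]
  refine Polynomial.natDegree_sum_le_of_forall_le _ _ fun d hd => ?_
  rw [Finset.mem_filter] at hd
  exact (Polynomial.natDegree_C_mul_X_pow_le _ _).trans (Bd_le k f hk d hd.1).1

private lemma Bd_zero (k : ℕ) (f : MvPolynomial (Fin 2) ℝ) (hk : f.totalDegree ≤ k) (j : ℕ)
    (hj : k < j) : Bd_c f j = 0 := by
  rw [Bd_c]
  refine Finset.sum_eq_zero fun d hd => ?_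
  rw [Finset.mem_filter] at hd
  have := (Bd_le k f hk d hd.1).2
  omega

/-- a root `y` of a polynomial with leading coefficient `a J ≠ 0` -/
private lemma Bd_root (J : ℕ) (a : ℕ → ℝ) (ha : a J ≠ 0) (y : ℝ)
    (h : ∑ j ∈ range (J + 1), a j * y ^ j = 0) :
    |y| ≤ 1 + (∑ j ∈ range J, |a j|) / |a J| := by
  have hpos : 0 < |a J| := abs_pos.2 ha
  have hS : 0 ≤ ∑ j ∈ range J, |a j| := Finset.sum_nonneg fun j _ => abs_nonneg _
  by_cases hy : |y| ≤ 1
  · have : 0 ≤ (∑ j ∈ range J, |a j|) / |a J| := div_nonneg hS hpos.le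
    linarith
  push Not at hy
  rw [Finset.sum_range_succ] at h
  have h1 : |a J| * |y| ^ J = |∑ j ∈ range J, a j * y ^ j| := by
    rw [← abs_pow, ← abs_mul, ← abs_neg]
    congr 1
    linarith
  rcases Nat.eq_zero_or_pos J with hJ | hJ
  · subst hJ
    simp at h
    exact absurd h ha
  obtain ⟨m, rfl⟩ : ∃ m, J = m + 1 := ⟨J - 1, by omega⟩
  have h2 : |∑ j ∈ range (m + 1), a j * y ^ j| ≤ (∑ j ∈ range (m + 1), |a j|) * |y| ^ m := by
    refine (Finset.abs_sum_le_sum_abs _ _).trans ?_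
    rw [Finset.sum_mul]
    refine Finset.sum_le_sum fun j hj => ?_
    rw [abs_mul, abs_pow]
    rw [Finset.mem_range] at hj
    exact mul_le_mul_of_nonneg_left (pow_le_pow_right₀ hy.le (by omega)) (abs_nonneg _)
  rw [← h1, pow_succ, ← mul_assoc, mul_right_comm] at h2
  have h3 : |a (m + 1)| * |y| ≤ ∑ j ∈ range (m + 1), |a j| :=
    le_of_mul_le_mul_right h2 (pow_pos (by linarith) m)
  have h4 : |y| ≤ (∑ j ∈ range (m + 1), |a j|) / |a (m + 1)| := by
    rw [le_div_iff₀ hpos]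
    linarith
  linarith

theorem roots_bdd (k : ℕ) (f : MvPolynomial (Fin 2) ℝ) (hf : f ≠ 0) (hk : f.totalDegree ≤ k) :
    ∃ Z : Finset ℝ, Z.card ≤ k ∧ ∀ x0 : ℝ, x0 ∉ Z → ∃ δ > 0, ∃ R : ℝ, ∀ x, |x - x0| < δ →
      ∀ y, eval ![x, y] f = 0 → |y| ≤ R := by
  obtain ⟨d, hd⟩ : ∃ d, d ∈ f.support := by
    by_contra hcon
    push Not at hcon
    exact hf (MvPolynomial.support_eq_empty.1 (Finset.eq_empty_of_forall_notMem hcon))
  have hne : Bd_c f (d 1) ≠ 0 := by
    intro h0
    have h1 := Bd_coeff f d hd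
    rw [h0, Polynomial.coeff_zero] at h1
    exact (MvPolynomial.mem_support_iff.1 hd) h1.symm
  set J := Nat.findGreatest (fun j => Bd_c f j ≠ 0) k with hJ
  have hJk : J ≤ k := Nat.findGreatest_le k
  have hJne : Bd_c f J ≠ 0 :=
    Nat.findGreatest_spec (P := fun j => Bd_c f j ≠ 0) (Bd_le k f hk d hd).2 hne
  have hJgt : ∀ j, J < j → Bd_c f j = 0 := by
    intro j hj
    by_cases hjk : j ≤ k
    · by_contra h0
      exact Nat.findGreatest_is_greatest (P := fun j => Bd_c f j ≠ 0) hj hjk h0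
    · exact Bd_zero k f hk j (by omega)
  have hev : ∀ x y : ℝ, eval ![x, y] f = ∑ j ∈ range (J + 1), (Bd_c f j).eval x * y ^ j := by
    intro x y
    rw [Bd_eval k f hk x y]
    refine (Finset.sum_subset (Finset.range_subset_range.2 (by omega)) ?_).symm
    intro j _ hj
    rw [Finset.mem_range] at hj
    rw [hJgt j (by omega)]
    simp
  refine ⟨(Bd_c f J).roots.toFinset, ?_, ?_⟩
  · exact (Multiset.toFinset_card_le _).trans
      ((Polynomial.card_roots' _).trans (Bd_deg k f hk J))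
  intro x0 hx0
  have h0 : (Bd_c f J).eval x0 ≠ 0 := by
    intro h0
    apply hx0
    rw [Multiset.mem_toFinset, Polynomial.mem_roots hJne]
    exact h0
  have hc : ContinuousAt (fun x => 1 + (∑ j ∈ range J, |(Bd_c f j).eval x|) /
      |(Bd_c f J).eval x|) x0 := by
    have hj : ∀ j, Continuous fun x => |(Bd_c f j).eval x| := fun j =>
      (Polynomial.continuous _).abs
    refine continuousAt_const.add (ContinuousAt.div ?_ (hj J).continuousAt (abs_ne_zero.2 h0))
    exact (continuous_finsetSum _ fun j _ => hj j).continuousAt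
  have hc2 : ContinuousAt (fun x => (Bd_c f J).eval x) x0 := (Polynomial.continuous _).continuousAt
  have e1 := hc.eventually (gt_mem_nhds (lt_add_one _))
  have e2 := hc2.eventually (isOpen_ne.mem_nhds h0)
  obtain ⟨δ, hδ, hb⟩ := Metric.eventually_nhds_iff.1 (e1.and e2)
  refine ⟨δ, hδ, (1 + (∑ j ∈ range J, |(Bd_c f j).eval x0|) / |(Bd_c f J).eval x0|) + 1,
    fun x hx y hy => ?_⟩
  obtain ⟨h1, h2⟩ := hb (y := x) (by rw [Real.dist_eq]; exact hx)
  rw [hev] at hy
  exact (Bd_root J (fun j => (Bd_c f j).eval x) h2 y hy).trans h1.le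

private lemma Bd_fin (P Q : MvPolynomial (Fin 2) ℝ) (hP : P ≠ 0) (hQ : Q ≠ 0)
    (h : IsRelPrime P Q) (n : ℕ) (hn : P.totalDegree * Q.totalDegree ≤ n) :
    ∃ T : Finset (Fin 2 → ℝ), T.card ≤ n ∧ ∀ t, t ∈ T ↔ eval t P = 0 ∧ eval t Q = 0 := by
  have hfin : {t : Fin 2 → ℝ | eval t P = 0 ∧ eval t Q = 0}.Finite := by
    by_contra hinf
    obtain ⟨T, hT1, hT2⟩ := Set.Infinite.exists_subset_card_eq hinf (n + 1)
    have := H19.RD.bez_pts P Q hP hQ h T (fun t ht => hT1 ht)
    omega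
  refine ⟨hfin.toFinset, ?_, fun t => by rw [Set.Finite.mem_toFinset]; rfl⟩
  refine (H19.RD.bez_pts P Q hP hQ h _ fun t ht => ?_).trans hn
  rw [Set.Finite.mem_toFinset] at ht
  exact ht

theorem crit (k : ℕ) (f : MvPolynomial (Fin 2) ℝ) (hf : Irreducible f) (hk : f.totalDegree ≤ k)
    (h1 : pderiv 1 f ≠ 0) :
    ∃ Z : Finset ℝ, Z.card ≤ k * k ∧ ∀ x y : ℝ, eval ![x, y] f = 0 →
      eval ![x, y] (pderiv 1 f) = 0 → x ∈ Z := by
  have hdeg := H19.RD.pderiv_deg f 1
  have hirr := H19.RD.irr_deg f hf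
  have hrel : IsRelPrime f (pderiv 1 f) := by
    refine (hf.dvd_or_isRelPrime).resolve_left fun hd => ?_
    have := H19.RD.deg_le_of_dvd f (pderiv 1 f) h1 hd
    omega
  obtain ⟨T, hT, hmem⟩ := Bd_fin f (pderiv 1 f) hf.ne_zero h1 hrel (k * k)
    (Nat.mul_le_mul hk (by omega))
  refine ⟨T.image fun t => t 0, Finset.card_image_le.trans hT, fun x y hx hy => ?_⟩
  rw [Finset.mem_image]
  exact ⟨![x, y], (hmem _).2 ⟨hx, hy⟩, by simp⟩

theorem fib (k : ℕ) (f : MvPolynomial (Fin 2) ℝ) (hf : Irreducible f) (hk : f.totalDegree ≤ k)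
    (h1 : pderiv 1 f ≠ 0) (x : ℝ) :
    ∃ Y : Finset ℝ, Y.card ≤ k ∧ ∀ y, y ∈ Y ↔ eval ![x, y] f = 0 := by
  have hlin := H19.RD.lin_ne 0 x
  have hirr := H19.RD.irr_deg f hf
  have hrel : IsRelPrime f (X 0 - C x) := by
    refine (hf.dvd_or_isRelPrime).resolve_left fun hd => ?_
    obtain ⟨q, hq⟩ := hd
    have hq0 : q ≠ 0 := by
      rintro rfl
      rw [mul_zero] at hq
      exact hlin hq
    have h2 := totalDegree_mul_of_isDomain hf.ne_zero hq0
    rw [← hq] at h2
    have h3 := H19.RD.deg_lin 0 x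
    have h4 : q.totalDegree = 0 := by omega
    have h5 := totalDegree_eq_zero_iff_eq_C.1 h4
    have h6 := congrArg (pderiv 1) hq
    rw [h5, pderiv_mul, pderiv_C, mul_zero, add_zero, map_sub, pderiv_C,
      pderiv_X_of_ne (by decide), sub_zero] at h6
    rcases mul_eq_zero.1 h6.symm with h7 | h7
    · exact h1 h7
    · rw [← h5] at h7
      exact hq0 h7
  obtain ⟨T, hT, hmem⟩ := Bd_fin f (X 0 - C x) hf.ne_zero hlin hrel k
    (by
      have := Nat.mul_le_mul hk (H19.RD.deg_lin 0 x)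
      omega)
  refine ⟨T.image fun t => t 1, Finset.card_image_le.trans hT, fun y => ?_⟩
  rw [Finset.mem_image]
  constructor
  · rintro ⟨t, ht, rfl⟩
    obtain ⟨h2, h3⟩ := (hmem t).1 ht
    have h4 : t 0 = x := by
      simp at h3
      linarith
    have h5 : t = ![x, t 1] := by
      ext i
      fin_cases i
      · exact h4
      · rfl
    rw [← h5]
    exact h2
  · intro hy
    exact ⟨![x, y], (hmem _).2 ⟨hy, by simp⟩, by simp⟩

end Pool.Agent.H22.PS
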