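import Pool.Agent.H22.PS.Defs

/-!
# Arcs entering a band

(1) `ent_sum`: exchange the sums: for an arc `i` the pairs `(β, τ)` with `i ∈ ent β τ` have
`β = bd (rk τ i)`, so there is at most one `β` for each `τ`, and either `i` is not present at
`τ - 1` (then `τ = A i + 1`, one value of `τ`; note that `τ ≥ 1` because `act 0 i` is false), or
it is present at `τ - 1` in another band: then `chg L c (τ - 1) i` holds and `τ - 1 < M`.
(2) `chain`: if `i` is in band `β` at some time `τ` with `2 s ≤ τ < 2 e`, then it is in band `β`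
at time `2 s`, or there is a first time `τ' > 2 s`, `τ' ≤ τ`, at which it is in band `β`, and then
`i ∈ ent β τ'`; the times `τ'` with `2 s < τ' < 2 e` are among `2 r`, `2 r + 1`, `s ≤ r < e`.
(3) `gen_band`: at an even time there are no ties, so `rk τ` is injective on the arcs present
(for `v τ i < v τ j` the arcs below `i` are below `j` and `i` itself is below `j`), and at most
`L` numbers `r` have `(r + c) / L = β`.
-/

namespace Pool.Agent.H22.PS

open Finset
open scoped Classical

variable {ι : Type} [Fintype ι] {μ : ℕ}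

theorem ent_sum (D : Arr ι μ) (L c Kb T : ℕ) :
    ∑ β ∈ range Kb, ∑ τ ∈ range T, (D.ent L c β τ).card ≤
      Fintype.card ι + ∑ i, ∑ τ ∈ range D.M, (if D.chg L c τ i then 1 else 0) := by
  have h1 : ∑ β ∈ range Kb, ∑ τ ∈ range T, (D.ent L c β τ).card =
      ∑ i : ι, ∑ τ ∈ range T, ∑ β ∈ range Kb, (if i ∈ D.ent L c β τ then 1 else 0) := by
    have h : ∀ β τ, (D.ent L c β τ).card = ∑ i : ι, (if i ∈ D.ent L c β τ then 1 else 0) := by
      intro β τ
      rw [Finset.card_eq_sum_ones, Finset.sum_ite_mem]
      simp
    simp_rw [h]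
    rw [Finset.sum_comm]
    calc ∑ τ ∈ range T, ∑ β ∈ range Kb, ∑ i : ι, (if i ∈ D.ent L c β τ then 1 else 0)
        = ∑ τ ∈ range T, ∑ i : ι, ∑ β ∈ range Kb, (if i ∈ D.ent L c β τ then 1 else 0) := by
          refine Finset.sum_congr rfl fun τ _ => ?_
          rw [Finset.sum_comm]
      _ = _ := by rw [Finset.sum_comm]
  rw [h1]
  have h2 : ∀ i : ι, ∑ τ ∈ range T, ∑ β ∈ range Kb, (if i ∈ D.ent L c β τ then 1 else 0) ≤
      1 + ∑ τ ∈ range D.M, (if D.chg L c τ i then 1 else 0) := by
    intro i
    have h3 : ∀ τ, ∑ β ∈ range Kb, (if i ∈ D.ent L c β τ then 1 else 0) ≤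
        (if i ∈ D.ent L c (bd L c (D.rk τ i)) τ then 1 else 0) := by
      intro τ
      have h4 : ∀ β ∈ range Kb, (if i ∈ D.ent L c β τ then 1 else 0) ≤
          (if β = bd L c (D.rk τ i) then
            (if i ∈ D.ent L c (bd L c (D.rk τ i)) τ then 1 else 0) else 0) := by
        intro β _
        by_cases hm : i ∈ D.ent L c β τ
        · have hb : bd L c (D.rk τ i) = β := by
            have := (Finset.mem_filter.1 hm).2.1.2
            exact this
          subst hb
          simp [hm]
        · simp [hm]
      refine (Finset.sum_le_sum h4).trans ?_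
      rw [Finset.sum_ite_eq']
      split_ifs <;> simp
    refine (Finset.sum_le_sum fun τ _ => h3 τ).trans ?_
    rw [← Finset.card_filter, ← Finset.card_filter]
    have h5 : ((range T).filter fun τ => i ∈ D.ent L c (bd L c (D.rk τ i)) τ) ⊆
        insert (D.A i + 1) (((range D.M).filter fun τ => D.chg L c τ i).image (· + 1)) := by
      intro τ hτ
      have hmem := (Finset.mem_filter.1 hτ).2
      obtain ⟨-, hin, hnin⟩ := Finset.mem_filter.1 hmem
      have hact : D.act τ i := hin.1
      rw [Finset.mem_insert]
      by_cases hA : τ = D.A i + 1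
      · exact Or.inl hA
      · right
        have h1 : D.A i < τ := hact.1
        have h2 : τ < D.B i := hact.2
        have hM := D.hB i
        have hact' : D.act (τ - 1) i := by
          constructor
          · omega
          · omega
        rw [Finset.mem_image]
        refine ⟨τ - 1, ?_, by show τ - 1 + 1 = τ; omega⟩
        rw [Finset.mem_filter, Finset.mem_range]
        refine ⟨by omega, hact', ?_, ?_⟩
        · have : τ - 1 + 1 = τ := by omega
          rw [this]
          exact hact
        · have : τ - 1 + 1 = τ := by omega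
          rw [this]
          intro he
          exact hnin ⟨hact', he⟩
    refine (Finset.card_le_card h5).trans ?_
    refine (Finset.card_insert_le _ _).trans ?_
    have := Finset.card_image_le (s := (range D.M).filter fun τ => D.chg L c τ i) (f := (· + 1))
    omega
  refine (Finset.sum_le_sum fun i _ => h2 i).trans ?_
  rw [Finset.sum_add_distrib]
  simp

theorem chain (D : Arr ι μ) (L c β s e : ℕ) :
    (univ.filter fun i => ∃ τ, 2 * s ≤ τ ∧ τ < 2 * e ∧ D.inb L c β τ i).card ≤
      (univ.filter fun i => D.inb L c β (2 * s) i).card +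
        ∑ r ∈ Ico s e, ((D.ent L c β (2 * r)).card + (D.ent L c β (2 * r + 1)).card) := by
  have h1 : (univ.filter fun i => ∃ τ, 2 * s ≤ τ ∧ τ < 2 * e ∧ D.inb L c β τ i) ⊆
      (univ.filter fun i => D.inb L c β (2 * s) i) ∪
        (Ico s e).biUnion (fun r => D.ent L c β (2 * r) ∪ D.ent L c β (2 * r + 1)) := by
    intro i hi
    have hex : ∃ τ, 2 * s ≤ τ ∧ τ < 2 * e ∧ D.inb L c β τ i := (Finset.mem_filter.1 hi).2
    obtain ⟨h1, h2, h3⟩ := Nat.find_spec hex
    have hmin := fun m => @Nat.find_min _ _ hex m
    set t := Nat.find hex with ht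
    rw [Finset.mem_union]
    by_cases h2s : t = 2 * s
    · left
      rw [Finset.mem_filter]
      exact ⟨Finset.mem_univ _, h2s ▸ h3⟩
    · right
      have hn : ¬ D.inb L c β (t - 1) i := by
        intro hb
        exact hmin (t - 1) (by omega) ⟨by omega, by omega, hb⟩
      have hent : i ∈ D.ent L c β t := by
        refine Finset.mem_filter.2 ⟨Finset.mem_univ _, h3, hn⟩
      rw [Finset.mem_biUnion]
      refine ⟨t / 2, Finset.mem_Ico.2 ⟨by omega, by omega⟩, ?_⟩
      rw [Finset.mem_union]
      rcases Nat.even_or_odd t with he | ho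
      · left
        have : 2 * (t / 2) = t := Nat.two_mul_div_two_of_even he
        rw [this]
        exact hent
      · right
        have : 2 * (t / 2) + 1 = t := Nat.two_mul_div_two_add_one_of_odd ho
        rw [this]
        exact hent
  refine (Finset.card_le_card h1).trans ?_
  refine (Finset.card_union_le _ _).trans ?_
  refine Nat.add_le_add_left ?_ _
  refine Finset.card_biUnion_le.trans ?_
  exact Finset.sum_le_sum fun r _ => Finset.card_union_le _ _

theorem gen_band (D : Arr ι μ) (L c β τ : ℕ) (hL : 0 < L) (hτ : Even τ) :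
    (univ.filter fun i => D.inb L c β τ i).card ≤ L := by
  have hlt : ∀ i j, D.act τ i → D.act τ j → D.v τ i < D.v τ j → D.rk τ i < D.rk τ j := by
    intro i j hi hj hv
    unfold Arr.rk Arr.low
    refine Finset.card_lt_card ?_
    rw [Finset.ssubset_iff_of_subset]
    · refine ⟨i, ?_, ?_⟩
      · exact Finset.mem_filter.2 ⟨Finset.mem_univ _, hi, hv⟩
      · intro h
        exact lt_irrefl _ (Finset.mem_filter.1 h).2.2
    · intro k hk
      obtain ⟨-, h1, h2⟩ := Finset.mem_filter.1 hk
      exact Finset.mem_filter.2 ⟨Finset.mem_univ _, h1, h2.trans hv⟩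
  have hinj : Set.InjOn (fun i => D.rk τ i)
      (↑(univ.filter fun i => D.inb L c β τ i) : Set ι) := by
    intro i hi j hj hij
    have hi' : D.inb L c β τ i := (Finset.mem_filter.1 (Finset.mem_coe.1 hi)).2
    have hj' : D.inb L c β τ j := (Finset.mem_filter.1 (Finset.mem_coe.1 hj)).2
    by_contra hne
    have hv := D.gen τ hτ i j hne hi'.1 hj'.1
    rcases lt_or_gt_of_ne hv with h | h
    · have := hlt i j hi'.1 hj'.1 h
      simp only at hij
      omega
    · have := hlt j i hj'.1 hi'.1 h
      simp only at hij
      omega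
  rw [← Finset.card_image_of_injOn hinj]
  have hsub : ((univ.filter fun i => D.inb L c β τ i).image fun i => D.rk τ i) ⊆
      Ico (β * L - c) (β * L + L - c) := by
    intro r hr
    obtain ⟨i, hi, rfl⟩ := Finset.mem_image.1 hr
    have hi' : D.inb L c β τ i := (Finset.mem_filter.1 hi).2
    have hb : (D.rk τ i + c) / L = β := hi'.2
    have h1 : β * L ≤ D.rk τ i + c := by
      rw [← hb]; exact Nat.div_mul_le_self _ _
    have h2 : D.rk τ i + c < β * L + L := by
      have := Nat.lt_div_mul_add (a := D.rk τ i + c) hL
      rw [hb] at this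
      exact this
    rw [Finset.mem_Ico]
    constructor <;> omega
  refine (Finset.card_le_card hsub).trans ?_
  rw [Nat.card_Ico]
  omega

end Pool.Agent.H22.PS
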