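import Mathlib

/-!
# Greedy segmentation

Induction on `R` with the stronger statement: there are `blk`, `K`, and (for `R ≥ 1`) a start
`s < R` of the last block with `K ≥ 1`, `blk r < K` for `r < R`, `blk r = K - 1` iff `s ≤ r` (for
`r < R`), all blocks have union of size at most `4 L`, and `(K - 1) L ≤ ∑_{r < s} w r`.
Step `R → R + 1`: if the union of `U` over `[s, R + 1)` has size at most `4 L`, put `R` into the
last block. Otherwise the union over `[s, R)` has size more than `4 L - 2 L = 2 L`, so
`L + ∑_{[s, R)} w > 2 L`, and `R` starts a new block: `K' - 1 = K` and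
`K L ≤ ∑_{r<s} w + ∑_{[s,R)} w = ∑_{r<R} w`; the new block has union `U R` of size at most `2 L`.
-/

namespace Pool.Agent.H22.PS

open Finset
open scoped Classical

private theorem greedy_aux {ι : Type} (L : ℕ) (U : ℕ → Finset ι) (w : ℕ → ℕ)
    (hU : ∀ r, (U r).card ≤ 2 * L)
    (hw : ∀ s e, s ≤ e → ((Ico s e).biUnion U).card ≤ L + ∑ r ∈ Ico s e, w r) (R : ℕ) :
    ∃ (blk : ℕ → ℕ) (k s : ℕ), s ≤ R ∧ (∀ r < R + 1, blk r ≤ k) ∧
      (∀ r < R + 1, blk r = k ↔ s ≤ r) ∧
      (∀ b, (((range (R + 1)).filter fun r => blk r = b).biUnion U).card ≤ 4 * L) ∧
      k * L ≤ ∑ r ∈ range s, w r := by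
  induction R with
  | zero =>
    refine ⟨fun _ => 0, 0, 0, le_refl _, fun _ _ => le_refl _, fun r _ => by simp, ?_, by simp⟩
    intro b
    have hsub : (((range (0 + 1)).filter fun _ => (0 : ℕ) = b).biUnion U) ⊆ U 0 := by
      intro x hx
      obtain ⟨r, hr, hx⟩ := Finset.mem_biUnion.1 hx
      have : r < 0 + 1 := Finset.mem_range.1 (Finset.mem_filter.1 hr).1
      have : r = 0 := by omega
      subst this
      exact hx
    refine (Finset.card_le_card hsub).trans ?_
    have := hU 0
    omega
  | succ R ih =>
    obtain ⟨blk, k, s, hs, hle, hiff, hun, hsum⟩ := ih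
    have hsame : ∀ (v b : ℕ), b ≠ v →
        ((range (R + 1 + 1)).filter fun r => Function.update blk (R + 1) v r = b) =
          ((range (R + 1)).filter fun r => blk r = b) := by
      intro v b hb
      ext r
      simp only [Finset.mem_filter, Finset.mem_range]
      by_cases hr : r = R + 1
      · subst hr
        simp only [Function.update_self]
        constructor
        · rintro ⟨_, h⟩
          exact absurd h.symm hb
        · rintro ⟨h, _⟩
          omega
      · rw [Function.update_of_ne hr]
        constructor
        · rintro ⟨h, h'⟩
          exact ⟨by omega, h'⟩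
        · rintro ⟨h, h'⟩
          exact ⟨by omega, h'⟩
    by_cases hA : ((Ico s (R + 2)).biUnion U).card ≤ 4 * L
    · refine ⟨Function.update blk (R + 1) k, k, s, by omega, ?_, ?_, ?_, hsum⟩
      · intro r hr
        by_cases h : r = R + 1
        · subst h; simp
        · rw [Function.update_of_ne h]
          exact hle r (by omega)
      · intro r hr
        by_cases h : r = R + 1
        · subst h
          simp only [Function.update_self, true_iff]
          omega
        · rw [Function.update_of_ne h]
          exact hiff r (by omega)
      · intro b
        by_cases hb : b = k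
        · subst hb
          refine le_trans (Finset.card_le_card ?_) hA
          refine Finset.biUnion_subset_biUnion_of_subset_left _ ?_
          intro r hr
          obtain ⟨h1, h2⟩ := Finset.mem_filter.1 hr
          have h1' : r < R + 1 + 1 := Finset.mem_range.1 h1
          rw [Finset.mem_Ico]
          by_cases h : r = R + 1
          · constructor <;> omega
          · rw [Function.update_of_ne h] at h2
            have := (hiff r (by omega)).1 h2
            constructor <;> omega
        · rw [hsame k b hb]
          exact hun b
    · refine ⟨Function.update blk (R + 1) (k + 1), k + 1, R + 1, by omega, ?_, ?_, ?_, ?_⟩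
      · intro r hr
        by_cases h : r = R + 1
        · subst h; simp
        · rw [Function.update_of_ne h]
          have := hle r (by omega)
          omega
      · intro r hr
        by_cases h : r = R + 1
        · subst h
          simp
        · rw [Function.update_of_ne h]
          have := hle r (by omega)
          constructor
          · intro h'; omega
          · intro h'; omega
      · intro b
        by_cases hb : b = k + 1
        · subst hb
          have hsub : (((range (R + 1 + 1)).filter fun r =>
              Function.update blk (R + 1) (k + 1) r = k + 1).biUnion U) ⊆ U (R + 1) := by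
            intro x hx
            obtain ⟨r, hr, hx⟩ := Finset.mem_biUnion.1 hx
            obtain ⟨h1, h2⟩ := Finset.mem_filter.1 hr
            have h1' : r < R + 1 + 1 := Finset.mem_range.1 h1
            by_cases h : r = R + 1
            · subst h
              exact hx
            · rw [Function.update_of_ne h] at h2
              have := hle r (by omega)
              omega
          refine (Finset.card_le_card hsub).trans ?_
          have := hU (R + 1)
          omega
        · rw [hsame (k + 1) b hb]
          exact hun b
      · have h1 := hw s (R + 1) (by omega)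
        have h2 : ((Ico s (R + 2)).biUnion U).card ≤ ((Ico s (R + 1)).biUnion U).card + 2 * L := by
          have hins : Ico s (R + 2) = insert (R + 1) (Ico s (R + 1)) := by
            ext r
            simp only [Finset.mem_insert, Finset.mem_Ico]
            omega
          rw [hins, Finset.biUnion_insert]
          refine (Finset.card_union_le _ _).trans ?_
          have := hU (R + 1)
          omega
        have h3 : ∑ r ∈ range (R + 1), w r = ∑ r ∈ range s, w r + ∑ r ∈ Ico s (R + 1), w r := by
          rw [Finset.range_eq_Ico, Finset.range_eq_Ico,
            Finset.sum_Ico_consecutive w (Nat.zero_le s) (by omega)]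
        rw [h3, Nat.add_mul, Nat.one_mul]
        omega

theorem greedy {ι : Type} (L : ℕ) (U : ℕ → Finset ι) (w : ℕ → ℕ)
    (hU : ∀ r, (U r).card ≤ 2 * L)
    (hw : ∀ s e, s ≤ e → ((Ico s e).biUnion U).card ≤ L + ∑ r ∈ Ico s e, w r) (R : ℕ) :
    ∃ (blk : ℕ → ℕ) (K : ℕ), (∀ r < R, blk r < K) ∧
      (∀ b, (((range R).filter fun r => blk r = b).biUnion U).card ≤ 4 * L) ∧
      L * K ≤ L + ∑ r ∈ range R, w r := by
  rcases R with _ | R
  · refine ⟨fun _ => 0, 0, fun r hr => absurd hr (Nat.not_lt_zero r), ?_, by simp⟩
    intro b
    simp
  · obtain ⟨blk, k, s, hs, hle, -, hun, hsum⟩ := greedy_aux L U w hU hw R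
    refine ⟨blk, k + 1, fun r hr => Nat.lt_succ_of_le (hle r hr), hun, ?_⟩
    have h3 : ∑ r ∈ range s, w r ≤ ∑ r ∈ range (R + 1), w r := by
      refine Finset.sum_le_sum_of_subset ?_
      intro r hr
      rw [Finset.mem_range] at hr ⊢
      omega
    have : L * (k + 1) = L + k * L := by ring
    rw [this]
    omega

end Pool.Agent.H22.PS
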