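import Pool.Agent.H22.PS.Defs

/-!
# Poor points at one time and in one band

(1) `mem_U_inb`: if `i ∈ U r` then `i` passes through a point `q` at time `2 r + 1`, so
`rk (2r+1) i = low (2r+1) q.2` and `i` is in band `β` at time `2 r + 1`.
(2) `U_card`: let `S` be the set of the points used in `U r` with at least one arc through them
(if it is empty, `U r` is empty). Let `y1` and `y2` be the minimum and maximum of their heights,
`q2` the point with height `y2`. An arc `i ∈ U r` not through `q2` is present with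
`y1 ≤ v i < y2` (it goes through a point of `S` of height less than `y2`). The number of arcs `j`
present with `y1 ≤ v j < y2` is `low y2 - low y1`, and both numbers are in the same band, so the
difference is less than `L`. Together with the at most `L` arcs through `q2` this is at most `2 L`.
-/

namespace Pool.Agent.H22.PS

open Finset
open scoped Classical

variable {ι : Type} [Fintype ι] {μ : ℕ}

theorem mem_U_spec (D : Arr ι μ) (L c β : ℕ) (pts : Finset (ℕ × ℝ)) (r : ℕ) (i : ι)
    (hi : i ∈ D.U L c β pts r) : D.act (2 * r + 1) i ∧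
      (D.thr (2 * r + 1, D.v (2 * r + 1) i)).card ≤ L ∧ bd L c (D.rk (2 * r + 1) i) = β := by
  unfold Arr.U at hi
  rw [mem_biUnion] at hi
  obtain ⟨q, hq, hi⟩ := hi
  rw [mem_filter] at hq
  obtain ⟨_, h1, h2, h3⟩ := hq
  unfold Arr.thr at hi
  rw [mem_filter] at hi
  obtain ⟨_, h4, h5⟩ := hi
  rw [h1] at h4 h5 h3
  have h6 : q = (2 * r + 1, D.v (2 * r + 1) i) := by
    rw [h5, ← h1]
  refine ⟨h4, ?_, ?_⟩
  · rw [← h6]
    exact h2
  · unfold Arr.rk
    rw [h5]
    exact h3

theorem mem_U_inb (D : Arr ι μ) (L c β : ℕ) (pts : Finset (ℕ × ℝ)) (r : ℕ) (i : ι)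
    (hi : i ∈ D.U L c β pts r) : D.inb L c β (2 * r + 1) i := by
  obtain ⟨h1, _, h3⟩ := mem_U_spec D L c β pts r i hi
  exact ⟨h1, h3⟩

theorem U_card (D : Arr ι μ) (L c β : ℕ) (hL : 0 < L) (pts : Finset (ℕ × ℝ)) (r : ℕ) :
    (D.U L c β pts r).card ≤ 2 * L := by
  rcases (D.U L c β pts r).eq_empty_or_nonempty with h0 | hne
  · rw [h0]
    simp
  set τ := 2 * r + 1 with hτ
  obtain ⟨i2, hi2, hmax⟩ := exists_max_image _ (D.v τ) hne
  obtain ⟨i1, hi1, hmin⟩ := exists_min_image _ (D.v τ) hne
  obtain ⟨_, hc2, hb2⟩ := mem_U_spec D L c β pts r i2 hi2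
  obtain ⟨_, _, hb1⟩ := mem_U_spec D L c β pts r i1 hi1
  rw [← hτ] at hc2 hb2 hb1
  have hle : D.v τ i1 ≤ D.v τ i2 := hmin i2 hi2
  set T : Finset ι := univ.filter fun j => D.act τ j ∧ (D.v τ i1 ≤ D.v τ j ∧ D.v τ j < D.v τ i2)
    with hT
  have hsub : D.U L c β pts r ⊆ D.thr (τ, D.v τ i2) ∪ T := by
    intro i hi
    obtain ⟨ha, _, _⟩ := mem_U_spec D L c β pts r i hi
    rw [← hτ] at ha
    rw [mem_union]
    rcases lt_or_eq_of_le (hmax i hi) with h | h
    · right
      rw [hT, mem_filter]
      exact ⟨mem_univ _, ha, hmin i hi, h⟩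
    · left
      unfold Arr.thr
      rw [mem_filter]
      exact ⟨mem_univ _, ha, h⟩
  have hTcard : T.card + D.rk τ i1 = D.rk τ i2 := by
    unfold Arr.rk Arr.low
    rw [← card_union_of_disjoint]
    · congr 1
      ext j
      rw [mem_union, hT, mem_filter, mem_filter, mem_filter]
      constructor
      · rintro (⟨_, h1, h2, h3⟩ | ⟨_, h1, h2⟩)
        · exact ⟨mem_univ _, h1, h3⟩
        · exact ⟨mem_univ _, h1, lt_of_lt_of_le h2 hle⟩
      · rintro ⟨_, h1, h2⟩
        rcases lt_or_ge (D.v τ j) (D.v τ i1) with h | h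
        · right
          exact ⟨mem_univ _, h1, h⟩
        · left
          exact ⟨mem_univ _, h1, h, h2⟩
    · rw [disjoint_left]
      intro j hj hj'
      rw [hT, mem_filter] at hj
      rw [mem_filter] at hj'
      exact absurd hj'.2.2 (not_lt.2 hj.2.2.1)
  have hlt : T.card < L := by
    unfold bd at hb1 hb2
    have h1 : D.rk τ i2 + c < (β + 1) * L := by
      rw [← hb2]
      have := Nat.lt_div_mul_add hL (a := D.rk τ i2 + c)
      rw [add_mul, one_mul]
      exact this
    have h2 : β * L ≤ D.rk τ i1 + c := by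
      rw [← hb1]
      exact Nat.div_mul_le_self _ _
    rw [add_mul, one_mul] at h1
    omega
  calc (D.U L c β pts r).card ≤ (D.thr (τ, D.v τ i2) ∪ T).card := card_le_card hsub
    _ ≤ (D.thr (τ, D.v τ i2)).card + T.card := card_union_le _ _
    _ ≤ 2 * L := by omega

end Pool.Agent.H22.PS
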