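import Pool.Agent.H22.PS.Avg
import Pool.Agent.H22.PS.Ent
import Pool.Agent.H22.PS.Uni
import Pool.Agent.H22.PS.Greedy

/-!
# Cell decomposition

Every band gets at most `1 + (entries of the band) / L` blocks.
-/

namespace Pool.Agent.H22.PS

open Finset
open scoped Classical

variable {ι : Type} [Fintype ι] {μ : ℕ}

private lemma sum_two (f : ℕ → ℕ) (R : ℕ) :
    ∑ τ ∈ range (2 * R), f τ = ∑ r ∈ range R, (f (2 * r) + f (2 * r + 1)) := by
  induction R with
  | zero => simp
  | succ R ih =>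
      rw [show 2 * (R + 1) = 2 * R + 1 + 1 by ring, sum_range_succ, sum_range_succ, ih,
        sum_range_succ, add_assoc]

private lemma low_lt (D : Arr ι μ) (q : ℕ × ℝ) (h : (D.thr q).Nonempty) :
    D.low q.1 q.2 < Fintype.card ι := by
  obtain ⟨i, hi⟩ := h
  unfold Arr.thr at hi
  rw [mem_filter] at hi
  unfold Arr.low
  apply card_lt_univ_of_notMem (x := i)
  rw [mem_filter]
  rintro ⟨-, -, h⟩
  rw [hi.2.2] at h
  exact lt_irrefl _ h

private lemma thr_lt (D : Arr ι μ) (q : ℕ × ℝ) (h : (D.thr q).Nonempty) : q.1 < D.M := by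
  obtain ⟨i, hi⟩ := h
  unfold Arr.thr at hi
  rw [mem_filter] at hi
  exact lt_of_lt_of_le hi.2.1.2 (D.hB i)

theorem cells (D : Arr ι μ) (pts : Finset (ℕ × ℝ)) (hodd : ∀ q ∈ pts, Odd q.1) (L : ℕ)
    (hL : 0 < L) : ∃ cell : ℕ × ℝ → ℕ × ℕ,
    (∀ x, ((pts.filter fun q => ((D.thr q).card ≤ L ∧ (D.thr q).Nonempty) ∧
      cell q = x).biUnion D.thr).card ≤ 4 * L) ∧
    L ^ 2 * ((pts.filter fun q => (D.thr q).card ≤ L ∧ (D.thr q).Nonempty).image cell).card ≤
      2 * L * Fintype.card ι + 3 * L ^ 2 + (2 * μ + 2) * Fintype.card ι ^ 2 := by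
  obtain ⟨c, hc, hoff⟩ := exists_offset D L hL
  set n := Fintype.card ι with hn
  set R := D.M + 1 with hR
  let w : ℕ → ℕ → ℕ := fun β r => (D.ent L c β (2 * r)).card + (D.ent L c β (2 * r + 1)).card
  have hU : ∀ β r, (D.U L c β pts r).card ≤ 2 * L := fun β r => U_card D L c β hL pts r
  have hw : ∀ β, ∀ s e, s ≤ e → ((Ico s e).biUnion (D.U L c β pts)).card ≤
      L + ∑ r ∈ Ico s e, w β r := by
    intro β s e _
    have h1 : ((Ico s e).biUnion (D.U L c β pts)).card ≤
        (univ.filter fun i => ∃ τ, 2 * s ≤ τ ∧ τ < 2 * e ∧ D.inb L c β τ i).card := by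
      apply card_le_card
      intro i hi
      rw [mem_biUnion] at hi
      obtain ⟨r, hr, hi⟩ := hi
      rw [mem_Ico] at hr
      rw [mem_filter]
      exact ⟨mem_univ _, 2 * r + 1, by omega, by omega, mem_U_inb D L c β pts r i hi⟩
    have h2 := chain D L c β s e
    have h3 := gen_band D L c β (2 * s) hL (even_two_mul s)
    calc _ ≤ _ := h1
      _ ≤ _ := h2
      _ ≤ _ := by
        have : ∑ r ∈ Ico s e, ((D.ent L c β (2 * r)).card + (D.ent L c β (2 * r + 1)).card) =
          ∑ r ∈ Ico s e, w β r := rfl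
        omega
  choose blk K h1 h2 h3 using fun β => greedy L (D.U L c β pts) (w β) (hU β) (hw β) R
  refine ⟨fun q => (bd L c (D.low q.1 q.2), blk (bd L c (D.low q.1 q.2)) (q.1 / 2)), ?_, ?_⟩
  · rintro ⟨β, b⟩
    refine le_trans (card_le_card ?_) (h2 β b)
    intro i hi
    rw [mem_biUnion] at hi ⊢
    obtain ⟨q, hq, hi⟩ := hi
    rw [mem_filter] at hq
    obtain ⟨hq1, ⟨hq2, hq3⟩, hq4⟩ := hq
    rw [Prod.mk.injEq] at hq4
    obtain ⟨hβ, hb⟩ := hq4
    obtain ⟨r, hr⟩ := hodd q hq1
    have hlt := thr_lt D q hq3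
    have hqr : q.1 / 2 = r := by omega
    rw [hβ, hqr] at hb
    refine ⟨r, ?_, ?_⟩
    · rw [mem_filter, mem_range]
      exact ⟨by omega, hb⟩
    · unfold Arr.U
      rw [mem_biUnion]
      exact ⟨q, by rw [mem_filter]; exact ⟨hq1, hr, hq2, hβ⟩, hi⟩
  · set Kb := n / L + 2 with hKb
    have himg : ((pts.filter fun q => (D.thr q).card ≤ L ∧ (D.thr q).Nonempty).image
        (fun q => (bd L c (D.low q.1 q.2), blk (bd L c (D.low q.1 q.2)) (q.1 / 2)))) ⊆
        (range Kb).biUnion fun β => (range (K β)).image fun b => (β, b) := by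
      intro x hx
      rw [mem_image] at hx
      obtain ⟨q, hq, rfl⟩ := hx
      rw [mem_filter] at hq
      obtain ⟨hq1, hq2, hq3⟩ := hq
      rw [mem_biUnion]
      refine ⟨bd L c (D.low q.1 q.2), ?_, ?_⟩
      · rw [mem_range, hKb]
        have := low_lt D q hq3
        unfold bd
        have h4 : D.low q.1 q.2 + c ≤ n + L := by omega
        have h5 : (D.low q.1 q.2 + c) / L ≤ (n + L) / L := Nat.div_le_div_right h4
        rw [Nat.add_div_right _ hL] at h5
        omega
      · rw [mem_image]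
        refine ⟨_, ?_, rfl⟩
        rw [mem_range]
        apply h1
        have := thr_lt D q hq3
        omega
    have hcard : ((pts.filter fun q => (D.thr q).card ≤ L ∧ (D.thr q).Nonempty).image
        (fun q => (bd L c (D.low q.1 q.2), blk (bd L c (D.low q.1 q.2)) (q.1 / 2)))).card ≤
        ∑ β ∈ range Kb, K β := by
      refine (card_le_card himg).trans ?_
      refine card_biUnion_le.trans ?_
      apply sum_le_sum
      intro β _
      refine card_image_le.trans ?_
      rw [card_range]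
    have hsum : L * ∑ β ∈ range Kb, K β ≤ L * Kb + (n + ∑ i, ∑ τ ∈ range D.M,
        (if D.chg L c τ i then 1 else 0)) := by
      rw [mul_sum]
      calc ∑ β ∈ range Kb, L * K β ≤ ∑ β ∈ range Kb, (L + ∑ r ∈ range R, w β r) :=
            sum_le_sum fun β _ => h3 β
        _ = L * Kb + ∑ β ∈ range Kb, ∑ τ ∈ range (2 * R), (D.ent L c β τ).card := by
            rw [sum_add_distrib, sum_const, card_range, smul_eq_mul, mul_comm Kb L]
            congr 1
            apply sum_congr rfl
            intro β _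
            rw [sum_two]
        _ ≤ _ := by
            have := ent_sum D L c Kb (2 * R)
            omega
    have hLKb : L * Kb ≤ n + 2 * L := by
      rw [hKb, mul_add]
      have := Nat.mul_div_le n L
      omega
    calc L ^ 2 * _ ≤ L ^ 2 * ∑ β ∈ range Kb, K β := Nat.mul_le_mul_left _ hcard
      _ = L * (L * ∑ β ∈ range Kb, K β) := by ring
      _ ≤ L * (L * Kb + (n + ∑ i, ∑ τ ∈ range D.M, (if D.chg L c τ i then 1 else 0))) :=
          Nat.mul_le_mul_left _ hsum
      _ ≤ L * ((n + 2 * L) + (n + ∑ i, ∑ τ ∈ range D.M, (if D.chg L c τ i then 1 else 0))) :=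
          Nat.mul_le_mul_left _ (by omega)
      _ = 2 * L * n + 2 * L ^ 2 + L * ∑ i, ∑ τ ∈ range D.M,
            (if D.chg L c τ i then 1 else 0) := by ring
      _ ≤ _ := by
          have : 2 * L ^ 2 ≤ 3 * L ^ 2 := by nlinarith
          omega

end Pool.Agent.H22.PS
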