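import Mathlib

/-!
# Kovari, Sos, Turan type bounds for a system of finite sets

Put `I = ∑_{q ∈ Q} #(thr q)`, `m = #Q`, `w = #W`.
(1) `kst`: for `i ∈ W` put `r_i = #{q ∈ Q : i ∈ thr q}`; `I = ∑ r_i`,
`∑ r_i ^ 2 = ∑_{p, q ∈ Q} #(thr p ∩ thr q) ≤ I + μ m ^ 2`, and by Cauchy
`I ^ 2 ≤ w (I + μ m ^ 2)`. If `I > w` then `(I - w) ^ 2 ≤ (I - w) I ≤ w μ m ^ 2`.
(2) `kst'`: `∑_q #(thr q) ^ 2 = ∑_{i, j ∈ W} #{q : i, j ∈ thr q} ≤ I + μ w ^ 2`, Cauchy over `q`:
`I ^ 2 ≤ m (I + μ w ^ 2)`.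
(3) `rich`: `∑_q #(thr q) (#(thr q) - 1) = ∑_{i ≠ j} #{q : i, j ∈ thr q} ≤ μ w ^ 2`, and
`#(thr q) - 1 ≥ L` if `#(thr q) > L`.
-/

namespace Pool.Agent.H22.PS

open Finset
open scoped Classical

/-- double counting of the ordered pairs of distinct elements -/
private theorem kst_off {α β : Type} (S : Finset α) (T : Finset β) (R : α → β → Prop)
    [∀ s t, Decidable (R s t)] (μ : ℕ)
    (h : ∀ s ∈ S, ∀ s' ∈ S, s ≠ s' → (T.filter fun t => R s t ∧ R s' t).card ≤ μ) :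
    ∑ t ∈ T, ((S.filter fun s => R s t).offDiag).card ≤ μ * S.card ^ 2 := by
  have h1 : ∀ t ∈ T, ((S.filter fun s => R s t).offDiag).card
      = (S.offDiag.filter fun p => R p.1 t ∧ R p.2 t).card := by
    intro t _
    congr 1
    ext p
    simp only [mem_offDiag, mem_filter]
    tauto
  have h2 : ∑ t ∈ T, (S.offDiag.filter fun p => R p.1 t ∧ R p.2 t).card
      = ∑ p ∈ S.offDiag, (T.filter fun t => R p.1 t ∧ R p.2 t).card := by
    have := Finset.sum_card_bipartiteAbove_eq_sum_card_bipartiteBelow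
      (s := S.offDiag) (t := T) (fun p t => R p.1 t ∧ R p.2 t)
    rw [eq_comm]
    exact this
  rw [Finset.sum_congr rfl h1, h2]
  calc ∑ p ∈ S.offDiag, (T.filter fun t => R p.1 t ∧ R p.2 t).card
      ≤ ∑ _p ∈ S.offDiag, μ := by
        refine Finset.sum_le_sum fun p hp => ?_
        rw [mem_offDiag] at hp
        exact h p.1 hp.1 p.2 hp.2.1 hp.2.2
    _ = S.offDiag.card * μ := by rw [Finset.sum_const, smul_eq_mul]
    _ ≤ μ * S.card ^ 2 := by
        rw [mul_comm]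
        refine Nat.mul_le_mul_left _ ?_
        rw [Finset.offDiag_card, pow_two]
        exact Nat.sub_le _ _

/-- the Cauchy inequality for a relation -/
private theorem kst_sq {α β : Type} (S : Finset α) (T : Finset β) (R : α → β → Prop)
    [∀ s t, Decidable (R s t)] (μ : ℕ)
    (h : ∀ s ∈ S, ∀ s' ∈ S, s ≠ s' → (T.filter fun t => R s t ∧ R s' t).card ≤ μ) :
    (∑ t ∈ T, (S.filter fun s => R s t).card) ^ 2
      ≤ T.card * (∑ t ∈ T, (S.filter fun s => R s t).card + μ * S.card ^ 2) := by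
  have h1 := kst_off S T R μ h
  have h2 : ∑ t ∈ T, (S.filter fun s => R s t).card ^ 2
      = ∑ t ∈ T, (S.filter fun s => R s t).card
        + ∑ t ∈ T, ((S.filter fun s => R s t).offDiag).card := by
    rw [← Finset.sum_add_distrib]
    refine Finset.sum_congr rfl fun t _ => ?_
    rw [Finset.offDiag_card, pow_two]
    have : (S.filter fun s => R s t).card
        ≤ (S.filter fun s => R s t).card * (S.filter fun s => R s t).card :=
      Nat.le_mul_self _
    omega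
  have h3 := sq_sum_le_card_mul_sum_sq (s := T) (f := fun t => (S.filter fun s => R s t).card)
  refine h3.trans (Nat.mul_le_mul_left _ ?_)
  rw [h2]
  omega

private theorem kst_num (I m w μ : ℕ) (h : I ^ 2 ≤ w * (I + μ * m ^ 2)) :
    (I : ℝ) ≤ Real.sqrt (μ * w) * m + w := by
  rcases le_or_gt I w with hI | hI
  · have h1 : (I : ℝ) ≤ w := by exact_mod_cast hI
    have h2 : 0 ≤ Real.sqrt (μ * w) * m := by positivity
    linarith
  · have hI' : (w : ℝ) ≤ I := by exact_mod_cast hI.le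
    have hR : (I : ℝ) ^ 2 ≤ w * (I + μ * (m : ℝ) ^ 2) := by exact_mod_cast h
    have h1 : ((I : ℝ) - w) ^ 2 ≤ (μ * w) * (m : ℝ) ^ 2 := by
      have hw : (0 : ℝ) ≤ w := by positivity
      nlinarith [mul_nonneg hw (sub_nonneg.mpr hI')]
    have h2 : (I : ℝ) - w ≤ Real.sqrt (μ * w) * m := by
      have h3 : (I : ℝ) - w ≤ Real.sqrt ((μ * w) * (m : ℝ) ^ 2) := Real.le_sqrt_of_sq_le h1
      rwa [Real.sqrt_mul (by positivity), Real.sqrt_sq (by positivity)] at h3
    linarith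

theorem kst {α ι : Type} (Q : Finset α) (W : Finset ι) (thr : α → Finset ι)
    (hW : ∀ q ∈ Q, thr q ⊆ W) (μ : ℕ)
    (h2 : ∀ p ∈ Q, ∀ q ∈ Q, p ≠ q → (thr p ∩ thr q).card ≤ μ) :
    ((∑ q ∈ Q, (thr q).card : ℕ) : ℝ) ≤ Real.sqrt (μ * W.card) * Q.card + W.card := by
  have h := kst_sq Q W (fun q i => i ∈ thr q) μ (by
    intro p hp q hq hpq
    refine le_trans (card_le_card ?_) (h2 p hp q hq hpq)
    intro i hi
    rw [mem_filter] at hi
    exact mem_inter.mpr hi.2)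
  have h3 : ∑ i ∈ W, (Q.filter fun q => i ∈ thr q).card = ∑ q ∈ Q, (thr q).card := by
    have h4 := Finset.sum_card_bipartiteAbove_eq_sum_card_bipartiteBelow
      (s := Q) (t := W) (fun q i => i ∈ thr q)
    have h5 : ∑ i ∈ W, (Q.filter fun q => i ∈ thr q).card
        = ∑ q ∈ Q, (W.filter fun i => i ∈ thr q).card := h4.symm
    rw [h5]
    refine Finset.sum_congr rfl fun q hq => ?_
    congr 1
    ext i
    simp only [mem_filter]
    exact ⟨fun h => h.2, fun h => ⟨hW q hq h, h⟩⟩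
  rw [h3] at h
  exact kst_num _ _ _ _ h

private theorem kst_card {α ι : Type} (Q : Finset α) (W : Finset ι) (thr : α → Finset ι)
    (hW : ∀ q ∈ Q, thr q ⊆ W) : ∀ q ∈ Q, (W.filter fun i => i ∈ thr q) = thr q := by
  intro q hq
  ext i
  simp only [mem_filter]
  exact ⟨fun h => h.2, fun h => ⟨hW q hq h, h⟩⟩

theorem kst' {α ι : Type} (Q : Finset α) (W : Finset ι) (thr : α → Finset ι)
    (hW : ∀ q ∈ Q, thr q ⊆ W) (μ : ℕ)
    (h1 : ∀ i ∈ W, ∀ j ∈ W, i ≠ j → (Q.filter fun q => i ∈ thr q ∧ j ∈ thr q).card ≤ μ) :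
    ((∑ q ∈ Q, (thr q).card : ℕ) : ℝ) ≤ Real.sqrt (μ * Q.card) * W.card + Q.card := by
  have h := kst_sq W Q (fun i q => i ∈ thr q) μ h1
  have h3 : ∑ q ∈ Q, (W.filter fun i => i ∈ thr q).card = ∑ q ∈ Q, (thr q).card :=
    Finset.sum_congr rfl fun q hq => by rw [kst_card Q W thr hW q hq]
  rw [h3] at h
  exact kst_num _ _ _ _ h

theorem rich {α ι : Type} (Q : Finset α) (W : Finset ι) (thr : α → Finset ι)
    (hW : ∀ q ∈ Q, thr q ⊆ W) (μ L : ℕ)
    (h1 : ∀ i ∈ W, ∀ j ∈ W, i ≠ j → (Q.filter fun q => i ∈ thr q ∧ j ∈ thr q).card ≤ μ) :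
    L * ∑ q ∈ Q.filter (fun q => L < (thr q).card), (thr q).card ≤ μ * W.card ^ 2 := by
  have h := kst_off W Q (fun i q => i ∈ thr q) μ h1
  refine le_trans ?_ h
  rw [Finset.mul_sum]
  refine le_trans ?_ (Finset.sum_le_sum_of_subset (Finset.filter_subset (fun q => L < (thr q).card) Q))
  refine Finset.sum_le_sum fun q hq => ?_
  rw [mem_filter] at hq
  rw [kst_card Q W thr hW q hq.1, Finset.offDiag_card]
  have h2 : (thr q).card * (thr q).card - (thr q).card = ((thr q).card - 1) * (thr q).card := by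
    rw [Nat.sub_mul, one_mul]
  rw [h2]
  exact Nat.mul_le_mul_right _ (by omega)

end Pool.Agent.H22.PS
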