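import Pool.Agent.H22.PS.Cells
import Pool.Agent.H22.PS.KST

/-!
# Discrete Pach and Sharir theorem
-/

namespace Pool.Agent.H22.PS

open Finset
open scoped Classical

variable {ι : Type} [Fintype ι] {μ : ℕ}

private lemma pair_le (D : Arr ι μ) (pts : Finset (ℕ × ℝ)) (i j : ι) (hij : i ≠ j) :
    (pts.filter fun q => i ∈ D.thr q ∧ j ∈ D.thr q).card ≤ μ := by
  refine le_trans ?_ (D.tie i j hij)
  apply card_le_card_of_injOn (fun q => q.1)
  · intro q hq
    simp only [Arr.thr, coe_filter, mem_filter, mem_univ, true_and, Set.mem_ofPred_eq] at hq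
    simp only [coe_filter, mem_range, Set.mem_ofPred_eq]
    obtain ⟨-, ⟨h1, h2⟩, h3, h4⟩ := hq
    exact ⟨lt_of_lt_of_le h1.2 (D.hB i), h1, h3, h2.trans h4.symm⟩
  · intro p hp q hq hpq
    simp only [Arr.thr, coe_filter, mem_filter, mem_univ, true_and, Set.mem_ofPred_eq] at hp hq
    simp only at hpq
    refine Prod.ext hpq ?_
    rw [← hp.2.1.2, ← hq.2.1.2, hpq]

private lemma poor (D : Arr ι μ) (pts : Finset (ℕ × ℝ)) (hodd : ∀ q ∈ pts, Odd q.1)
    (h2 : ∀ p ∈ pts, ∀ q ∈ pts, p ≠ q → (D.thr p ∩ D.thr q).card ≤ μ) (L : ℕ) (hL : 0 < L) :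
    ∃ K : ℕ, L ^ 2 * K ≤
      2 * L * Fintype.card ι + 3 * L ^ 2 + (2 * μ + 2) * Fintype.card ι ^ 2 ∧
    ((∑ q ∈ pts.filter (fun q => (D.thr q).card ≤ L), (D.thr q).card : ℕ) : ℝ) ≤
      Real.sqrt (μ * (4 * L)) * pts.card + 4 * L * K := by
  obtain ⟨cell, hc1, hc2⟩ := cells D pts hodd L hL
  set Q := pts.filter fun q => (D.thr q).card ≤ L ∧ (D.thr q).Nonempty with hQ
  refine ⟨(Q.image cell).card, hc2, ?_⟩
  have h0 : ∑ q ∈ pts.filter (fun q => (D.thr q).card ≤ L), (D.thr q).card =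
      ∑ q ∈ Q, (D.thr q).card := by
    symm
    apply sum_subset
    · intro q hq
      rw [hQ, mem_filter] at hq
      rw [mem_filter]
      exact ⟨hq.1, hq.2.1⟩
    · intro q hq hq'
      rw [mem_filter] at hq
      rw [hQ, mem_filter] at hq'
      by_contra hcon
      apply hq'
      refine ⟨hq.1, hq.2, ?_⟩
      rw [← card_pos]
      omega
  have h1 : ∑ q ∈ Q, (D.thr q).card =
      ∑ x ∈ Q.image cell, ∑ q ∈ Q.filter (fun q => cell q = x), (D.thr q).card := by
    rw [sum_fiberwise_of_maps_to]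
    intro q hq
    exact mem_image_of_mem _ hq
  have h3 : ∀ x ∈ Q.image cell,
      ((∑ q ∈ Q.filter (fun q => cell q = x), (D.thr q).card : ℕ) : ℝ) ≤
      Real.sqrt (μ * (4 * L)) * (Q.filter (fun q => cell q = x)).card + 4 * L := by
    intro x _
    have hsub : Q.filter (fun q => cell q = x) ⊆ pts := by
      intro q hq
      rw [mem_filter, hQ, mem_filter] at hq
      exact hq.1.1
    have h4 := kst (Q.filter (fun q => cell q = x))
      ((Q.filter (fun q => cell q = x)).biUnion D.thr) D.thr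
      (fun q hq => subset_biUnion_of_mem D.thr hq) μ
      (fun p hp q hq hpq => h2 p (hsub hp) q (hsub hq) hpq)
    have h5 : (((Q.filter (fun q => cell q = x)).biUnion D.thr).card : ℝ) ≤ 4 * L := by
      have h6 := hc1 x
      have h7 : Q.filter (fun q => cell q = x) = pts.filter fun q =>
          ((D.thr q).card ≤ L ∧ (D.thr q).Nonempty) ∧ cell q = x := by
        rw [hQ, filter_filter]
      rw [h7]
      exact_mod_cast h6
    refine h4.trans ?_
    apply add_le_add _ h5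
    apply mul_le_mul_of_nonneg_right _ (Nat.cast_nonneg _)
    apply Real.sqrt_le_sqrt
    exact mul_le_mul_of_nonneg_left h5 (Nat.cast_nonneg _)
  rw [h0, h1, Nat.cast_sum]
  refine (sum_le_sum h3).trans ?_
  rw [sum_add_distrib, ← mul_sum, sum_const, nsmul_eq_mul, mul_comm (((Q.image cell).card : ℕ) : ℝ)]
  apply add_le_add _ le_rfl
  apply mul_le_mul_of_nonneg_left _ (Real.sqrt_nonneg _)
  rw [← Nat.cast_sum, ← card_eq_sum_card_image]
  exact_mod_cast card_le_card (filter_subset _ _)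

theorem comb (μ : ℕ) : ∃ C : ℝ, 0 ≤ C ∧ ∀ (ι : Type) [Fintype ι] (D : Arr ι μ)
    (pts : Finset (ℕ × ℝ)), (∀ q ∈ pts, Odd q.1) →
    (∀ p ∈ pts, ∀ q ∈ pts, p ≠ q → (D.thr p ∩ D.thr q).card ≤ μ) →
    ((∑ q ∈ pts, (D.thr q).card : ℕ) : ℝ) ≤
      C * ((pts.card : ℝ) ^ (2 / 3 : ℝ) * (Fintype.card ι : ℝ) ^ (2 / 3 : ℝ) + pts.card +
        Fintype.card ι) := by
  refine ⟨20 * (μ + 1) + 20, by positivity, ?_⟩
  intro ι _ D pts hodd h2
  set n := Fintype.card ι with hn
  set m := pts.card with hm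
  set I : ℝ := ((∑ q ∈ pts, (D.thr q).card : ℕ) : ℝ) with hI
  have hμ : Real.sqrt μ ≤ μ + 1 := by
    rw [Real.sqrt_le_iff]
    have : (0:ℝ) ≤ μ := Nat.cast_nonneg _
    constructor
    · positivity
    · nlinarith
  have hn0 : (0:ℝ) ≤ n := Nat.cast_nonneg _
  have hm0 : (0:ℝ) ≤ m := Nat.cast_nonneg _
  have hμ0 : (0:ℝ) ≤ μ := Nat.cast_nonneg _
  have hP0 : (0:ℝ) ≤ (m : ℝ) ^ (2 / 3 : ℝ) * (n : ℝ) ^ (2 / 3 : ℝ) := by positivity
  have hW : ∀ q ∈ pts, D.thr q ⊆ (univ : Finset ι) := fun q _ => subset_univ _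
  have hp := fun (i : ι) (_ : i ∈ (univ : Finset ι)) (j : ι) (_ : j ∈ (univ : Finset ι))
    (hij : i ≠ j) => pair_le D pts i j hij
  rcases le_total (m ^ 2) n with hmn | hmn
  · -- few points
    have h1 := kst pts univ D.thr hW μ h2
    rw [← hI, card_univ, ← hn, ← hm] at h1
    have h3 : Real.sqrt (μ * n) * m ≤ (μ + 1) * n := by
      rw [Real.sqrt_mul hμ0]
      have h4 : (m : ℝ) ≤ Real.sqrt n := by
        apply Real.le_sqrt_of_sq_le
        exact_mod_cast hmn
      calc Real.sqrt μ * Real.sqrt n * m ≤ Real.sqrt μ * Real.sqrt n * Real.sqrt n :=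
            mul_le_mul_of_nonneg_left h4 (by positivity)
        _ = Real.sqrt μ * n := by rw [mul_assoc, Real.mul_self_sqrt hn0]
        _ ≤ (μ + 1) * n := mul_le_mul_of_nonneg_right hμ hn0
    nlinarith [mul_nonneg hμ0 hn0, mul_nonneg hμ0 hm0, mul_nonneg hμ0 hP0]
  · rcases le_total (n ^ 2) m with hnm | hnm
    · have h1 := kst' pts univ D.thr hW μ hp
      rw [← hI, card_univ, ← hn, ← hm] at h1
      have h3 : Real.sqrt (μ * m) * n ≤ (μ + 1) * m := by
        rw [Real.sqrt_mul hμ0]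
        have h4 : (n : ℝ) ≤ Real.sqrt m := by
          apply Real.le_sqrt_of_sq_le
          exact_mod_cast hnm
        calc Real.sqrt μ * Real.sqrt m * n ≤ Real.sqrt μ * Real.sqrt m * Real.sqrt m :=
              mul_le_mul_of_nonneg_left h4 (by positivity)
          _ = Real.sqrt μ * m := by rw [mul_assoc, Real.mul_self_sqrt hm0]
          _ ≤ (μ + 1) * m := mul_le_mul_of_nonneg_right hμ hm0
      nlinarith [mul_nonneg hμ0 hn0, mul_nonneg hμ0 hm0, mul_nonneg hμ0 hP0]
    · -- main case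
      rcases Nat.eq_zero_or_pos m with hmz | hmpos
      · have : I = 0 := by
          rw [hI]
          have : pts = ∅ := card_eq_zero.1 (by rw [← hm]; exact hmz)
          rw [this]; simp
        rw [this]
        positivity
      have hnpos : 0 < n := by
        by_contra hcon
        have : n = 0 := by omega
        rw [this] at hnm
        simp at hnm
        omega
      have hm1 : (0:ℝ) < m := by exact_mod_cast hmpos
      have hn1 : (0:ℝ) < n := by exact_mod_cast hnpos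
      set P : ℝ := (m : ℝ) ^ (2 / 3 : ℝ) * (n : ℝ) ^ (2 / 3 : ℝ) with hP
      set x : ℝ := (n : ℝ) ^ (4 / 3 : ℝ) / (m : ℝ) ^ (2 / 3 : ℝ) with hx
      have hm23 : (0:ℝ) < (m : ℝ) ^ (2 / 3 : ℝ) := Real.rpow_pos_of_pos hm1 _
      have hx1 : 1 ≤ x := by
        rw [hx, one_le_div hm23]
        have h3 : (m : ℝ) ≤ (n : ℝ) ^ (2:ℝ) := by
          rw [Real.rpow_two]
          exact_mod_cast hnm
        calc (m : ℝ) ^ (2 / 3 : ℝ) ≤ ((n : ℝ) ^ (2:ℝ)) ^ (2 / 3 : ℝ) :=
              Real.rpow_le_rpow hm0 h3 (by norm_num)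
          _ = (n : ℝ) ^ (4 / 3 : ℝ) := by
              rw [← Real.rpow_mul hn0]
              norm_num
      have hxn : x ≤ n := by
        rw [hx, div_le_iff₀ hm23]
        have h3 : (n : ℝ) ≤ (m : ℝ) ^ (2:ℝ) := by
          rw [Real.rpow_two]
          exact_mod_cast hmn
        have h4 : (n : ℝ) ^ (1 / 3 : ℝ) ≤ (m : ℝ) ^ (2 / 3 : ℝ) := by
          calc (n : ℝ) ^ (1 / 3 : ℝ) ≤ ((m : ℝ) ^ (2:ℝ)) ^ (1 / 3 : ℝ) :=
                Real.rpow_le_rpow hn0 h3 (by norm_num)
            _ = (m : ℝ) ^ (2 / 3 : ℝ) := by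
                rw [← Real.rpow_mul hm0]
                norm_num
        calc (n : ℝ) ^ (4 / 3 : ℝ) = n * (n : ℝ) ^ (1 / 3 : ℝ) := by
              nth_rewrite 2 [← Real.rpow_one (n:ℝ)]
              rw [← Real.rpow_add hn1]
              norm_num
          _ ≤ n * (m : ℝ) ^ (2 / 3 : ℝ) := mul_le_mul_of_nonneg_left h4 hn0
      have hn2x : (n:ℝ) ^ 2 / x = P := by
        rw [hx, hP, div_div_eq_mul_div, div_eq_iff (by positivity)]
        have : (n:ℝ) ^ 2 = (n:ℝ) ^ (2/3:ℝ) * (n:ℝ) ^ (4/3:ℝ) := by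
          rw [← Real.rpow_add hn1, ← Real.rpow_two]
          norm_num
        rw [this]
        ring
      have hsx : Real.sqrt x * m = P := by
        have h3 : Real.sqrt x = (n:ℝ) ^ (2/3:ℝ) / (m:ℝ) ^ (1/3:ℝ) := by
          rw [Real.sqrt_eq_rpow, hx, Real.div_rpow (by positivity) (by positivity),
            ← Real.rpow_mul hn0, ← Real.rpow_mul hm0]
          norm_num
        have h4 : (m:ℝ) = (m:ℝ) ^ (2/3:ℝ) * (m:ℝ) ^ (1/3:ℝ) := by
          rw [← Real.rpow_add hm1]
          norm_num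
        have h5 : (0:ℝ) < (m:ℝ) ^ (1/3:ℝ) := Real.rpow_pos_of_pos hm1 _
        rw [h3, hP]
        calc (n:ℝ) ^ (2/3:ℝ) / (m:ℝ) ^ (1/3:ℝ) * m
            = (n:ℝ) ^ (2/3:ℝ) / (m:ℝ) ^ (1/3:ℝ) * ((m:ℝ) ^ (2/3:ℝ) * (m:ℝ) ^ (1/3:ℝ)) := by
              rw [← h4]
          _ = (m : ℝ) ^ (2 / 3 : ℝ) * (n : ℝ) ^ (2 / 3 : ℝ) := by
              field_simp
      set L := ⌈x⌉₊ with hL
      have hxL : x ≤ L := Nat.le_ceil x
      have hLpos : 0 < L := Nat.ceil_pos.2 (by linarith)
      have hL2 : (L:ℝ) ≤ 2 * x := by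
        have := Nat.ceil_lt_add_one (show 0 ≤ x by linarith)
        rw [← hL] at this
        linarith
      have hLn : (L:ℝ) ≤ n := by
        have : L ≤ n := Nat.ceil_le.2 hxn
        exact_mod_cast this
      have hL1 : (0:ℝ) < L := by exact_mod_cast hLpos
      obtain ⟨K, hK1, hK2⟩ := poor D pts hodd h2 L hLpos
      have hr := rich pts univ D.thr hW μ L hp
      rw [card_univ, ← hn] at hr
      rw [← hn] at hK1
      set Ir : ℝ := ((∑ q ∈ pts.filter (fun q => L < (D.thr q).card), (D.thr q).card : ℕ) : ℝ)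
        with hIr
      have hr' : (L:ℝ) * Ir ≤ μ * (n:ℝ) ^ 2 := by
        rw [hIr]
        exact_mod_cast hr
      have hIr1 : Ir ≤ μ * P := by
        have h3 : Ir ≤ μ * ((n:ℝ) ^ 2 / L) := by
          rw [← mul_div_assoc, le_div_iff₀ hL1, mul_comm]
          exact hr'
        have h4 : (n:ℝ) ^ 2 / L ≤ P := by
          rw [← hn2x]
          exact div_le_div_of_nonneg_left (by positivity) (by linarith) hxL
        exact h3.trans (mul_le_mul_of_nonneg_left h4 hμ0)
      have hsplit : I = Ir + ((∑ q ∈ pts.filter (fun q => (D.thr q).card ≤ L),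
          (D.thr q).card : ℕ) : ℝ) := by
        rw [hI, hIr, ← Nat.cast_add]
        congr 1
        rw [← sum_filter_add_sum_filter_not pts (fun q => L < (D.thr q).card)]
        congr 2
        ext q
        simp
      have hK3 : 4 * (L:ℝ) * K ≤ 20 * n + (8 * μ + 8) * P := by
        have h3 : (L:ℝ) ^ 2 * K ≤ 2 * L * n + 3 * (L:ℝ) ^ 2 + (2 * μ + 2) * (n:ℝ) ^ 2 := by
          exact_mod_cast hK1
        have h4 : (L:ℝ) * K ≤ 2 * n + 3 * L + (2 * μ + 2) * ((n:ℝ) ^ 2 / L) := by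
          have h5 : (L:ℝ) * (L * K) ≤ L * (2 * n + 3 * L + (2 * μ + 2) * ((n:ℝ) ^ 2 / L)) := by
            have h6 : (L:ℝ) * (2 * n + 3 * L + (2 * μ + 2) * ((n:ℝ) ^ 2 / L)) =
                2 * L * n + 3 * (L:ℝ) ^ 2 + (2 * μ + 2) * (n:ℝ) ^ 2 := by
              field_simp
            rw [h6]
            nlinarith
          exact le_of_mul_le_mul_left h5 hL1
        have h7 : (n:ℝ) ^ 2 / L ≤ P := by
          rw [← hn2x]
          exact div_le_div_of_nonneg_left (by positivity) (by linarith) hxL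
        have h8 : (2 * (μ:ℝ) + 2) * ((n:ℝ) ^ 2 / L) ≤ (2 * μ + 2) * P :=
          mul_le_mul_of_nonneg_left h7 (by positivity)
        nlinarith
      have hs1 : Real.sqrt (μ * (4 * L)) * m ≤ 4 * (μ + 1) * P := by
        have h3 : Real.sqrt (μ * (4 * L)) ≤ Real.sqrt μ * (Real.sqrt 8 * Real.sqrt x) := by
          rw [Real.sqrt_mul hμ0, ← Real.sqrt_mul (by norm_num : (0:ℝ) ≤ 8)]
          apply mul_le_mul_of_nonneg_left _ (Real.sqrt_nonneg _)
          apply Real.sqrt_le_sqrt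
          linarith
        have h8 : Real.sqrt 8 ≤ 4 := by
          rw [Real.sqrt_le_iff]; norm_num
        calc Real.sqrt (μ * (4 * L)) * m
            ≤ Real.sqrt μ * (Real.sqrt 8 * Real.sqrt x) * m :=
              mul_le_mul_of_nonneg_right h3 hm0
          _ = Real.sqrt μ * Real.sqrt 8 * (Real.sqrt x * m) := by ring
          _ = Real.sqrt μ * Real.sqrt 8 * P := by rw [hsx]
          _ ≤ (μ + 1) * 4 * P := by
              apply mul_le_mul_of_nonneg_right _ hP0
              exact mul_le_mul hμ h8 (Real.sqrt_nonneg _) (by positivity)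
          _ = 4 * (μ + 1) * P := by ring
      rw [hsplit]
      have hfin : Ir + ((∑ q ∈ pts.filter (fun q => (D.thr q).card ≤ L),
          (D.thr q).card : ℕ) : ℝ) ≤ μ * P + (4 * (μ + 1) * P + (20 * n + (8 * μ + 8) * P)) := by
        apply add_le_add hIr1
        exact hK2.trans (add_le_add hs1 hK3)
      refine hfin.trans ?_
      nlinarith [mul_nonneg hμ0 hn0, mul_nonneg hμ0 hm0, mul_nonneg hμ0 hP0]

end Pool.Agent.H22.PS
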