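import Mathlib

/-!
# Definitions for the Pach and Sharir theorem (MP_d34661_co)

A discrete arrangement: arc `i` is present at the times `τ` with `A i < τ < B i`, with height
`v τ i`.  Between consecutive times two arcs can change their order only through a tie.  At even
times there are no ties, and two arcs are tied at most `μ` times.
-/

namespace Pool.Agent.H22.PS

open Finset
open scoped Classical

noncomputable section

/-- a discrete arrangement of arcs -/
structure Arr (ι : Type) [Fintype ι] (μ : ℕ) where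
  A : ι → ℕ
  B : ι → ℕ
  M : ℕ
  hB : ∀ i, B i ≤ M
  v : ℕ → ι → ℝ
  cross : ∀ τ i j, (A i < τ ∧ τ + 1 < B i) → (A j < τ ∧ τ + 1 < B j) → v τ i < v τ j →
    v (τ + 1) i ≤ v (τ + 1) j
  tie : ∀ i j, i ≠ j → ((range M).filter fun τ => (A i < τ ∧ τ < B i) ∧ (A j < τ ∧ τ < B j) ∧
    v τ i = v τ j).card ≤ μ
  gen : ∀ τ, Even τ → ∀ i j, i ≠ j → (A i < τ ∧ τ < B i) → (A j < τ ∧ τ < B j) → v τ i ≠ v τ j

variable {ι : Type} [Fintype ι] {μ : ℕ}

/-- arc `i` is present at time `τ` -/
def Arr.act (D : Arr ι μ) (τ : ℕ) (i : ι) : Prop := D.A i < τ ∧ τ < D.B i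

/-- number of arcs present at time `τ` strictly below the height `y` -/
def Arr.low (D : Arr ι μ) (τ : ℕ) (y : ℝ) : ℕ :=
  (univ.filter fun j => D.act τ j ∧ D.v τ j < y).card

/-- rank of arc `i` at time `τ` -/
def Arr.rk (D : Arr ι μ) (τ : ℕ) (i : ι) : ℕ := D.low τ (D.v τ i)

/-- arcs through the point `q = (time, height)` -/
def Arr.thr (D : Arr ι μ) (q : ℕ × ℝ) : Finset ι :=
  univ.filter fun i => D.act q.1 i ∧ D.v q.1 i = q.2

/-- band of a rank: bands of width `L`, offset `c` -/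
def bd (L c r : ℕ) : ℕ := (r + c) / L

/-- arc `i` is present at the times `τ`, `τ + 1` and changes its band between them -/
def Arr.chg (D : Arr ι μ) (L c τ : ℕ) (i : ι) : Prop :=
  D.act τ i ∧ D.act (τ + 1) i ∧ bd L c (D.rk τ i) ≠ bd L c (D.rk (τ + 1) i)

/-- arc `i` is in band `β` at time `τ` -/
def Arr.inb (D : Arr ι μ) (L c β τ : ℕ) (i : ι) : Prop :=
  D.act τ i ∧ bd L c (D.rk τ i) = β

/-- arcs entering band `β` at time `τ` -/
def Arr.ent (D : Arr ι μ) (L c β τ : ℕ) : Finset ι :=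
  univ.filter fun i => D.inb L c β τ i ∧ ¬ D.inb L c β (τ - 1) i

/-- arcs through the poor points (at most `L` arcs through them) of `pts` at the odd time
`2 r + 1` whose level lies in band `β` -/
def Arr.U (D : Arr ι μ) (L c β : ℕ) (pts : Finset (ℕ × ℝ)) (r : ℕ) : Finset ι :=
  (pts.filter fun q => q.1 = 2 * r + 1 ∧ (D.thr q).card ≤ L ∧
    bd L c (D.low q.1 q.2) = β).biUnion D.thr

/-- real zero set of a polynomial in two variables -/
def Zs (f : MvPolynomial (Fin 2) ℝ) : Set (ℝ × ℝ) :=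
  {p | MvPolynomial.eval ![p.1, p.2] f = 0}

end

end Pool.Agent.H22.PS
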