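import Pool.Agent.H22.PS.Defs

/-!
# Irreducible components and the counting of components

(1) `comps`: take the zero sets of the elements of `UniqueFactorizationMonoid.normalizedFactors f`
(or `factors f`); their product is associated to `f`, every factor has total degree at least `1`
and the total degrees add up to that of `f` (`totalDegree_mul_of_isDomain`), so there are at most
`k` factors, each of total degree at most `k`. Induction (`WfDvdMonoid.induction_on_irreducible`)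
is also fine.
(2) `line_mult`: `cp γ` = set of components of `γ`. If a component `c` with at least `s` points of
`P` belonged to `t` curves of `Γ`, then `s` of these points and `t` of these curves would form a
forbidden configuration (`Finset.exists_subset_card_eq`). Hence double counting over the set
`Ls` of such components:
`∑_γ ∑_{c ∈ cp γ, #(P ∩ c) ≥ s} #(P ∩ c) = ∑_{c ∈ Ls} #(P ∩ c) * #{γ : c ∈ cp γ} ≤ t ∑_{c ∈ Ls} #(P ∩ c)`.
-/

namespace Pool.Agent.H22.PS

open Finset MvPolynomial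
open scoped Classical

private theorem Fac_unit {u : MvPolynomial (Fin 2) ℝ} (hu : IsUnit u) : Zs u = ∅ := by
  ext p
  simp only [Zs, Set.mem_ofPred_eq, Set.mem_empty_iff_false, iff_false]
  exact (hu.map (MvPolynomial.eval ![p.1, p.2])).ne_zero

private theorem Fac_deg {g : MvPolynomial (Fin 2) ℝ} (hg : Irreducible g) :
    1 ≤ g.totalDegree := by
  by_contra hcon
  have h0 : g.totalDegree = 0 := by omega
  rw [totalDegree_eq_zero_iff_eq_C] at h0
  have hc : g.coeff 0 ≠ 0 := by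
    intro h
    rw [h, map_zero] at h0
    exact hg.ne_zero h0
  exact hg.not_isUnit (h0 ▸ (isUnit_iff_ne_zero.2 hc).map (MvPolynomial.C (σ := Fin 2)))

private theorem Fac_comps (f : MvPolynomial (Fin 2) ℝ) : f ≠ 0 →
    ∃ S : Finset (Set (ℝ × ℝ)), S.card ≤ f.totalDegree ∧
      (∀ c ∈ S, ∃ g : MvPolynomial (Fin 2) ℝ, Irreducible g ∧
        g.totalDegree ≤ f.totalDegree ∧ c = Zs g) ∧
      (∀ c ∈ S, c ⊆ Zs f) ∧ (∀ p ∈ Zs f, ∃ c ∈ S, p ∈ c) := by
  induction f using WfDvdMonoid.induction_on_irreducible with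
  | zero => exact fun h => absurd rfl h
  | unit u hu =>
    intro _
    refine ⟨∅, by simp, by simp, by simp, fun p hp => ?_⟩
    rw [Fac_unit hu] at hp
    exact absurd hp (Set.notMem_empty p)
  | mul a g ha hg ih =>
    intro _
    obtain ⟨S, h1, h2, h3, h4⟩ := ih ha
    have hd : (g * a).totalDegree = g.totalDegree + a.totalDegree :=
      totalDegree_mul_of_isDomain hg.ne_zero ha
    have hg1 := Fac_deg hg
    have hz : ∀ p : ℝ × ℝ, p ∈ Zs (g * a) ↔ p ∈ Zs g ∨ p ∈ Zs a := by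
      intro p
      simp only [Zs, Set.mem_ofPred_eq, map_mul, mul_eq_zero]
    refine ⟨insert (Zs g) S, ?_, ?_, ?_, ?_⟩
    · have := Finset.card_insert_le (Zs g) S
      omega
    · intro c hc
      rcases Finset.mem_insert.1 hc with rfl | hc
      · exact ⟨g, hg, by omega, rfl⟩
      · obtain ⟨g', hg', hd', rfl⟩ := h2 c hc
        exact ⟨g', hg', by omega, rfl⟩
    · intro c hc p hp
      rcases Finset.mem_insert.1 hc with rfl | hc
      · exact (hz p).2 (Or.inl hp)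
      · exact (hz p).2 (Or.inr (h3 c hc hp))
    · intro p hp
      rcases (hz p).1 hp with hp | hp
      · exact ⟨Zs g, Finset.mem_insert_self _ _, hp⟩
      · obtain ⟨c, hc, hpc⟩ := h4 p hp
        exact ⟨c, Finset.mem_insert_of_mem hc, hpc⟩

theorem comps (k : ℕ) (f : MvPolynomial (Fin 2) ℝ) (hf : f ≠ 0) (hk : f.totalDegree ≤ k) :
    ∃ S : Finset (Set (ℝ × ℝ)), S.card ≤ k ∧
      (∀ c ∈ S, ∃ g : MvPolynomial (Fin 2) ℝ, Irreducible g ∧ g.totalDegree ≤ k ∧ c = Zs g) ∧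
      (∀ c ∈ S, c ⊆ Zs f) ∧ (∀ p ∈ Zs f, ∃ c ∈ S, p ∈ c) := by
  obtain ⟨S, h1, h2, h3, h4⟩ := Fac_comps f hf
  refine ⟨S, h1.trans hk, fun c hc => ?_, h3, h4⟩
  obtain ⟨g, hg, hd, rfl⟩ := h2 c hc
  exact ⟨g, hg, hd.trans hk, rfl⟩

theorem line_mult (s t : ℕ) (P : Finset (ℝ × ℝ)) (Γ : Finset (Set (ℝ × ℝ)))
    (hK : ¬ ∃ S ⊆ P, ∃ T ⊆ Γ, S.card = s ∧ T.card = t ∧ ∀ p ∈ S, ∀ γ ∈ T, p ∈ γ)
    (cp : Set (ℝ × ℝ) → Finset (Set (ℝ × ℝ))) (hcp : ∀ γ ∈ Γ, ∀ c ∈ cp γ, c ⊆ γ)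
    (Ls : Finset (Set (ℝ × ℝ)))
    (hLs : ∀ c, c ∈ Ls ↔ (∃ γ ∈ Γ, c ∈ cp γ) ∧ s ≤ (P.filter fun p => p ∈ c).card) :
    ∑ γ ∈ Γ, ∑ c ∈ (cp γ).filter (fun c => s ≤ (P.filter fun p => p ∈ c).card),
      (P.filter fun p => p ∈ c).card ≤ t * ∑ c ∈ Ls, (P.filter fun p => p ∈ c).card := by
  have hmult : ∀ c ∈ Ls, (Γ.filter fun γ => c ∈ cp γ).card ≤ t := by
    intro c hc
    by_contra hcon
    push Not at hcon
    obtain ⟨T, hT, hTc⟩ := Finset.exists_subset_card_eq hcon.le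
    obtain ⟨S, hS, hSc⟩ := Finset.exists_subset_card_eq ((hLs c).1 hc).2
    refine hK ⟨S, hS.trans (Finset.filter_subset _ _), T, hT.trans (Finset.filter_subset _ _),
      hSc, hTc, fun p hp γ hγ => ?_⟩
    have h1 := Finset.mem_filter.1 (hT hγ)
    exact hcp γ h1.1 c h1.2 (Finset.mem_filter.1 (hS hp)).2
  have h1 : ∀ γ ∈ Γ, ∑ c ∈ (cp γ).filter (fun c => s ≤ (P.filter fun p => p ∈ c).card),
      (P.filter fun p => p ∈ c).card =
      ∑ c ∈ Ls, if c ∈ cp γ then (P.filter fun p => p ∈ c).card else 0 := by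
    intro γ hγ
    rw [← Finset.sum_filter]
    refine Finset.sum_congr ?_ fun _ _ => rfl
    ext c
    rw [Finset.mem_filter, Finset.mem_filter, hLs c]
    constructor
    · rintro ⟨hc, hs⟩
      exact ⟨⟨⟨γ, hγ, hc⟩, hs⟩, hc⟩
    · rintro ⟨⟨_, hs⟩, hc⟩
      exact ⟨hc, hs⟩
  rw [Finset.sum_congr rfl h1, Finset.sum_comm, Finset.mul_sum]
  refine Finset.sum_le_sum fun c hc => ?_
  rw [← Finset.sum_filter, Finset.sum_const, smul_eq_mul]
  exact Nat.mul_le_mul_right _ (hmult c hc)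

end Pool.Agent.H22.PS
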