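import Pool.Agent.H22.PS.Alg

/-!
# Szemeredi and Trotter for lines

`Ls` is a finite set of sets `Zs g`, `g` irreducible of total degree at most `1` (so a line).
Split `Ls` into those `c` for which some such `g` has `pderiv 1 g ≠ 0`, and the others. For the
others `g` does not depend on `y`, so `c` is contained in a vertical line `x = x0` (it has a point,
otherwise it contributes nothing; `g` is associated to `X 0 - C x0`), in fact equal to it, and
different elements are disjoint: their total contribution is at most `#P`.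
For the first kind apply `ps_alg 1 1` with index type the subtype: two different lines have at most
one common point (`H19.RD.bez_pts`: `g`, `g'` irreducible and not associated, since associated
polynomials have the same zero set), and two different points are on at most one of the lines for
the same reason.
-/

namespace Pool.Agent.H22.PS

open Finset MvPolynomial
open scoped Classical

private theorem lines_inter (g h : MvPolynomial (Fin 2) ℝ) (hg : Irreducible g)
    (hh : Irreducible h) (hgd : g.totalDegree ≤ 1) (hhd : h.totalDegree ≤ 1) (hne : Zs g ≠ Zs h)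
    (p q : ℝ × ℝ) (hp : p ∈ Zs g ∧ p ∈ Zs h) (hq : q ∈ Zs g ∧ q ∈ Zs h) : p = q := by
  by_contra hpq
  have hrel : IsRelPrime g h := by
    rw [hg.isRelPrime_iff_not_dvd]
    intro hd
    have has : Associated g h := (hg.dvd_irreducible_iff_associated hh).1 hd
    obtain ⟨u, hu⟩ := has
    apply hne
    ext x
    simp only [Zs, Set.mem_ofPred_eq]
    rw [← hu, map_mul]
    have hu2 : eval ![x.1, x.2] (u : MvPolynomial (Fin 2) ℝ) ≠ 0 := by
      have := u.isUnit.map (eval ![x.1, x.2])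
      exact this.ne_zero
    constructor
    · intro h1
      rw [h1, zero_mul]
    · intro h1
      exact (mul_eq_zero.1 h1).resolve_right hu2
  have h1 := H19.RD.bez_pts g h hg.ne_zero hh.ne_zero hrel
    {![p.1, p.2], ![q.1, q.2]} (by
      intro t ht
      rw [Finset.mem_insert, Finset.mem_singleton] at ht
      rcases ht with rfl | rfl
      · exact ⟨hp.1, hp.2⟩
      · exact ⟨hq.1, hq.2⟩)
  have h2 : (![p.1, p.2] : Fin 2 → ℝ) ≠ ![q.1, q.2] := by
    intro h3
    apply hpq
    have h4 := congrFun h3 0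
    have h5 := congrFun h3 1
    simp only [Matrix.cons_val_zero, Matrix.cons_val_one] at h4 h5
    exact Prod.ext h4 h5
  rw [Finset.card_pair h2] at h1
  have h3 : g.totalDegree * h.totalDegree ≤ 1 * 1 := Nat.mul_le_mul hgd hhd
  omega

private theorem lines_vert (g : MvPolynomial (Fin 2) ℝ) (hg : Irreducible g)
    (hd : pderiv 1 g = 0) (p : ℝ × ℝ) (hp : p ∈ Zs g) :
    Zs g = {q | q.1 = p.1} := by
  have hall : ∀ y, eval ![p.1, y] g = 0 := by
    intro y
    rw [H19.RD.const_of_pderiv g hd p.1 y p.2]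
    exact hp
  have hdvd : g ∣ (X 0 - C p.1 : MvPolynomial (Fin 2) ℝ) := by
    by_contra hnd
    have hrel : IsRelPrime g (X 0 - C p.1 : MvPolynomial (Fin 2) ℝ) :=
      hg.isRelPrime_iff_not_dvd.2 hnd
    set K := g.totalDegree * (X 0 - C p.1 : MvPolynomial (Fin 2) ℝ).totalDegree with hK
    have h1 := H19.RD.bez_pts g (X 0 - C p.1) hg.ne_zero (H19.RD.lin_ne _ _) hrel
      ((Finset.range (K + 1)).image (fun n : ℕ => (![p.1, (n : ℝ)] : Fin 2 → ℝ))) (by
        intro t ht
        rw [Finset.mem_image] at ht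
        obtain ⟨n, _, rfl⟩ := ht
        refine ⟨hall _, ?_⟩
        simp)
    rw [Finset.card_image_of_injective, Finset.card_range] at h1
    · omega
    · intro a b hab
      have := congrFun hab 1
      simpa using this
  ext q
  simp only [Set.mem_ofPred_eq]
  constructor
  · intro hq
    obtain ⟨r, hr⟩ := hdvd
    have h1 := congrArg (eval ![q.1, q.2]) hr
    rw [map_mul] at h1
    have h2 : eval ![q.1, q.2] g = 0 := hq
    rw [h2, zero_mul] at h1
    simp only [map_sub, eval_X, eval_C, Matrix.cons_val_zero] at h1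
    linarith
  · intro hq
    show eval ![q.1, q.2] g = 0
    rw [hq]
    exact hall _

theorem lines : ∃ C : ℝ, 0 ≤ C ∧ ∀ (P : Finset (ℝ × ℝ)) (Ls : Finset (Set (ℝ × ℝ))),
    (∀ c ∈ Ls, ∃ g : MvPolynomial (Fin 2) ℝ, Irreducible g ∧ g.totalDegree ≤ 1 ∧ c = Zs g) →
    ((∑ c ∈ Ls, (P.filter fun p => p ∈ c).card : ℕ) : ℝ) ≤
      C * ((P.card : ℝ) ^ (2 / 3 : ℝ) * (Ls.card : ℝ) ^ (2 / 3 : ℝ) + P.card + Ls.card) := by
  obtain ⟨C₀, hC0, hC⟩ := ps_alg 1 1
  refine ⟨C₀ + 1, by linarith, fun P Ls hLs => ?_⟩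
  set L1 : Finset (Set (ℝ × ℝ)) := Ls.filter fun c => ∃ g : MvPolynomial (Fin 2) ℝ,
    Irreducible g ∧ g.totalDegree ≤ 1 ∧ pderiv 1 g ≠ 0 ∧ c = Zs g with hL1
  set L2 : Finset (Set (ℝ × ℝ)) := Ls.filter fun c => ¬ ∃ g : MvPolynomial (Fin 2) ℝ,
    Irreducible g ∧ g.totalDegree ≤ 1 ∧ pderiv 1 g ≠ 0 ∧ c = Zs g with hL2
  have hsplit : ∑ c ∈ Ls, (P.filter fun p => p ∈ c).card =
      ∑ c ∈ L1, (P.filter fun p => p ∈ c).card + ∑ c ∈ L2, (P.filter fun p => p ∈ c).card :=
    (Finset.sum_filter_add_sum_filter_not _ _ _).symm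
  -- the vertical lines
  have hv : ∑ c ∈ L2, (P.filter fun p => p ∈ c).card ≤ P.card := by
    have h1 : ∀ c ∈ L2, ∀ p ∈ c, c = {q : ℝ × ℝ | q.1 = p.1} := by
      intro c hc p hp
      rw [hL2, Finset.mem_filter] at hc
      obtain ⟨g, hg1, hg2, hg3⟩ := hLs c hc.1
      have hd : pderiv 1 g = 0 := by
        by_contra hd
        exact hc.2 ⟨g, hg1, hg2, hd, hg3⟩
      rw [hg3]
      rw [hg3] at hp
      exact lines_vert g hg1 hd p hp
    have h2 : ∑ c ∈ L2, (P.filter fun p => p ∈ c).card =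
        ∑ p ∈ P, (L2.filter fun c => p ∈ c).card :=
      (Finset.sum_card_bipartiteAbove_eq_sum_card_bipartiteBelow (s := P) (t := L2)
        (fun (p : ℝ × ℝ) (c : Set (ℝ × ℝ)) => p ∈ c)).symm
    rw [h2]
    calc ∑ p ∈ P, (L2.filter fun c => p ∈ c).card ≤ ∑ p ∈ P, 1 := by
          apply Finset.sum_le_sum
          intro p _
          rw [Finset.card_le_one]
          intro a ha b hb
          rw [Finset.mem_filter] at ha hb
          rw [h1 a ha.1 p ha.2, h1 b hb.1 p hb.2]
      _ = P.card := by simp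
  -- the other lines
  have hg : ∀ c : L1, ∃ g : MvPolynomial (Fin 2) ℝ,
      Irreducible g ∧ g.totalDegree ≤ 1 ∧ pderiv 1 g ≠ 0 ∧ (c : Set (ℝ × ℝ)) = Zs g := by
    rintro ⟨c, hc⟩
    exact (Finset.mem_filter.1 hc).2
  choose g hg1 hg2 hg3 hg4 using hg
  have hZne : ∀ i j : L1, i ≠ j → Zs (g i) ≠ Zs (g j) := by
    intro i j hij h1
    apply hij
    apply Subtype.ext
    rw [hg4 i, hg4 j, h1]
  have hmain := hC L1 g P (fun i => ⟨hg1 i, hg2 i, hg3 i⟩) (by
    intro i j hij
    by_cases hne : (Zs (g i) ∩ Zs (g j)).Nonempty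
    · obtain ⟨p, hp⟩ := hne
      refine ⟨{p}, by simp, ?_⟩
      intro q hq
      rw [Finset.coe_singleton, Set.mem_singleton_iff]
      exact lines_inter (g i) (g j) (hg1 i) (hg1 j) (hg2 i) (hg2 j) (hZne i j hij) q p hq hp
    · refine ⟨∅, by simp, ?_⟩
      rw [Set.not_nonempty_iff_eq_empty.1 hne]
      simp) (by
    intro p _ q _ hpq
    rw [Finset.card_le_one]
    intro i hi j hj
    rw [Finset.mem_filter] at hi hj
    by_contra hij
    exact hpq (lines_inter (g i) (g j) (hg1 i) (hg1 j) (hg2 i) (hg2 j) (hZne i j hij) p q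
      ⟨hi.2.1, hj.2.1⟩ ⟨hi.2.2, hj.2.2⟩))
  have hsum : ∑ p ∈ P, (univ.filter fun i : L1 => p ∈ Zs (g i)).card =
      ∑ c ∈ L1, (P.filter fun p => p ∈ c).card := by
    have h2 : ∑ c ∈ L1, (P.filter fun p => p ∈ c).card =
        ∑ p ∈ P, (L1.filter fun c => p ∈ c).card :=
      (Finset.sum_card_bipartiteAbove_eq_sum_card_bipartiteBelow (s := P) (t := L1)
        (fun (p : ℝ × ℝ) (c : Set (ℝ × ℝ)) => p ∈ c)).symm
    rw [h2]
    apply Finset.sum_congr rfl
    intro p _
    have h3 : (univ.filter fun i : L1 => p ∈ Zs (g i)) =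
        (univ.filter fun i : L1 => p ∈ (i : Set (ℝ × ℝ))) := by
      apply Finset.filter_congr
      intro i _
      rw [hg4 i]
    rw [h3]
    rw [← Finset.card_map (Function.Embedding.subtype (fun c => c ∈ L1))]
    congr 1
    ext c
    simp only [Finset.mem_map, Finset.mem_filter, Finset.mem_univ, true_and,
      Function.Embedding.coe_subtype]
    constructor
    · rintro ⟨a, ha, rfl⟩
      exact ⟨a.2, ha⟩
    · rintro ⟨h4, h5⟩
      exact ⟨⟨c, h4⟩, h5, rfl⟩
  rw [hsum, Fintype.card_coe] at hmain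
  have hL1card : (L1.card : ℝ) ≤ Ls.card := by
    exact_mod_cast Finset.card_le_card (Finset.filter_subset _ _)
  have hL1pow : (L1.card : ℝ) ^ (2 / 3 : ℝ) ≤ (Ls.card : ℝ) ^ (2 / 3 : ℝ) :=
    Real.rpow_le_rpow (by positivity) hL1card (by norm_num)
  have hP0 : (0 : ℝ) ≤ (P.card : ℝ) ^ (2 / 3 : ℝ) := by positivity
  have hLs0 : (0 : ℝ) ≤ (Ls.card : ℝ) ^ (2 / 3 : ℝ) := by positivity
  have hPc : (0 : ℝ) ≤ (P.card : ℝ) := by positivity
  have hLc : (0 : ℝ) ≤ (Ls.card : ℝ) := by positivity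
  have hvR : ((∑ c ∈ L2, (P.filter fun p => p ∈ c).card : ℕ) : ℝ) ≤ P.card := by
    exact_mod_cast hv
  rw [hsplit, Nat.cast_add]
  have h1 : C₀ * ((P.card : ℝ) ^ (2 / 3 : ℝ) * (L1.card : ℝ) ^ (2 / 3 : ℝ) + P.card + L1.card) ≤
      C₀ * ((P.card : ℝ) ^ (2 / 3 : ℝ) * (Ls.card : ℝ) ^ (2 / 3 : ℝ) + P.card + Ls.card) := by
    apply mul_le_mul_of_nonneg_left _ hC0
    have := mul_le_mul_of_nonneg_left hL1pow hP0
    linarith
  have h2 : (P.card : ℝ) ≤
      (P.card : ℝ) ^ (2 / 3 : ℝ) * (Ls.card : ℝ) ^ (2 / 3 : ℝ) + P.card + Ls.card := by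
    have := mul_nonneg hP0 hLs0
    linarith
  linarith

end Pool.Agent.H22.PS
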