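import Mathlib

/-!
# Local structure of simple roots

`F` is jointly continuous with a jointly continuous `y`-derivative `F'`; the roots of `F x0 .` are
the finitely many `y ∈ Y`, all simple, and for `x` near `x0` all roots are bounded by `R`.
Claim: there are disjoint open intervals `(l y, u y)` around the roots `y ∈ Y` of `F x0`, ordered
like `Y` and as small as we like, such that for `x` near `x0` every root of `F x` lies in one of
them and every one of them contains exactly one root of `F x`.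

Proof. Choose `ε1 ≤ ε` so small that the closed intervals `[y - ε1, y + ε1]` are disjoint and
`F' x0` has no zero on them (simple roots, continuity); `F' ` keeps a constant sign on
`U × [y - ε1, y + ε1]` for a neighbourhood `U` of `x0` (tube lemma / compactness, or continuity of
`(x, t) ↦ F' x t` at `(x0, y)` only, choosing `ε1` and `δ` together). `F x0 (y ± ε1)` are non-zero
of opposite signs, and this persists for `x` near `x0`: existence by the intermediate value
theorem, uniqueness since `F x` is strictly monotone on the interval. Nothing else: the set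
`{x0} × K`, `K = [-R, R] \ ⋃ (y - ε1, y + ε1)`, is compact and `F ≠ 0` on it, so `F ≠ 0` on
`U' × K` (tube lemma, `generalized_tube_lemma`), and `|y| ≤ R` for all roots.
-/

namespace Pool.Agent.H22.PS

open Filter Topology

/-- One simple root. -/
private theorem loc_one (F F' : ℝ → ℝ → ℝ) (hF : Continuous fun p : ℝ × ℝ => F p.1 p.2)
    (hd : ∀ x y, HasDerivAt (F x) (F' x y) y)
    (x0 y e r : ℝ) (he : 0 < e) (her : e < r) (h0 : F x0 y = 0)
    (hr : ∀ x t, |x - x0| < r → |t - y| < r → 0 < F' x0 y * F' x t) :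
    ∀ᶠ x in 𝓝 x0, ∃! t, t ∈ Set.Ioo (y - e) (y + e) ∧ F x t = 0 := by
  have hs : F' x0 y ≠ 0 := by
    intro h
    have := hr x0 y (by simpa using he.trans her) (by simpa using he.trans her)
    rw [h] at this
    simp at this
  have hmono : ∀ x, |x - x0| < r → StrictMonoOn (fun t => F' x0 y * F x t) (Set.Icc (y - e) (y + e)) := by
    intro x hx
    refine strictMonoOn_of_deriv_pos (convex_Icc _ _) ?_ ?_
    · refine Continuous.continuousOn ?_
      exact continuous_const.mul (hF.comp (continuous_const.prodMk continuous_id))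
    · intro t ht
      rw [interior_Icc] at ht
      have hd1 : HasDerivAt (fun t => F' x0 y * F x t) (F' x0 y * F' x t) t :=
        (hd x t).const_mul _
      rw [hd1.deriv]
      refine hr x t hx ?_
      rw [abs_lt]
      constructor <;> linarith [ht.1, ht.2]
  have hx0 : |x0 - x0| < r := by simpa using he.trans her
  have hpos : 0 < F' x0 y * F x0 (y + e) := by
    have := hmono x0 hx0 (a := y) (b := y + e) ⟨by linarith, by linarith⟩ ⟨by linarith, le_refl _⟩
      (by linarith)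
    simpa [h0] using this
  have hneg : F' x0 y * F x0 (y - e) < 0 := by
    have := hmono x0 hx0 (a := y - e) (b := y) ⟨le_refl _, by linarith⟩ ⟨by linarith, by linarith⟩
      (by linarith)
    simpa [h0] using this
  have hc : ∀ c : ℝ, Continuous fun x => F' x0 y * F x c := fun c =>
    continuous_const.mul (hF.comp (continuous_id.prodMk continuous_const))
  have e1 : ∀ᶠ x in 𝓝 x0, 0 < F' x0 y * F x (y + e) :=
    (hc (y + e)).continuousAt.eventually (lt_mem_nhds hpos)
  have e2 : ∀ᶠ x in 𝓝 x0, F' x0 y * F x (y - e) < 0 :=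
    (hc (y - e)).continuousAt.eventually (gt_mem_nhds hneg)
  have e3 : ∀ᶠ x in 𝓝 x0, |x - x0| < r := by
    have : Metric.ball x0 r ∈ 𝓝 x0 := Metric.ball_mem_nhds _ (he.trans her)
    filter_upwards [this] with x hx
    rwa [Metric.mem_ball, Real.dist_eq] at hx
  filter_upwards [e1, e2, e3] with x h1 h2 h3
  have hsub := intermediate_value_Ioo (f := fun t => F' x0 y * F x t) (a := y - e) (b := y + e)
    (by linarith) ((continuous_const.mul (hF.comp (continuous_const.prodMk continuous_id))).continuousOn)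
  obtain ⟨t, ht, ht0⟩ := hsub (show (0 : ℝ) ∈ Set.Ioo _ _ from ⟨h2, h1⟩)
  have ht0' : F x t = 0 := by
    rcases mul_eq_zero.1 ht0 with h | h
    · exact absurd h hs
    · exact h
  refine ⟨t, ⟨ht, ht0'⟩, ?_⟩
  rintro u ⟨hu, hu0⟩
  refine (hmono x h3).injOn (Set.Ioo_subset_Icc_self hu) (Set.Ioo_subset_Icc_self ht) ?_
  simp only [hu0, ht0']

theorem loc (F F' : ℝ → ℝ → ℝ) (hF : Continuous fun p : ℝ × ℝ => F p.1 p.2)
    (hF' : Continuous fun p : ℝ × ℝ => F' p.1 p.2) (hd : ∀ x y, HasDerivAt (F x) (F' x y) y)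
    (x0 : ℝ) (Y : Finset ℝ) (hY : ∀ y, y ∈ Y ↔ F x0 y = 0) (hs : ∀ y ∈ Y, F' x0 y ≠ 0)
    (R δ0 : ℝ) (hδ0 : 0 < δ0) (hR : ∀ x, |x - x0| < δ0 → ∀ y, F x y = 0 → |y| ≤ R)
    (ε : ℝ) (hε : 0 < ε) :
    ∃ δ > 0, ∃ ε1 > 0, ε1 ≤ ε ∧ (∀ y ∈ Y, ∀ y' ∈ Y, y < y' → y + ε1 ≤ y' - ε1) ∧
      ∀ x, |x - x0| < δ →
        (∀ y ∈ Y, ∃! t, t ∈ Set.Ioo (y - ε1) (y + ε1) ∧ F x t = 0) ∧
        (∀ t, F x t = 0 → ∃ y ∈ Y, t ∈ Set.Ioo (y - ε1) (y + ε1)) := by
  classical
  -- local radius of constancy of the sign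
  have hloc : ∀ y ∈ Y, ∃ r > 0, ∀ x t, |x - x0| < r → |t - y| < r → 0 < F' x0 y * F' x t := by
    intro y hy
    have hpos : 0 < F' x0 y * F' x0 y := mul_self_pos.2 (hs y hy)
    have hc : Continuous fun p : ℝ × ℝ => F' x0 y * F' p.1 p.2 := continuous_const.mul hF'
    have hev : ∀ᶠ p : ℝ × ℝ in 𝓝 (x0, y), 0 < F' x0 y * F' p.1 p.2 :=
      hc.continuousAt.eventually (lt_mem_nhds hpos)
    obtain ⟨r, hr, hball⟩ := Metric.eventually_nhds_iff.1 hev
    refine ⟨r, hr, fun x t hx ht => ?_⟩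
    refine hball (y := (x, t)) ?_
    rw [Prod.dist_eq, max_lt_iff, Real.dist_eq, Real.dist_eq]
    exact ⟨hx, ht⟩
  choose! r hr0 hr using hloc
  -- the choice of the width
  have hw : ∀ᶠ e in 𝓝[>] (0 : ℝ), 0 < e ∧ e ≤ ε ∧ (∀ y ∈ Y, e < r y) ∧
      (∀ y ∈ Y, ∀ y' ∈ Y, y < y' → y + e ≤ y' - e) := by
    have a1 : ∀ᶠ e in 𝓝[>] (0 : ℝ), 0 < e := self_mem_nhdsWithin
    have a2 : ∀ᶠ e in 𝓝[>] (0 : ℝ), e ≤ ε := by
      have : ∀ᶠ e in 𝓝 (0 : ℝ), e < ε := gt_mem_nhds hε
      exact (this.filter_mono nhdsWithin_le_nhds).mono fun e he => he.le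
    have a3 : ∀ᶠ e in 𝓝[>] (0 : ℝ), ∀ y ∈ Y, e < r y := by
      rw [Filter.eventually_all_finset]
      intro y hy
      have : ∀ᶠ e in 𝓝 (0 : ℝ), e < r y := gt_mem_nhds (hr0 y hy)
      exact this.filter_mono nhdsWithin_le_nhds
    have a4 : ∀ᶠ e in 𝓝[>] (0 : ℝ), ∀ y ∈ Y, ∀ y' ∈ Y, y < y' → y + e ≤ y' - e := by
      rw [Filter.eventually_all_finset]
      intro y hy
      rw [Filter.eventually_all_finset]
      intro y' hy'
      by_cases hlt : y < y'
      · have : ∀ᶠ e in 𝓝 (0 : ℝ), e < (y' - y) / 2 := gt_mem_nhds (by linarith)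
        refine (this.filter_mono nhdsWithin_le_nhds).mono fun e he _ => by linarith
      · exact Filter.Eventually.of_forall fun e h => absurd h hlt
    filter_upwards [a1, a2, a3, a4] with e h1 h2 h3 h4
    exact ⟨h1, h2, h3, h4⟩
  obtain ⟨e, he0, heε, her, hsep⟩ := hw.exists
  -- existence and uniqueness near every root
  have hA : ∀ᶠ x in 𝓝 x0, ∀ y ∈ Y, ∃! t, t ∈ Set.Ioo (y - e) (y + e) ∧ F x t = 0 := by
    rw [Filter.eventually_all_finset]
    intro y hy
    exact loc_one F F' hF hd x0 y e (r y) he0 (her y hy) ((hY y).1 hy) (hr y hy)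
  -- no other roots
  have hK : IsCompact (Set.Icc (-R) R \ ⋃ y ∈ Y, Set.Ioo (y - e) (y + e)) := by
    refine isCompact_Icc.diff ?_
    exact isOpen_biUnion fun y _ => isOpen_Ioo
  have hB : ∀ᶠ x in 𝓝 x0, ∀ t ∈ (Set.Icc (-R) R \ ⋃ y ∈ Y, Set.Ioo (y - e) (y + e)),
      F x t ≠ 0 := by
    refine hK.eventually_forall_of_forall_eventually (P := fun x t => F x t ≠ 0) ?_
    intro t ht
    have h0 : F x0 t ≠ 0 := by
      intro h
      refine ht.2 ?_
      rw [Set.mem_iUnion₂]
      exact ⟨t, (hY t).2 h, by constructor <;> linarith⟩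
    exact hF.continuousAt.eventually_ne h0
  have hC : ∀ᶠ x in 𝓝 x0, |x - x0| < δ0 := by
    have : Metric.ball x0 δ0 ∈ 𝓝 x0 := Metric.ball_mem_nhds _ hδ0
    filter_upwards [this] with x hx
    rwa [Metric.mem_ball, Real.dist_eq] at hx
  obtain ⟨δ, hδ, hall⟩ := Metric.eventually_nhds_iff.1 ((hA.and hB).and hC)
  refine ⟨δ, hδ, e, he0, heε, hsep, ?_⟩
  intro x hx
  obtain ⟨⟨h1, h2⟩, h3⟩ := hall (y := x) (by rwa [Real.dist_eq])
  refine ⟨h1, ?_⟩
  intro t ht
  by_contra hcon
  push Not at hcon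
  refine h2 t ⟨?_, ?_⟩ ht
  · exact abs_le.1 (hR x h3 t ht)
  · rw [Set.mem_iUnion₂]
    rintro ⟨y, hy, hty⟩
    exact hcon y hy hty

end Pool.Agent.H22.PS
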