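import Pool.Agent.H22.PS.Trans
import Pool.Agent.H22.PS.Lines
import Pool.Agent.H22.PS.Fac

/-!
# Incidences of a point set with small sumset
-/

namespace Pool.Agent.H22.PS

open Finset MvPolynomial
open scoped Classical Pointwise

theorem main (s t k : ℕ) : ∃ C : ℝ, 0 ≤ C ∧ ∀ (P : Finset (ℝ × ℝ)) (Γ : Finset (Set (ℝ × ℝ))),
    (∀ γ ∈ Γ, ∃ f : MvPolynomial (Fin 2) ℝ, f ≠ 0 ∧ f.totalDegree ≤ k ∧ γ = Zs f) →
    (¬ ∃ S ⊆ P, ∃ T ⊆ Γ, S.card = s ∧ T.card = t ∧ ∀ p ∈ S, ∀ γ ∈ T, p ∈ γ) →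
    ∀ T : Finset (ℝ × ℝ), T.Nonempty →
    ((∑ γ ∈ Γ, (P.filter fun p => p ∈ γ).card : ℕ) : ℝ) ≤
      C * ((P.card : ℝ) ^ (2 / 3 : ℝ) * (Γ.card : ℝ) ^ (2 / 3 : ℝ) + P.card + Γ.card +
        Γ.card * (((P + T).card : ℝ) ^ (2 / 3 : ℝ) / (T.card : ℝ) ^ (1 / 3 : ℝ) +
          (P + T).card / T.card)) := by
  obtain ⟨C1, hC1, htr⟩ := trans_bound k
  obtain ⟨C2, hC2, hli⟩ := lines
  refine ⟨k * C1 + k * s + t * C2 * (k + 1), by positivity, ?_⟩
  intro P Γ hΓ hK T hT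
  set X : ℝ := ((P + T).card : ℝ) ^ (2 / 3 : ℝ) / (T.card : ℝ) ^ (1 / 3 : ℝ) +
    (P + T).card / T.card with hX
  have hX0 : 0 ≤ X := by positivity
  -- components
  have hcomp : ∀ γ : Set (ℝ × ℝ), ∃ S : Finset (Set (ℝ × ℝ)), S.card ≤ k ∧ (γ ∈ Γ →
      (∀ c ∈ S, ∃ g : MvPolynomial (Fin 2) ℝ, Irreducible g ∧ g.totalDegree ≤ k ∧ c = Zs g) ∧
      (∀ c ∈ S, c ⊆ γ) ∧ (∀ p ∈ γ, ∃ c ∈ S, p ∈ c)) := by
    intro γ
    by_cases h : γ ∈ Γ
    · obtain ⟨f, hf, hfk, rfl⟩ := hΓ γ h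
      obtain ⟨S, h1, h2, h3, h4⟩ := comps k f hf hfk
      exact ⟨S, h1, fun _ => ⟨h2, h3, h4⟩⟩
    · exact ⟨∅, by simp, fun h' => absurd h' h⟩
  choose cp0 hcard hcp using hcomp
  let isL : Set (ℝ × ℝ) → Prop := fun c =>
    ∃ g : MvPolynomial (Fin 2) ℝ, Irreducible g ∧ g.totalDegree ≤ 1 ∧ c = Zs g
  let cp : Set (ℝ × ℝ) → Finset (Set (ℝ × ℝ)) := fun γ => (cp0 γ).filter isL
  let N : Set (ℝ × ℝ) → ℕ := fun c => (P.filter fun p => p ∈ c).card
  -- non-linear components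
  have hnl : ∀ γ ∈ Γ, ∀ c ∈ cp0 γ, ¬ isL c → (N c : ℝ) ≤ C1 * (X + 1) := by
    intro γ hγ c hc hcl
    obtain ⟨g, hg, hgk, rfl⟩ := (hcp γ hγ).1 c hc
    have h2 : 2 ≤ g.totalDegree := by
      by_contra hcon
      exact hcl ⟨g, hg, by omega, rfl⟩
    exact htr g hg h2 hgk P T hT
  have hcov : ∀ γ ∈ Γ, N γ ≤ ∑ c ∈ cp0 γ, N c := by
    intro γ hγ
    have h1 : P.filter (fun p => p ∈ γ) ⊆ (cp0 γ).biUnion fun c => P.filter fun p => p ∈ c := by
      intro p hp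
      rw [mem_filter] at hp
      obtain ⟨c, hc, hpc⟩ := (hcp γ hγ).2.2 p hp.2
      rw [mem_biUnion]
      exact ⟨c, hc, by rw [mem_filter]; exact ⟨hp.1, hpc⟩⟩
    exact (card_le_card h1).trans card_biUnion_le
  have hone : ∀ γ ∈ Γ, (N γ : ℝ) ≤ k * (C1 * (X + 1)) + k * s +
      ((∑ c ∈ (cp γ).filter (fun c => s ≤ (P.filter fun p => p ∈ c).card),
        (P.filter fun p => p ∈ c).card : ℕ) : ℝ) := by
    intro γ hγ
    have h1 : ∑ c ∈ cp0 γ, N c = ∑ c ∈ (cp0 γ).filter (fun c => ¬ isL c), N c +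
        (∑ c ∈ (cp γ).filter (fun c => ¬ s ≤ N c), N c +
          ∑ c ∈ (cp γ).filter (fun c => s ≤ N c), N c) := by
      rw [add_comm (∑ c ∈ (cp γ).filter (fun c => ¬ s ≤ N c), N c),
        sum_filter_add_sum_filter_not (cp γ) (fun c => s ≤ N c), add_comm]
      exact (sum_filter_add_sum_filter_not (cp0 γ) isL _).symm
    have hkc : ((cp0 γ).card : ℝ) ≤ k := by exact_mod_cast hcard γ
    have h2 : ((∑ c ∈ (cp0 γ).filter (fun c => ¬ isL c), N c : ℕ) : ℝ) ≤ k * (C1 * (X + 1)) := by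
      rw [Nat.cast_sum]
      calc ∑ c ∈ (cp0 γ).filter (fun c => ¬ isL c), (N c : ℝ)
          ≤ ∑ c ∈ (cp0 γ).filter (fun c => ¬ isL c), C1 * (X + 1) := by
            apply sum_le_sum
            intro c hc
            rw [mem_filter] at hc
            exact hnl γ hγ c hc.1 hc.2
        _ = ((cp0 γ).filter (fun c => ¬ isL c)).card * (C1 * (X + 1)) := by
            rw [sum_const, nsmul_eq_mul]
        _ ≤ k * (C1 * (X + 1)) := by
            apply mul_le_mul_of_nonneg_right _ (by positivity)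
            refine le_trans ?_ hkc
            exact_mod_cast card_le_card (filter_subset _ _)
    have h3 : ((∑ c ∈ (cp γ).filter (fun c => ¬ s ≤ N c), N c : ℕ) : ℝ) ≤ k * s := by
      have h4 : ∑ c ∈ (cp γ).filter (fun c => ¬ s ≤ N c), N c ≤ k * s := by
        calc ∑ c ∈ (cp γ).filter (fun c => ¬ s ≤ N c), N c
            ≤ ∑ c ∈ (cp γ).filter (fun c => ¬ s ≤ N c), s := by
              apply sum_le_sum
              intro c hc
              rw [mem_filter] at hc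
              omega
          _ = ((cp γ).filter (fun c => ¬ s ≤ N c)).card * s := by
              rw [sum_const, smul_eq_mul]
          _ ≤ k * s := by
              apply Nat.mul_le_mul_right
              refine le_trans ?_ (hcard γ)
              exact (card_le_card (filter_subset _ _)).trans (card_le_card (filter_subset _ _))
      exact_mod_cast h4
    have h5 : (N γ : ℝ) ≤ ((∑ c ∈ cp0 γ, N c : ℕ) : ℝ) := by exact_mod_cast hcov γ hγ
    rw [h1, Nat.cast_add, Nat.cast_add] at h5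
    linarith
  -- lines
  set Ls : Finset (Set (ℝ × ℝ)) := (Γ.biUnion cp).filter fun c => s ≤ N c with hLs
  have hmult := line_mult s t P Γ hK cp (fun γ hγ c hc => (hcp γ hγ).2.1 c (mem_filter.1 hc).1) Ls
    (by
      intro c
      rw [hLs, mem_filter, mem_biUnion])
  have hLl := hli P Ls (by
    intro c hc
    rw [hLs, mem_filter, mem_biUnion] at hc
    obtain ⟨⟨γ, hγ, hc⟩, -⟩ := hc
    exact (mem_filter.1 hc).2)
  have hLc : (Ls.card : ℝ) ≤ k * Γ.card := by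
    have h1 : Ls.card ≤ Γ.card * k := by
      refine (card_le_card (filter_subset _ _)).trans ?_
      apply card_biUnion_le_card_mul
      intro γ _
      exact (card_le_card (filter_subset _ _)).trans (hcard γ)
    rw [mul_comm]
    exact_mod_cast h1
  have hk0 : (0:ℝ) ≤ k := Nat.cast_nonneg _
  have ht0 : (0:ℝ) ≤ t := Nat.cast_nonneg _
  have hs0 : (0:ℝ) ≤ s := Nat.cast_nonneg _
  have hP0 : (0:ℝ) ≤ P.card := Nat.cast_nonneg _
  have hG0 : (0:ℝ) ≤ Γ.card := Nat.cast_nonneg _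
  have hLp : (Ls.card : ℝ) ^ (2 / 3 : ℝ) ≤ (k + 1) * (Γ.card : ℝ) ^ (2 / 3 : ℝ) := by
    calc (Ls.card : ℝ) ^ (2 / 3 : ℝ) ≤ ((k + 1) * Γ.card : ℝ) ^ (2 / 3 : ℝ) := by
          apply Real.rpow_le_rpow (Nat.cast_nonneg _) _ (by norm_num)
          nlinarith
      _ = (k + 1 : ℝ) ^ (2 / 3 : ℝ) * (Γ.card : ℝ) ^ (2 / 3 : ℝ) :=
          Real.mul_rpow (by positivity) hG0
      _ ≤ (k + 1) * (Γ.card : ℝ) ^ (2 / 3 : ℝ) := by
          apply mul_le_mul_of_nonneg_right _ (by positivity)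
          calc (k + 1 : ℝ) ^ (2 / 3 : ℝ) ≤ (k + 1 : ℝ) ^ (1 : ℝ) :=
                Real.rpow_le_rpow_of_exponent_le (by linarith) (by norm_num)
            _ = k + 1 := Real.rpow_one _
  have hsumL : ((∑ c ∈ Ls, (P.filter fun p => p ∈ c).card : ℕ) : ℝ) ≤
      C2 * (k + 1) * ((P.card : ℝ) ^ (2 / 3 : ℝ) * (Γ.card : ℝ) ^ (2 / 3 : ℝ) + P.card +
        Γ.card) := by
    refine hLl.trans ?_
    rw [mul_assoc]
    apply mul_le_mul_of_nonneg_left _ hC2
    have h1 : (P.card : ℝ) ^ (2 / 3 : ℝ) * (Ls.card : ℝ) ^ (2 / 3 : ℝ) ≤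
        (P.card : ℝ) ^ (2 / 3 : ℝ) * ((k + 1) * (Γ.card : ℝ) ^ (2 / 3 : ℝ)) :=
      mul_le_mul_of_nonneg_left hLp (by positivity)
    nlinarith [mul_nonneg hk0 hP0]
  have htot : ((∑ γ ∈ Γ, (P.filter fun p => p ∈ γ).card : ℕ) : ℝ) ≤
      Γ.card * (k * (C1 * (X + 1)) + k * s) + t * (C2 * (k + 1) *
        ((P.card : ℝ) ^ (2 / 3 : ℝ) * (Γ.card : ℝ) ^ (2 / 3 : ℝ) + P.card + Γ.card)) := by
    rw [Nat.cast_sum]
    calc ∑ γ ∈ Γ, ((P.filter fun p => p ∈ γ).card : ℝ)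
        ≤ ∑ γ ∈ Γ, (k * (C1 * (X + 1)) + k * s +
            ((∑ c ∈ (cp γ).filter (fun c => s ≤ (P.filter fun p => p ∈ c).card),
              (P.filter fun p => p ∈ c).card : ℕ) : ℝ)) := sum_le_sum hone
      _ = Γ.card * (k * (C1 * (X + 1)) + k * s) + ((∑ γ ∈ Γ,
            ∑ c ∈ (cp γ).filter (fun c => s ≤ (P.filter fun p => p ∈ c).card),
              (P.filter fun p => p ∈ c).card : ℕ) : ℝ) := by
          rw [sum_add_distrib, sum_const, nsmul_eq_mul, Nat.cast_sum]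
      _ ≤ Γ.card * (k * (C1 * (X + 1)) + k * s) +
            t * ((∑ c ∈ Ls, (P.filter fun p => p ∈ c).card : ℕ) : ℝ) := by
          apply add_le_add le_rfl
          exact_mod_cast hmult
      _ ≤ _ := by
          apply add_le_add le_rfl
          exact mul_le_mul_of_nonneg_left hsumL ht0
  refine htot.trans ?_
  set Y : ℝ := (P.card : ℝ) ^ (2 / 3 : ℝ) * (Γ.card : ℝ) ^ (2 / 3 : ℝ) with hY
  have hY0 : 0 ≤ Y := by positivity
  have e1 : 0 ≤ (Γ.card : ℝ) * X := by positivity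
  have a1 : (Γ.card : ℝ) * (k * (C1 * (X + 1))) ≤ k * C1 * (Y + P.card + Γ.card + Γ.card * X) := by
    have : (Γ.card : ℝ) * (k * (C1 * (X + 1))) = k * C1 * (Γ.card + Γ.card * X) := by ring
    rw [this]
    apply mul_le_mul_of_nonneg_left _ (by positivity)
    linarith
  have a2 : (Γ.card : ℝ) * (k * s) ≤ k * s * (Y + P.card + Γ.card + Γ.card * X) := by
    rw [mul_comm]
    apply mul_le_mul_of_nonneg_left _ (by positivity)
    linarith
  have a3 : (t : ℝ) * (C2 * (k + 1) * (Y + P.card + Γ.card)) ≤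
      t * C2 * (k + 1) * (Y + P.card + Γ.card + Γ.card * X) := by
    have : (t : ℝ) * (C2 * (k + 1) * (Y + P.card + Γ.card)) =
      t * C2 * (k + 1) * (Y + P.card + Γ.card) := by ring
    rw [this]
    apply mul_le_mul_of_nonneg_left _ (by positivity)
    linarith
  calc (Γ.card : ℝ) * (k * (C1 * (X + 1)) + k * s) + t * (C2 * (k + 1) * (Y + P.card + Γ.card))
      = (Γ.card : ℝ) * (k * (C1 * (X + 1))) + (Γ.card : ℝ) * (k * s) +
        t * (C2 * (k + 1) * (Y + P.card + Γ.card)) := by ring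
    _ ≤ k * C1 * (Y + P.card + Γ.card + Γ.card * X) +
        k * s * (Y + P.card + Γ.card + Γ.card * X) +
        t * C2 * (k + 1) * (Y + P.card + Γ.card + Γ.card * X) := by linarith
    _ = _ := by ring

end Pool.Agent.H22.PS
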