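import Pool.Agent.H22.PS.Bd

/-!
# Translates of a plane curve

`sh t f (x, y) = f (x - t.1, y - t.2)`.
`sh_irr`: `sh t` is a ring automorphism with inverse `sh (-t)` (check on `X i`, `C a`), so it
preserves irreducibility. `sh_deg`: `totalDegree` does not increase (each monomial is mapped to a
product of polynomials of total degree at most `1`), and by the inverse it is equal.
`sh_pd`: derivatives commute with translations: by induction on `f`, or compare evaluations:
both sides have the same value everywhere (`hasDerivAt_line` and uniqueness of derivatives).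
`not_dvd_shift`: suppose `f ∣ sh t f`, `t ≠ 0`; same degree, so `sh t f = C c * f`, `c ≠ 0`. If
`p ∈ Zs f`, then `p + m t ∈ Zs f` for all natural `m`
(`eval (p + m t) f = c ^ m * eval p f` up to a power of `c`). So `f` vanishes at
infinitely many points of the line through `p` with direction `t`; the linear form
`l = C t.2 * (X 0 - C p.1) - C t.1 * (X 1 - C p.2)` is irreducible and has infinitely many common
zeros with `f`, so they are not relatively prime (`H19.RD.bez_pts`), so `l ∣ f`, so `f` is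
associated to `l` and has total degree `1`: contradiction.
`shift_inter`: for `t ≠ t'` the zeros common to `sh t f`, `sh t' f` are at most `k * k`: if
`Zs f` is empty trivial, else `sh t f` does not divide `sh t' f = sh t (sh (t' - t) f)`; so they
are relatively prime and `bez_pts` applies.
`shift_through`: `p, q ∈ Zs (sh t f)` iff `p - t ∈ Zs f ∩ Zs (sh (-(q-p)) f)` (because
`eval (u + w) f = eval u (sh (-w) f)`), `q - p ≠ 0`, so `t ∈ p - (at most k * k points)`.
-/

namespace Pool.Agent.H22.PS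

open Finset MvPolynomial
open scoped Classical

/-- translate of `f` by `t` -/
noncomputable def sh (t : ℝ × ℝ) (f : MvPolynomial (Fin 2) ℝ) : MvPolynomial (Fin 2) ℝ :=
  bind₁ ![X 0 - C t.1, X 1 - C t.2] f

theorem sh_eval (t : ℝ × ℝ) (f : MvPolynomial (Fin 2) ℝ) (x y : ℝ) :
    eval ![x, y] (sh t f) = eval ![x - t.1, y - t.2] f := by
  rw [sh]
  have h := eval₂Hom_bind₁ (RingHom.id ℝ) (![x, y] : Fin 2 → ℝ)
    (![X 0 - C t.1, X 1 - C t.2] : Fin 2 → MvPolynomial (Fin 2) ℝ) f
  have h' : (fun i => (eval₂Hom (RingHom.id ℝ) (![x, y] : Fin 2 → ℝ))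
      ((![X 0 - C t.1, X 1 - C t.2] : Fin 2 → MvPolynomial (Fin 2) ℝ) i)) =
      ![x - t.1, y - t.2] := by
    funext i
    fin_cases i
    · simp
    · simp
  rw [h'] at h
  exact h

private theorem Shift_vec (v : Fin 2 → ℝ) : v = ![v 0, v 1] := by
  funext i
  fin_cases i <;> rfl

private theorem Shift_ext {f g : MvPolynomial (Fin 2) ℝ}
    (h : ∀ x y : ℝ, eval ![x, y] f = eval ![x, y] g) : f = g := by
  apply MvPolynomial.funext
  intro v
  rw [Shift_vec v]
  exact h _ _

private theorem Shift_sh_sh (s t : ℝ × ℝ) (f : MvPolynomial (Fin 2) ℝ) :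
    sh s (sh t f) = sh (s + t) f := by
  apply Shift_ext
  intro x y
  rw [sh_eval, sh_eval, sh_eval]
  congr 2
  simp only [Prod.fst_add, Prod.snd_add]
  congr 1
  · ring
  · congr 1
    ring

private theorem Shift_sh_zero (f : MvPolynomial (Fin 2) ℝ) : sh 0 f = f := by
  apply Shift_ext
  intro x y
  rw [sh_eval]
  simp

private theorem Shift_mul (t : ℝ × ℝ) (f g : MvPolynomial (Fin 2) ℝ) :
    sh t (f * g) = sh t f * sh t g := by
  rw [sh, sh, sh, map_mul]

/-- translation as a multiplicative automorphism -/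
private noncomputable def Shift_eq (t : ℝ × ℝ) :
    MvPolynomial (Fin 2) ℝ ≃* MvPolynomial (Fin 2) ℝ where
  toFun := sh t
  invFun := sh (-t)
  left_inv f := by
    rw [Shift_sh_sh, neg_add_cancel, Shift_sh_zero]
  right_inv f := by
    rw [Shift_sh_sh, add_neg_cancel, Shift_sh_zero]
  map_mul' := Shift_mul t

theorem sh_irr (t : ℝ × ℝ) (f : MvPolynomial (Fin 2) ℝ) (hf : Irreducible f) :
    Irreducible (sh t f) :=
  (MulEquiv.irreducible_iff (Shift_eq t)).mpr hf

private theorem Shift_deg_le (t : ℝ × ℝ) (f : MvPolynomial (Fin 2) ℝ) :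
    (sh t f).totalDegree ≤ f.totalDegree := by
  have h1 : sh t f = ∑ d ∈ f.support, C (f.coeff d) *
      ∏ i, (![X 0 - C t.1, X 1 - C t.2] : Fin 2 → MvPolynomial (Fin 2) ℝ) i ^ d i := by
    rw [sh, bind₁, aeval_def, eval₂_eq']
    rfl
  rw [h1]
  refine totalDegree_finsetSum_le fun d hd => ?_
  refine (totalDegree_mul _ _).trans ?_
  rw [totalDegree_C, zero_add, Fin.prod_univ_two]
  refine (totalDegree_mul _ _).trans ?_
  have h2 : ((![X 0 - C t.1, X 1 - C t.2] : Fin 2 → MvPolynomial (Fin 2) ℝ) 0 ^ d 0).totalDegree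
      ≤ d 0 := by
    refine (totalDegree_pow _ _).trans ?_
    have := H19.RD.deg_lin 0 t.1
    calc d 0 * (X 0 - C t.1 : MvPolynomial (Fin 2) ℝ).totalDegree ≤ d 0 * 1 :=
          Nat.mul_le_mul_left _ this
      _ = d 0 := mul_one _
  have h3 : ((![X 0 - C t.1, X 1 - C t.2] : Fin 2 → MvPolynomial (Fin 2) ℝ) 1 ^ d 1).totalDegree
      ≤ d 1 := by
    refine (totalDegree_pow _ _).trans ?_
    have := H19.RD.deg_lin 1 t.2
    calc d 1 * (X 1 - C t.2 : MvPolynomial (Fin 2) ℝ).totalDegree ≤ d 1 * 1 :=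
          Nat.mul_le_mul_left _ this
      _ = d 1 := mul_one _
  have h4 : d 0 + d 1 ≤ f.totalDegree := by
    have h5 := le_totalDegree hd
    rw [Finsupp.sum_fintype _ _ (fun _ => rfl), Fin.sum_univ_two] at h5
    exact h5
  exact (Nat.add_le_add h2 h3).trans h4

theorem sh_deg (t : ℝ × ℝ) (f : MvPolynomial (Fin 2) ℝ) :
    (sh t f).totalDegree = f.totalDegree := by
  refine le_antisymm (Shift_deg_le t f) ?_
  have h := Shift_deg_le (-t) (sh t f)
  rwa [Shift_sh_sh, neg_add_cancel, Shift_sh_zero] at h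

theorem sh_pd (t : ℝ × ℝ) (f : MvPolynomial (Fin 2) ℝ) :
    pderiv 1 (sh t f) = sh t (pderiv 1 f) := by
  apply Shift_ext
  intro x y
  rw [sh_eval]
  have h1 := H19.RD.hasDerivAt_line (sh t f) x y
  have h2 := (H19.RD.hasDerivAt_line f (x - t.1) (y - t.2)).comp_sub_const y t.2
  have h3 : (fun s => eval ![x, s] (sh t f)) = fun s => eval ![x - t.1, s - t.2] f := by
    funext s
    exact sh_eval t f x s
  rw [h3] at h1
  exact h1.unique h2

theorem sh_ne (t : ℝ × ℝ) (f : MvPolynomial (Fin 2) ℝ) (hf : f ≠ 0) : sh t f ≠ 0 := by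
  intro h
  apply hf
  have h1 : sh (-t) (sh t f) = f := by
    rw [Shift_sh_sh, neg_add_cancel, Shift_sh_zero]
  rw [← h1, h, sh, map_zero]

private theorem Shift_bez (P Q : MvPolynomial (Fin 2) ℝ) (hP : P ≠ 0) (hQ : Q ≠ 0)
    (h : IsRelPrime P Q) (T : Finset (ℝ × ℝ)) (hT : ∀ p ∈ T, p ∈ Zs P ∧ p ∈ Zs Q) :
    T.card ≤ P.totalDegree * Q.totalDegree := by
  have hinj : Function.Injective fun p : ℝ × ℝ => (![p.1, p.2] : Fin 2 → ℝ) := by
    intro p q hpq
    have h0 := congrFun hpq 0
    have h1 := congrFun hpq 1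
    exact Prod.ext h0 h1
  rw [← Finset.card_image_of_injective T hinj]
  refine H19.RD.bez_pts P Q hP hQ h _ ?_
  intro v hv
  obtain ⟨p, hp, rfl⟩ := Finset.mem_image.mp hv
  exact hT p hp

private theorem Shift_not_dvd (f : MvPolynomial (Fin 2) ℝ) (hf : Irreducible f)
    (h2 : 2 ≤ f.totalDegree) (t : ℝ × ℝ) (ht : t ≠ 0) (p : ℝ × ℝ) (hp : p ∈ Zs f) :
    ¬ f ∣ sh t f := by
  intro hdvd
  have hstep : ∀ q : ℝ × ℝ, q ∈ Zs f → (q.1 - t.1, q.2 - t.2) ∈ Zs f := by
    intro q hq
    obtain ⟨g, hg⟩ := hdvd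
    have h1 : eval ![q.1, q.2] (sh t f) = 0 := by
      rw [hg, map_mul]
      have : eval ![q.1, q.2] f = 0 := hq
      rw [this, zero_mul]
    rw [sh_eval] at h1
    exact h1
  have hm : ∀ m : ℕ, (p.1 - m * t.1, p.2 - m * t.2) ∈ Zs f := by
    intro m
    induction m with
    | zero => simpa using hp
    | succ m ih =>
      have h1 := hstep _ ih
      simp only at h1
      have e1 : p.1 - (m : ℝ) * t.1 - t.1 = p.1 - ((m + 1 : ℕ) : ℝ) * t.1 := by
        push_cast
        ring
      have e2 : p.2 - (m : ℝ) * t.2 - t.2 = p.2 - ((m + 1 : ℕ) : ℝ) * t.2 := by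
        push_cast
        ring
      rw [e1, e2] at h1
      exact h1
  set l : MvPolynomial (Fin 2) ℝ := C t.2 * (X 0 - C p.1) - C t.1 * (X 1 - C p.2) with hl
  have hle : ∀ x y : ℝ, eval ![x, y] l = t.2 * (x - p.1) - t.1 * (y - p.2) := by
    intro x y
    rw [hl]
    simp
  have hl0 : l ≠ 0 := by
    intro h0
    have h1 := hle (p.1 + t.2) (p.2 - t.1)
    rw [h0, map_zero] at h1
    have h3 : t.2 * t.2 + t.1 * t.1 = 0 := by linarith
    apply ht
    refine Prod.ext ?_ ?_
    · show t.1 = 0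
      nlinarith [mul_self_nonneg t.1, mul_self_nonneg t.2]
    · show t.2 = 0
      nlinarith [mul_self_nonneg t.1, mul_self_nonneg t.2]
  have hld : l.totalDegree ≤ 1 := by
    have h : ∀ (i : Fin 2) (u v : ℝ),
        (C u * (X i - C v) : MvPolynomial (Fin 2) ℝ).totalDegree ≤ 1 := by
      intro i u v
      refine (totalDegree_mul _ _).trans ?_
      rw [totalDegree_C, zero_add]
      exact H19.RD.deg_lin i v
    refine (totalDegree_sub _ _).trans ?_
    exact max_le (h _ _ _) (h _ _ _)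
  have hnr : ¬ IsRelPrime f l := by
    intro hrel
    have hinj : Function.Injective fun m : ℕ => ((p.1 - m * t.1, p.2 - m * t.2) : ℝ × ℝ) := by
      intro a b hab
      simp only [Prod.mk.injEq] at hab
      have e1 : ((a : ℝ) - b) * t.1 = 0 := by linarith [hab.1]
      have e2 : ((a : ℝ) - b) * t.2 = 0 := by linarith [hab.2]
      by_contra hne
      have hne' : ((a : ℝ) - b) ≠ 0 := by
        intro h0
        exact hne (by exact_mod_cast sub_eq_zero.mp h0)
      apply ht
      refine Prod.ext ?_ ?_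
      · exact (mul_eq_zero.mp e1).resolve_left hne'
      · exact (mul_eq_zero.mp e2).resolve_left hne'
    have h1 := Shift_bez f l hf.ne_zero hl0 hrel
      ((Finset.range (f.totalDegree + 1)).image
        fun m : ℕ => ((p.1 - m * t.1, p.2 - m * t.2) : ℝ × ℝ)) (by
        intro q hq
        obtain ⟨m, _, rfl⟩ := Finset.mem_image.mp hq
        refine ⟨hm m, ?_⟩
        show eval ![p.1 - m * t.1, p.2 - m * t.2] l = 0
        rw [hle]
        ring)
    rw [Finset.card_image_of_injective _ hinj, Finset.card_range] at h1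
    have h3 : f.totalDegree * l.totalDegree ≤ f.totalDegree * 1 := Nat.mul_le_mul_left _ hld
    omega
  have hfl : f ∣ l := by
    by_contra hcon
    exact hnr (hf.isRelPrime_iff_not_dvd.mpr hcon)
  have := H19.RD.deg_le_of_dvd f l hl0 hfl
  omega

theorem shift_inter (k : ℕ) (f : MvPolynomial (Fin 2) ℝ) (hf : Irreducible f)
    (h2 : 2 ≤ f.totalDegree) (hk : f.totalDegree ≤ k) (t t' : ℝ × ℝ) (ht : t ≠ t') :
    ∃ T : Finset (ℝ × ℝ), T.card ≤ k * k ∧ Zs (sh t f) ∩ Zs (sh t' f) ⊆ T := by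
  by_cases hne : (Zs f).Nonempty
  · obtain ⟨p, hp⟩ := hne
    have hrel : IsRelPrime (sh t f) (sh t' f) := by
      rw [(sh_irr t f hf).isRelPrime_iff_not_dvd]
      intro hd
      apply Shift_not_dvd f hf h2 (t' - t) (sub_ne_zero.mpr ht.symm) p hp
      obtain ⟨g, hg⟩ := hd
      refine ⟨sh (-t) g, ?_⟩
      have h1 := congrArg (sh (-t)) hg
      rw [Shift_mul, Shift_sh_sh, Shift_sh_sh, neg_add_cancel, Shift_sh_zero] at h1
      rw [← h1]
      congr 1
      ring
    have hb : ∀ T : Finset (ℝ × ℝ), (↑T ⊆ Zs (sh t f) ∩ Zs (sh t' f)) → T.card ≤ k * k := by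
      intro T hT
      refine (Shift_bez _ _ (sh_ne t f hf.ne_zero) (sh_ne t' f hf.ne_zero) hrel T
        fun p hp => hT hp).trans ?_
      rw [sh_deg, sh_deg]
      exact Nat.mul_le_mul hk hk
    have hfin : (Zs (sh t f) ∩ Zs (sh t' f)).Finite := by
      by_contra hinf
      obtain ⟨T, hT, hc⟩ := Set.Infinite.exists_subset_card_eq hinf (k * k + 1)
      have := hb T hT
      omega
    refine ⟨hfin.toFinset, hb _ ?_, ?_⟩
    · rw [Set.Finite.coe_toFinset]
    · rw [Set.Finite.coe_toFinset]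
  · refine ⟨∅, by simp, ?_⟩
    rintro p ⟨hp, _⟩
    exfalso
    apply hne
    refine ⟨(p.1 - t.1, p.2 - t.2), ?_⟩
    have h1 : eval ![p.1, p.2] (sh t f) = 0 := hp
    rw [sh_eval] at h1
    exact h1

theorem shift_through (k : ℕ) (f : MvPolynomial (Fin 2) ℝ) (hf : Irreducible f)
    (h2 : 2 ≤ f.totalDegree) (hk : f.totalDegree ≤ k) (p q : ℝ × ℝ) (hpq : p ≠ q)
    (T : Finset (ℝ × ℝ)) :
    (T.filter fun t => p ∈ Zs (sh t f) ∧ q ∈ Zs (sh t f)).card ≤ k * k := by
  obtain ⟨S, hS, hsub⟩ := shift_inter k f hf h2 hk 0 (p - q) (sub_ne_zero.mpr hpq).symm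
  refine le_trans ?_ hS
  refine Finset.card_le_card_of_injOn (fun t => p - t) ?_ ?_
  · intro t ht
    have ht' := (Finset.mem_filter.mp (Finset.mem_coe.mp ht)).2
    apply Finset.mem_coe.mpr
    apply Finset.mem_coe.mp
    apply hsub
    have e1 : eval ![p.1, p.2] (sh t f) = 0 := ht'.1
    have e2 : eval ![q.1, q.2] (sh t f) = 0 := ht'.2
    rw [sh_eval] at e1 e2
    refine ⟨?_, ?_⟩
    · rw [Shift_sh_zero]
      exact e1
    · show eval ![(p - t).1, (p - t).2] (sh (p - q) f) = 0
      rw [sh_eval]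
      rw [← e2]
      congr 2
      simp only [Prod.fst_sub, Prod.snd_sub]
      congr 1
      · ring
      · congr 1
        ring
  · intro a _ b _ hab
    exact sub_right_injective hab

end Pool.Agent.H22.PS
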