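import Pool.Agent.H22.PS.Alg
import Pool.Agent.H22.PS.Shift

/-!
# Points of a set with small sumset on a curve

Let `N` be the number of points of `P` on the irreducible curve `f` of degree `≥ 2`. If
`pderiv 1 f = 0` then `f` does not depend on `y` (`H19.RD.const_of_pderiv`) and, being
irreducible of degree `≥ 2`, has no real zero: a real zero `x0` of `f (., y)` for all `y` gives
infinitely many common zeros with `X 0 - C x0`, hence `X 0 - C x0 ∣ f` (`bez_pts`), degree `1`.
So `N = 0`. Otherwise apply `ps_alg k (k * k)` to the translates `sh t f`, `t ∈ T` (index type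
`T` as a subtype), and `Q = P + T`: hypotheses by `sh_irr`, `sh_deg`, `sh_pd`, `sh_ne`,
`shift_inter`, `shift_through`. Every translate contains at least `N` points of `P + T` (the
points `p + t`), so `N #T ≤ C (#(P+T)^(2/3) #T^(2/3) + #(P+T) + #T)`; divide by `#T`.
-/

namespace Pool.Agent.H22.PS

open Finset MvPolynomial
open scoped Classical Pointwise

private theorem Trans_empty (f : MvPolynomial (Fin 2) ℝ) (hf : Irreducible f)
    (h2 : 2 ≤ f.totalDegree) (h0 : pderiv 1 f = 0) (p : ℝ × ℝ) : p ∉ Zs f := by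
  intro hp
  have hp' : eval ![p.1, p.2] f = 0 := hp
  rcases hf.dvd_or_isRelPrime (n := X 0 - C p.1) with hd | hr
  · have h1 := H19.RD.deg_le_of_dvd f _ (H19.RD.lin_ne 0 p.1) hd
    have h3 := H19.RD.deg_lin 0 p.1
    omega
  · set S : Finset (Fin 2 → ℝ) := (range (f.totalDegree + 1)).image
      (fun j : ℕ => (![p.1, (j : ℝ)] : Fin 2 → ℝ)) with hS
    have hcard : S.card = f.totalDegree + 1 := by
      rw [hS, card_image_of_injective, card_range]
      intro a b hab
      have := congrFun hab 1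
      simpa using this
    have h4 := H19.RD.bez_pts f (X 0 - C p.1) hf.ne_zero (H19.RD.lin_ne _ _) hr S (by
      intro t ht
      rw [hS, mem_image] at ht
      obtain ⟨j, -, rfl⟩ := ht
      refine ⟨?_, by simp⟩
      rw [H19.RD.const_of_pderiv f h0 p.1 _ p.2]
      exact hp')
    have h5 : f.totalDegree * (X 0 - C p.1 : MvPolynomial (Fin 2) ℝ).totalDegree ≤
        f.totalDegree * 1 := Nat.mul_le_mul_left _ (H19.RD.deg_lin _ _)
    omega

private theorem Trans_mem (f : MvPolynomial (Fin 2) ℝ) (p t : ℝ × ℝ) (hp : p ∈ Zs f) :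
    p + t ∈ Zs (sh t f) := by
  have hp' : eval ![p.1, p.2] f = 0 := hp
  show eval ![(p + t).1, (p + t).2] (sh t f) = 0
  rw [sh_eval, Prod.fst_add, Prod.snd_add, add_sub_cancel_right, add_sub_cancel_right]
  exact hp'

theorem trans_bound (k : ℕ) : ∃ C : ℝ, 0 ≤ C ∧ ∀ f : MvPolynomial (Fin 2) ℝ, Irreducible f →
    2 ≤ f.totalDegree → f.totalDegree ≤ k → ∀ P T : Finset (ℝ × ℝ), T.Nonempty →
    ((P.filter fun p => p ∈ Zs f).card : ℝ) ≤
      C * (((P + T).card : ℝ) ^ (2 / 3 : ℝ) / (T.card : ℝ) ^ (1 / 3 : ℝ) +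
        (P + T).card / T.card + 1) := by
  obtain ⟨C, hC, hps⟩ := ps_alg k (k * k)
  refine ⟨C, hC, fun f hf h2 hk P T hT => ?_⟩
  have hTpos : (0 : ℝ) < T.card := by exact_mod_cast hT.card_pos
  by_cases h0 : pderiv 1 f = 0
  · have he : (P.filter fun p => p ∈ Zs f) = ∅ := by
      rw [filter_eq_empty_iff]
      intro p _
      exact Trans_empty f hf h2 h0 p
    rw [he, card_empty, Nat.cast_zero]
    positivity
  have key := hps {t // t ∈ T} (fun t => sh t.1 f) (P + T)
    (fun i => ⟨sh_irr _ f hf, by rw [sh_deg]; exact hk, by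
      rw [sh_pd]; exact sh_ne _ _ h0⟩)
    (fun i j hij => shift_inter k f hf h2 hk i.1 j.1 (fun h => hij (Subtype.ext h)))
    (fun p _ q _ hpq => by
      refine le_trans ?_ (shift_through k f hf h2 hk p q hpq T)
      refine card_le_card_of_injOn (fun i => i.1) (fun i hi => ?_)
        (fun i _ j _ hij => Subtype.ext hij)
      have hi' := (mem_filter.1 (mem_coe.1 hi)).2
      exact mem_coe.2 (mem_filter.2 ⟨i.2, hi'⟩))
  rw [Fintype.card_coe] at key
  set N := (P.filter fun p => p ∈ Zs f).card with hN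
  have hcount : N * T.card ≤ ∑ p ∈ P + T,
      (univ.filter fun i : {t // t ∈ T} => p ∈ Zs (sh i.1 f)).card := by
    have e : ∑ p ∈ P + T, (univ.filter fun i : {t // t ∈ T} => p ∈ Zs (sh i.1 f)).card
        = ∑ i : {t // t ∈ T}, ((P + T).filter fun p => p ∈ Zs (sh i.1 f)).card := by
      simp only [card_filter]
      rw [sum_comm]
    rw [e]
    have h1 : ∀ i ∈ (univ : Finset {t // t ∈ T}), N ≤
        ((P + T).filter fun p => p ∈ Zs (sh i.1 f)).card := by
      intro i _
      refine card_le_card_of_injOn (fun p => p + i.1) (fun p hp => ?_)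
        (fun a _ b _ hab => add_right_cancel hab)
      have hp' := mem_filter.1 (mem_coe.1 hp)
      exact mem_coe.2 (mem_filter.2 ⟨add_mem_add hp'.1 i.2, Trans_mem f p i.1 hp'.2⟩)
    have h2 := card_nsmul_le_sum univ _ N h1
    rw [card_univ, Fintype.card_coe, smul_eq_mul] at h2
    rw [mul_comm]
    exact h2
  have hcount' : (N : ℝ) * T.card ≤ C * (((P + T).card : ℝ) ^ (2 / 3 : ℝ) *
      (T.card : ℝ) ^ (2 / 3 : ℝ) + (P + T).card + T.card) := by
    refine le_trans ?_ key
    exact_mod_cast hcount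
  have h3 : (T.card : ℝ) ^ (2 / 3 : ℝ) = T.card / (T.card : ℝ) ^ (1 / 3 : ℝ) := by
    rw [eq_div_iff (by positivity), ← Real.rpow_add hTpos]
    norm_num
  have h4 : (0 : ℝ) < (T.card : ℝ) ^ (1 / 3 : ℝ) := by positivity
  have h5 : C * (((P + T).card : ℝ) ^ (2 / 3 : ℝ) * (T.card : ℝ) ^ (2 / 3 : ℝ) + (P + T).card
      + T.card) = C * (((P + T).card : ℝ) ^ (2 / 3 : ℝ) / (T.card : ℝ) ^ (1 / 3 : ℝ) +
        (P + T).card / T.card + 1) * T.card := by
    rw [h3]
    field_simp
  rw [h5] at hcount'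
  exact le_of_mul_le_mul_right hcount' hTpos

end Pool.Agent.H22.PS
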