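import Pool.Agent.H22.PS.Defs

/-!
# Total variation of the rank of an arc

For `τ` with `i` present at `τ` and `τ + 1` put `S = {j : act τ j, v τ j < v τ i}` and
`S' = {j : act (τ+1) j, v (τ+1) j < v (τ+1) i}`, so `rk τ i = #S`, `rk (τ+1) i = #S'`.
If `j ∈ S \ S'` then either `j` is not present at `τ + 1` (so `B j = τ + 1`), or `j` is present at
`τ + 1` with `v (τ+1) j ≥ v (τ+1) i`, and by `cross` (for `j`, `i`) we have equality: `j ≠ i` is
tied with `i` at time `τ + 1`.
If `j ∈ S' \ S` then either `j` is not present at `τ` (so `A j = τ`), or it is present at `τ` with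
`v τ j ≥ v τ i`; strict inequality contradicts `cross` (for `i`, `j`) and `j ∈ S'`, so `j ≠ i` is
tied with `i` at time `τ`.
Hence `|rk τ i - rk (τ+1) i| ≤ #{j ≠ i tied at τ} + #{j ≠ i tied at τ+1} + #{j : A j = τ or B j = τ+1}`.
Sum over `τ < M`: each `j ≠ i` is tied with `i` at most `μ` times (a tie needs `τ < B ≤ M`), and
each `j` has one value `A j` and one value `B j - 1`. Total at most `(2 μ + 2) n`.
-/

namespace Pool.Agent.H22.PS

open Finset
open scoped Classical

variable {ι : Type} [Fintype ι] {μ : ℕ}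

/-- the contribution of arc `j` between the times `τ` and `τ + 1` -/
private theorem var_step (D : Arr ι μ) (i : ι) (τ : ℕ) (h1 : D.act τ i)
    (h2 : D.act (τ + 1) i) :
    Nat.dist (D.rk τ i) (D.rk (τ + 1) i) ≤
      ∑ j, ((if j ≠ i ∧ (D.act (τ + 1) i ∧ D.act (τ + 1) j ∧ D.v (τ + 1) i = D.v (τ + 1) j)
        then 1 else 0) + (if D.B j = τ + 1 then 1 else 0) +
        ((if j ≠ i ∧ (D.act τ i ∧ D.act τ j ∧ D.v τ i = D.v τ j) then 1 else 0) +
        (if D.A j = τ then 1 else 0))) := by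
  rw [Finset.sum_add_distrib]
  set S := univ.filter fun j => D.act τ j ∧ D.v τ j < D.v τ i with hS
  set S' := univ.filter fun j => D.act (τ + 1) j ∧ D.v (τ + 1) j < D.v (τ + 1) i with hS'
  have e1 : D.rk τ i = S.card := rfl
  have e2 : D.rk (τ + 1) i = S'.card := rfl
  rw [e1, e2, Nat.dist]
  have key : ∀ (T : Finset ι) (f : ι → ℕ), (∀ j ∈ T, 1 ≤ f j) → T.card ≤ ∑ j, f j := by
    intro T f hf
    calc T.card = ∑ j ∈ T, 1 := by simp
      _ ≤ ∑ j ∈ T, f j := Finset.sum_le_sum hf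
      _ ≤ ∑ j, f j := Finset.sum_le_sum_of_subset (Finset.subset_univ T)
  refine add_le_add ?_ ?_
  · refine (Finset.le_card_sdiff S' S).trans (key _ _ fun j hj => ?_)
    rw [Finset.mem_sdiff, hS, hS', Finset.mem_filter, Finset.mem_filter] at hj
    obtain ⟨⟨-, ha, hv⟩, hn⟩ := hj
    by_cases hact : D.act (τ + 1) j
    · have hge : D.v (τ + 1) i ≤ D.v (τ + 1) j := by
        by_contra hlt
        exact hn ⟨Finset.mem_univ j, hact, not_le.1 hlt⟩
      have hle := D.cross τ j i ⟨ha.1, hact.2⟩ ⟨h1.1, h2.2⟩ hv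
      have hji : j ≠ i := by
        rintro rfl
        exact lt_irrefl _ hv
      rw [if_pos ⟨hji, h2, hact, le_antisymm hge hle⟩]
      omega
    · have hB : D.B j = τ + 1 := by
        have h3 : ¬ (τ + 1 < D.B j) := fun h => hact ⟨Nat.lt_succ_of_lt ha.1, h⟩
        have h4 := ha.2
        omega
      rw [if_pos hB]
      omega
  · refine (Finset.le_card_sdiff S S').trans (key _ _ fun j hj => ?_)
    rw [Finset.mem_sdiff, hS, hS', Finset.mem_filter, Finset.mem_filter] at hj
    obtain ⟨⟨-, ha, hv⟩, hn⟩ := hj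
    have hji : j ≠ i := by
      rintro rfl
      exact lt_irrefl _ hv
    by_cases hact : D.act τ j
    · have hge : D.v τ i ≤ D.v τ j := by
        by_contra hlt
        exact hn ⟨Finset.mem_univ j, hact, not_le.1 hlt⟩
      have heq : D.v τ i = D.v τ j := by
        rcases hge.lt_or_eq with hlt | heq
        · have := D.cross τ i j ⟨h1.1, h2.2⟩ ⟨hact.1, ha.2⟩ hlt
          exact absurd hv (not_lt.2 this)
        · exact heq
      rw [if_pos ⟨hji, h1, hact, heq⟩]
      omega
    · have hA : D.A j = τ := by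
        have h3 : ¬ (D.A j < τ) := fun h => hact ⟨h, (Nat.lt_succ_self τ).trans ha.2⟩
        have h4 := ha.1
        omega
      rw [if_pos hA]
      omega

private theorem var_card (M : ℕ) (P : ℕ → Prop) [DecidablePred P] (b : ℕ)
    (h : ((range M).filter P).card ≤ b) :
    ∑ τ ∈ range M, (if P τ then 1 else 0) ≤ b := by
  rw [← Finset.card_filter]
  exact h

private theorem var_one (M : ℕ) (P : ℕ → Prop) [DecidablePred P]
    (h : ∀ a b, P a → P b → a = b) :
    ∑ τ ∈ range M, (if P τ then 1 else 0) ≤ 1 := by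
  refine var_card M P 1 (Finset.card_le_one.2 fun a ha b hb => ?_)
  exact h a b (Finset.mem_filter.1 ha).2 (Finset.mem_filter.1 hb).2

private theorem var_fst (D : Arr ι μ) (i j : ι) :
    ∑ τ ∈ range D.M, (if j ≠ i ∧ (D.act τ i ∧ D.act τ j ∧ D.v τ i = D.v τ j) then 1 else 0)
      ≤ μ := by
  by_cases hij : j = i
  · rw [Finset.sum_eq_zero (fun τ _ => if_neg (fun h => h.1 hij))]
    exact Nat.zero_le _
  · refine var_card _ _ _ (le_trans (Finset.card_le_card ?_) (D.tie i j (fun h => hij h.symm)))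
    intro τ hτ
    rw [Finset.mem_filter] at hτ ⊢
    exact ⟨hτ.1, hτ.2.2.1, hτ.2.2.2.1, hτ.2.2.2.2⟩

private theorem var_snd (D : Arr ι μ) (i j : ι) :
    ∑ τ ∈ range D.M, (if j ≠ i ∧ (D.act (τ + 1) i ∧ D.act (τ + 1) j ∧
      D.v (τ + 1) i = D.v (τ + 1) j) then 1 else 0) ≤ μ := by
  by_cases hij : j = i
  · rw [Finset.sum_eq_zero (fun τ _ => if_neg (fun h => h.1 hij))]
    exact Nat.zero_le _
  · refine var_card _ _ _ (le_trans (Finset.card_le_card_of_injOn (fun τ => τ + 1) ?_ ?_)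
      (D.tie i j (fun h => hij h.symm)))
    · intro τ hτ
      have hτ' := (Finset.mem_filter.1 hτ)
      refine Finset.mem_coe.2 (Finset.mem_filter.2 ⟨?_, hτ'.2.2.1, hτ'.2.2.2.1, hτ'.2.2.2.2⟩)
      rw [Finset.mem_range]
      exact lt_of_lt_of_le hτ'.2.2.1.2 (D.hB i)
    · intro a _ b _ hab
      exact Nat.succ_injective hab

theorem var (D : Arr ι μ) (i : ι) :
    ∑ τ ∈ range D.M, (if D.act τ i ∧ D.act (τ + 1) i then
      Nat.dist (D.rk τ i) (D.rk (τ + 1) i) else 0) ≤ (2 * μ + 2) * Fintype.card ι := by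
  have h1 : ∀ τ ∈ range D.M, (if D.act τ i ∧ D.act (τ + 1) i then
      Nat.dist (D.rk τ i) (D.rk (τ + 1) i) else 0) ≤
      ∑ j, ((if j ≠ i ∧ (D.act (τ + 1) i ∧ D.act (τ + 1) j ∧ D.v (τ + 1) i = D.v (τ + 1) j)
        then 1 else 0) + (if D.B j = τ + 1 then 1 else 0) +
        ((if j ≠ i ∧ (D.act τ i ∧ D.act τ j ∧ D.v τ i = D.v τ j) then 1 else 0) +
        (if D.A j = τ then 1 else 0))) := by
    intro τ _
    by_cases h : D.act τ i ∧ D.act (τ + 1) i
    · rw [if_pos h]
      exact var_step D i τ h.1 h.2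
    · rw [if_neg h]
      exact Nat.zero_le _
  refine (Finset.sum_le_sum h1).trans ?_
  rw [Finset.sum_comm]
  have h2 : ∀ j ∈ (univ : Finset ι), ∑ τ ∈ range D.M,
      ((if j ≠ i ∧ (D.act (τ + 1) i ∧ D.act (τ + 1) j ∧ D.v (τ + 1) i = D.v (τ + 1) j)
        then 1 else 0) + (if D.B j = τ + 1 then 1 else 0) +
        ((if j ≠ i ∧ (D.act τ i ∧ D.act τ j ∧ D.v τ i = D.v τ j) then 1 else 0) +
        (if D.A j = τ then 1 else 0))) ≤ 2 * μ + 2 := by
    intro j _
    rw [Finset.sum_add_distrib, Finset.sum_add_distrib, Finset.sum_add_distrib]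
    have e1 := var_snd D i j
    have e2 : ∑ τ ∈ range D.M, (if D.B j = τ + 1 then 1 else 0) ≤ 1 :=
      var_one _ _ fun a b ha hb => by omega
    have e3 := var_fst D i j
    have e4 : ∑ τ ∈ range D.M, (if D.A j = τ then 1 else 0) ≤ 1 :=
      var_one _ _ fun a b ha hb => by omega
    linarith
  refine (Finset.sum_le_sum h2).trans ?_
  rw [Finset.sum_const, Finset.card_univ, smul_eq_mul, mul_comm]

end Pool.Agent.H22.PS
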